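import Mathlib

/-!
CNF formulas, their polynomial translation with twin variables, and the proof systems
sum-of-squares and polynomial calculus with resolution over the rationals, with monomial size and
bit size.
-/

namespace Pool.Agent.Helper81_Sos

open MvPolynomial

/-- A clause, given by the variables occurring positively and those occurring negatively. -/
@[ext] structure Clause (V : Type) where
  /-- variables occurring positively -/
  pos : Finset V
  /-- variables occurring negatively -/
  neg : Finset V

noncomputable instance {V : Type} : DecidableEq (Clause V) := Classical.decEq _

/-- The clause is satisfied by the assignment `a`. -/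
def Clause.Sat {V : Type} (c : Clause V) (a : V → Bool) : Prop :=
  (∃ v ∈ c.pos, a v = true) ∨ (∃ v ∈ c.neg, a v = false)

/-- A CNF formula: a finite set of clauses. -/
abbrev CNF (V : Type) : Type := Finset (Clause V)

/-- No assignment satisfies all clauses. -/
def CNF.Unsat {V : Type} (F : CNF V) : Prop := ∀ a : V → Bool, ∃ c ∈ F, ¬ c.Sat a

/-- Rational polynomials in the twin variables: `X (v, true)` stands for the variable `x_v` and
`X (v, false)` for its twin. -/
abbrev Poly (V : Type) : Type := MvPolynomial (V × Bool) ℚ

/-- Translation of a clause: the product of the twins of its positive variables and of its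
negative variables. -/
noncomputable def Clause.poly {V : Type} (c : Clause V) : Poly V :=
  (∏ v ∈ c.pos, X (v, false)) * ∏ v ∈ c.neg, X (v, true)

/-- The logical axiom `x_v ^ 2 - x_v`. -/
noncomputable def boolAx {V : Type} (v : V) : Poly V := X (v, true) ^ 2 - X (v, true)

/-- The logical axiom stating that `x_v` and its twin add up to one. -/
noncomputable def twinAx {V : Type} (v : V) : Poly V := X (v, true) + X (v, false) - 1

/-- Number of monomials of a polynomial. -/
noncomputable def monos {V : Type} (p : Poly V) : ℕ := p.support.card

/-- Number of binary digits of numerator and denominator of a reduced fraction. -/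
def ratBits (q : ℚ) : ℕ := Nat.size q.num.natAbs + Nat.size q.den

/-- Number of binary digits of all (nonzero) coefficients of a polynomial. -/
noncomputable def polyBits {V : Type} (p : Poly V) : ℕ := ∑ m ∈ p.support, ratBits (p.coeff m)

/-- A sum-of-squares refutation of (the translation of) `F`, with rational coefficients. -/
structure SOSRefutation {V : Type} [Fintype V] (F : CNF V) where
  /-- the polynomials that are squared -/
  squares : List (Poly V)
  /-- the multipliers of the clauses -/
  t : Clause V → Poly V
  /-- the multipliers of the axioms `x ^ 2 - x` -/
  u : V → Poly V
  /-- the multipliers of the twin axioms -/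
  w : V → Poly V
  identity : -1 = (squares.map fun r => r ^ 2).sum + ∑ c ∈ F, t c * c.poly +
    ∑ v, (u v * boolAx v + w v * twinAx v)

/-- The number of explicit monomials: those of the squared polynomials, of the multipliers, and of
all clauses and all logical axioms. -/
noncomputable def SOSRefutation.monomialSize {V : Type} [Fintype V] {F : CNF V}
    (π : SOSRefutation F) : ℕ :=
  (π.squares.map monos).sum + ∑ c ∈ F, (monos (π.t c) + monos c.poly) +
    ∑ v, (monos (π.u v) + monos (π.w v) + monos (boolAx v) + monos (twinAx v))

/-- The number of binary digits of all coefficients of the squared polynomials and of the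
multipliers. -/
noncomputable def SOSRefutation.bits {V : Type} [Fintype V] {F : CNF V}
    (π : SOSRefutation F) : ℕ :=
  (π.squares.map polyBits).sum + ∑ c ∈ F, polyBits (π.t c) +
    ∑ v, (polyBits (π.u v) + polyBits (π.w v))

/-- The polynomial `p` may follow the lines `prev` in a PCR refutation of `F`: it is the
translation of a clause, a logical axiom, a variable times an earlier line, or a rational linear
combination of two earlier lines. -/
def PCRStep {V : Type} (F : CNF V) (prev : List (Poly V)) (p : Poly V) : Prop :=
  (∃ c ∈ F, p = c.poly) ∨ (∃ v, p = boolAx v) ∨ (∃ v, p = twinAx v) ∨
  (∃ q ∈ prev, ∃ y : V × Bool, p = X y * q) ∨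
  (∃ q ∈ prev, ∃ r ∈ prev, ∃ a b : ℚ, p = C a * q + C b * r)

/-- A refutation in polynomial calculus with resolution over the rationals: a list of lines, each
of them justified by the preceding ones, that ends with the polynomial `1`. -/
structure PCRRefutation {V : Type} (F : CNF V) where
  /-- the lines -/
  lines : List (Poly V)
  step : ∀ (i : ℕ) (h : i < lines.length), PCRStep F (lines.take i) lines[i]
  final : lines.getLast? = some 1

/-- The number of monomials of all lines, counted with multiplicity. -/
noncomputable def PCRRefutation.monomialSize {V : Type} {F : CNF V} (π : PCRRefutation F) : ℕ :=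
  (π.lines.map monos).sum

/-- The number of binary digits of all coefficients of all lines. -/
noncomputable def PCRRefutation.bits {V : Type} {F : CNF V} (π : PCRRefutation F) : ℕ :=
  (π.lines.map polyBits).sum

end Pool.Agent.Helper81_Sos
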