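import Mathlib
import Pool.Agent.Helper81_Sos.Defs

/-!
Derivability with small monomial size, simultaneously in static form (certificates) and dynamic
form (PCR derivations).
-/

namespace Pool.Agent.Helper81_Sos

set_option linter.unusedSectionVars false

open MvPolynomial Finset

/-! ### Counting monomials -/

theorem monos_add_le {V : Type} (p q : Poly V) : monos (p + q) ≤ monos p + monos q := by
  classical
  unfold monos
  exact (Finset.card_le_card MvPolynomial.support_add).trans (Finset.card_union_le _ _)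

theorem monos_mul_le {V : Type} (p q : Poly V) : monos (p * q) ≤ monos p * monos q := by
  classical
  unfold monos
  exact (Finset.card_le_card (MvPolynomial.support_mul p q)).trans Finset.card_add_le

theorem monos_C_mul_le {V : Type} (a : ℚ) (p : Poly V) : monos (C a * p) ≤ monos p := by
  unfold monos
  refine Finset.card_le_card fun m hm => ?_
  rw [MvPolynomial.mem_support_iff, coeff_C_mul] at hm
  exact MvPolynomial.mem_support_iff.mpr (right_ne_zero_of_mul hm)

theorem monos_neg {V : Type} (p : Poly V) : monos (-p) = monos p := by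
  unfold monos
  rw [MvPolynomial.support_neg]

theorem monos_zero {V : Type} : monos (0 : Poly V) = 0 := by
  unfold monos
  simp

theorem monos_C_le {V : Type} (a : ℚ) : monos (C a : Poly V) ≤ 1 := by
  unfold monos
  exact (Finset.card_le_card (MvPolynomial.support_monomial_subset)).trans (by simp)

theorem monos_one_le {V : Type} : monos (1 : Poly V) ≤ 1 := monos_C_le 1

theorem monos_X {V : Type} (y : V × Bool) : monos (X y : Poly V) = 1 := by
  unfold monos
  rw [MvPolynomial.support_X]
  simp

theorem monos_X_mul_le {V : Type} (y : V × Bool) (p : Poly V) : monos (X y * p) ≤ monos p := by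
  refine (monos_mul_le _ _).trans ?_
  rw [monos_X, one_mul]

theorem monos_sum_le {V ι : Type} (S : Finset ι) (p : ι → Poly V) :
    monos (∑ i ∈ S, p i) ≤ ∑ i ∈ S, monos (p i) := by
  classical
  induction S using Finset.induction_on with
  | empty => simp [monos_zero]
  | insert a S ha ih =>
    rw [Finset.sum_insert ha, Finset.sum_insert ha]
    exact (monos_add_le _ _).trans (Nat.add_le_add_left ih _)

theorem monos_prod_X_le {V ι : Type} (S : Finset ι) (f : ι → V × Bool) :
    monos (∏ i ∈ S, X (f i) : Poly V) ≤ 1 := by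
  classical
  induction S using Finset.induction_on with
  | empty => simpa using monos_one_le
  | insert a S ha ih =>
    rw [Finset.prod_insert ha]
    exact (monos_X_mul_le _ _).trans ih

theorem monos_clause_le {V : Type} (c : Clause V) : monos c.poly ≤ 1 := by
  unfold Clause.poly
  refine (monos_mul_le _ _).trans ?_
  have h1 := monos_prod_X_le c.pos (fun v => (v, false))
  have h2 := monos_prod_X_le c.neg (fun v => (v, true))
  calc _ ≤ 1 * 1 := Nat.mul_le_mul h1 h2
    _ = 1 := rfl

theorem monos_boolAx_le {V : Type} (v : V) : monos (boolAx v) ≤ 2 := by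
  unfold boolAx
  rw [sub_eq_add_neg]
  refine (monos_add_le _ _).trans ?_
  rw [monos_neg, monos_X, sq]
  have := monos_X_mul_le (v, true) (X (v, true) : Poly V)
  rw [monos_X] at this
  omega

theorem monos_twinAx_le {V : Type} (v : V) : monos (twinAx v) ≤ 3 := by
  unfold twinAx
  rw [sub_eq_add_neg]
  refine (monos_add_le _ _).trans ?_
  have h1 := monos_add_le (X (v, true) : Poly V) (X (v, false))
  rw [monos_X, monos_X] at h1
  rw [monos_neg]
  have h2 := monos_one_le (V := V)
  omega

/-! ### Static certificates -/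

section

variable {V : Type} [Fintype V] [DecidableEq V] {F : CNF V}

/-- `q` is a combination of the axioms with multipliers having at most `s` monomials. -/
def Cert (F : CNF V) (q : Poly V) (s : ℕ) : Prop :=
  ∃ (t : Clause V → Poly V) (u w : V → Poly V),
    q = ∑ c ∈ F, t c * c.poly + ∑ v, (u v * boolAx v + w v * twinAx v) ∧
    ∑ c ∈ F, monos (t c) + ∑ v, (monos (u v) + monos (w v)) ≤ s

theorem Cert.mono {q : Poly V} {s s' : ℕ} (h : Cert F q s) (hs : s ≤ s') : Cert F q s' := by
  obtain ⟨t, u, w, h1, h2⟩ := h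
  exact ⟨t, u, w, h1, h2.trans hs⟩

theorem cert_zero : Cert F 0 0 := by
  refine ⟨fun _ => 0, fun _ => 0, fun _ => 0, ?_, ?_⟩
  · simp
  · simp [monos_zero]

theorem Cert.add {p q : Poly V} {s s' : ℕ} (hp : Cert F p s) (hq : Cert F q s') :
    Cert F (p + q) (s + s') := by
  obtain ⟨t, u, w, h1, h2⟩ := hp
  obtain ⟨t', u', w', h1', h2'⟩ := hq
  refine ⟨fun c => t c + t' c, fun v => u v + u' v, fun v => w v + w' v, ?_, ?_⟩
  · rw [h1, h1']
    have e1 : ∑ c ∈ F, (t c + t' c) * c.poly =
        ∑ c ∈ F, t c * c.poly + ∑ c ∈ F, t' c * c.poly := by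
      rw [← Finset.sum_add_distrib]
      exact Finset.sum_congr rfl fun c _ => by ring
    have e2 : ∑ v, ((u v + u' v) * boolAx v + (w v + w' v) * twinAx v) =
        ∑ v, (u v * boolAx v + w v * twinAx v) + ∑ v, (u' v * boolAx v + w' v * twinAx v) := by
      rw [← Finset.sum_add_distrib]
      exact Finset.sum_congr rfl fun c _ => by ring
    rw [e1, e2]
    ring
  · have e1 : ∑ c ∈ F, monos (t c + t' c) ≤ ∑ c ∈ F, monos (t c) + ∑ c ∈ F, monos (t' c) := by
      rw [← Finset.sum_add_distrib]
      exact Finset.sum_le_sum fun c _ => monos_add_le _ _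
    have e2 : ∑ v, (monos (u v + u' v) + monos (w v + w' v)) ≤
        ∑ v, (monos (u v) + monos (w v)) + ∑ v, (monos (u' v) + monos (w' v)) := by
      rw [← Finset.sum_add_distrib]
      refine Finset.sum_le_sum fun v _ => ?_
      have e3 := monos_add_le (u v) (u' v)
      have e4 := monos_add_le (w v) (w' v)
      omega
    exact (Nat.add_le_add e1 e2).trans (by omega)

theorem Cert.mul {q : Poly V} {s : ℕ} (hq : Cert F q s) (p : Poly V) :
    Cert F (p * q) (monos p * s) := by
  obtain ⟨t, u, w, h1, h2⟩ := hq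
  refine ⟨fun c => p * t c, fun v => p * u v, fun v => p * w v, ?_, ?_⟩
  · rw [h1, mul_add, Finset.mul_sum, Finset.mul_sum]
    congr 1
    · exact Finset.sum_congr rfl fun c _ => by ring
    · exact Finset.sum_congr rfl fun c _ => by ring
  · calc ∑ c ∈ F, monos (p * t c) + ∑ v, (monos (p * u v) + monos (p * w v))
        ≤ ∑ c ∈ F, monos p * monos (t c) + ∑ v, (monos p * monos (u v) + monos p * monos (w v)) :=
          Nat.add_le_add (Finset.sum_le_sum fun c _ => monos_mul_le _ _)
            (Finset.sum_le_sum fun v _ => Nat.add_le_add (monos_mul_le _ _) (monos_mul_le _ _))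
      _ = monos p * (∑ c ∈ F, monos (t c) + ∑ v, (monos (u v) + monos (w v))) := by
          rw [mul_add, Finset.mul_sum, Finset.mul_sum]
          congr 1
          exact Finset.sum_congr rfl fun v _ => by ring
      _ ≤ monos p * s := Nat.mul_le_mul_left _ h2

theorem cert_clause {c : Clause V} (hc : c ∈ F) : Cert F c.poly 1 := by
  refine ⟨fun d => if d = c then 1 else 0, fun _ => 0, fun _ => 0, ?_, ?_⟩
  · simp [hc]
  · simp only [monos_zero, add_zero, Finset.sum_const_zero]
    have h1 : ∀ d ∈ F, monos (if d = c then (1 : Poly V) else 0) ≤ if d = c then 1 else 0 := by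
      intro d _
      split_ifs
      · exact monos_one_le
      · rw [monos_zero]
    refine (Finset.sum_le_sum h1).trans ?_
    simp [hc]

theorem cert_bool (v : V) : Cert F (boolAx v) 1 := by
  refine ⟨fun _ => 0, fun x => if x = v then 1 else 0, fun _ => 0, ?_, ?_⟩
  · simp
  · simp only [monos_zero, add_zero, Finset.sum_const_zero, zero_add]
    have h1 : ∀ d ∈ univ, monos (if d = v then (1 : Poly V) else 0) ≤ if d = v then 1 else 0 := by
      intro d _
      split_ifs
      · exact monos_one_le
      · rw [monos_zero]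
    refine (Finset.sum_le_sum h1).trans ?_
    simp

theorem cert_twin (v : V) : Cert F (twinAx v) 1 := by
  refine ⟨fun _ => 0, fun _ => 0, fun x => if x = v then 1 else 0, ?_, ?_⟩
  · simp
  · simp only [monos_zero, Finset.sum_const_zero, zero_add]
    have h1 : ∀ d ∈ univ, monos (if d = v then (1 : Poly V) else 0) ≤ if d = v then 1 else 0 := by
      intro d _
      split_ifs
      · exact monos_one_le
      · rw [monos_zero]
    refine (Finset.sum_le_sum h1).trans ?_
    simp

/-! ### Dynamic derivations -/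

/-- Lists of lines in which every line is justified by the preceding ones. -/
inductive Valid (F : CNF V) : List (Poly V) → Prop
  | nil : Valid F []
  | snoc {L : List (Poly V)} {p : Poly V} : Valid F L → PCRStep F L p → Valid F (L ++ [p])

/-- Every valid list containing `H` can be extended, adding at most `s` monomials, to a valid list
containing `q`. -/
def Ext (F : CNF V) (H : List (Poly V)) (q : Poly V) (s : ℕ) : Prop :=
  ∀ L, Valid F L → (∀ h ∈ H, h ∈ L) →
    ∃ M, Valid F (L ++ M) ∧ q ∈ L ++ M ∧ (M.map monos).sum ≤ s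

theorem Ext.mono {H H' : List (Poly V)} {q : Poly V} {s s' : ℕ} (h : Ext F H q s)
    (hH : ∀ x ∈ H, x ∈ H') (hs : s ≤ s') : Ext F H' q s' := by
  intro L hL hHL
  obtain ⟨M, h1, h2, h3⟩ := h L hL fun x hx => hHL x (hH x hx)
  exact ⟨M, h1, h2, h3.trans hs⟩

theorem Ext.mem {H : List (Poly V)} {q : Poly V} (hq : q ∈ H) : Ext F H q 0 := by
  intro L hL hHL
  refine ⟨[], ?_, ?_, ?_⟩
  · simpa using hL
  · simpa using hHL q hq
  · simp

/-- Cut. -/
theorem Ext.cut {H : List (Poly V)} {q r : Poly V} {s s' : ℕ} (h1 : Ext F H q s)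
    (h2 : Ext F (q :: H) r s') : Ext F H r (s + s') := by
  intro L hL hHL
  obtain ⟨M, e1, e2, e3⟩ := h1 L hL hHL
  obtain ⟨M', f1, f2, f3⟩ := h2 (L ++ M) e1 (by
    intro x hx
    rcases List.mem_cons.mp hx with rfl | hx
    · exact e2
    · exact List.mem_append_left _ (hHL x hx))
  refine ⟨M ++ M', ?_, ?_, ?_⟩
  · rw [← List.append_assoc]
    exact f1
  · rw [← List.append_assoc]
    exact f2
  · rw [List.map_append, List.sum_append]
    omega

/-- One step from available lines. -/
theorem ext_step {H : List (Poly V)} {p : Poly V} (h : PCRStep F H p) : Ext F H p (monos p) := by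
  intro L hL hHL
  refine ⟨[p], Valid.snoc hL ?_, ?_, ?_⟩
  · rcases h with h | h | h | ⟨q, hq, y, h⟩ | ⟨q, hq, r, hr, a, b, h⟩
    · exact Or.inl h
    · exact Or.inr (Or.inl h)
    · exact Or.inr (Or.inr (Or.inl h))
    · exact Or.inr (Or.inr (Or.inr (Or.inl ⟨q, hHL q hq, y, h⟩)))
    · exact Or.inr (Or.inr (Or.inr (Or.inr ⟨q, hHL q hq, r, hHL r hr, a, b, h⟩)))
  · simp
  · simp

theorem Ext.X_mul {H : List (Poly V)} {q : Poly V} {s : ℕ} (h : Ext F H q s) (y : V × Bool) :
    Ext F H (X y * q) (s + monos q) := by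
  refine h.cut ?_
  refine (ext_step (p := X y * q) (Or.inr (Or.inr (Or.inr (Or.inl
    ⟨q, List.mem_cons_self, y, rfl⟩))))).mono (fun _ h => h) (monos_X_mul_le _ _)

theorem Ext.C_mul {H : List (Poly V)} {q : Poly V} {s : ℕ} (h : Ext F H q s) (a : ℚ) :
    Ext F H (C a * q) (s + monos q) := by
  refine h.cut ?_
  refine (ext_step (p := C a * q) (Or.inr (Or.inr (Or.inr (Or.inr
    ⟨q, List.mem_cons_self, q, List.mem_cons_self, a, 0, by simp⟩))))).mono (fun _ h => h)
    (monos_C_mul_le _ _)

theorem Ext.lin {H : List (Poly V)} {q r : Poly V} {s s' : ℕ} (h : Ext F H q s)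
    (h' : Ext F H r s') (a b : ℚ) :
    Ext F H (C a * q + C b * r) (s + (s' + monos (C a * q + C b * r))) := by
  refine h.cut ?_
  refine (h'.mono (fun _ hx => List.mem_cons_of_mem _ hx) le_rfl).cut ?_
  exact ext_step (Or.inr (Or.inr (Or.inr (Or.inr
    ⟨q, List.mem_cons_of_mem _ List.mem_cons_self, r, List.mem_cons_self, a, b, rfl⟩))))

theorem Ext.add {H : List (Poly V)} {q r : Poly V} {s s' : ℕ} (h : Ext F H q s)
    (h' : Ext F H r s') : Ext F H (q + r) (s + (s' + monos (q + r))) := by
  have := h.lin h' 1 1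
  simpa using this

/-! ### Both at once -/

/-- Derivable with cost `s` in both senses, and with at most `s` monomials. -/
def Good (F : CNF V) (s : ℕ) (p : Poly V) : Prop := Cert F p s ∧ Ext F [] p s ∧ monos p ≤ s

theorem Good.mono {p : Poly V} {s s' : ℕ} (h : Good F s p) (hs : s ≤ s') : Good F s' p :=
  ⟨h.1.mono hs, h.2.1.mono (fun _ h => h) hs, h.2.2.trans hs⟩

theorem Good.add {p q : Poly V} {s s' : ℕ} (hp : Good F s p) (hq : Good F s' q) :
    Good F (2 * (s + s')) (p + q) := by
  have h1 := monos_add_le p q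
  have h2 := hp.2.2
  have h3 := hq.2.2
  exact ⟨(hp.1.add hq.1).mono (by omega), (hp.2.1.add hq.2.1).mono (fun _ h => h) (by omega),
    by omega⟩

theorem Good.X_mul {p : Poly V} {s : ℕ} (hp : Good F s p) (y : V × Bool) :
    Good F (2 * s) (X y * p) := by
  have h1 := monos_X_mul_le y p
  have h2 := hp.2.2
  refine ⟨(hp.1.mul (X y)).mono ?_, (hp.2.1.X_mul y).mono (fun _ h => h) (by omega), by omega⟩
  rw [monos_X]
  omega

theorem Good.C_mul {p : Poly V} {s : ℕ} (hp : Good F s p) (a : ℚ) :
    Good F (2 * s) (C a * p) := by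
  have h1 := monos_C_mul_le a p
  have h2 := hp.2.2
  refine ⟨(hp.1.mul (C a)).mono ?_, (hp.2.1.C_mul a).mono (fun _ h => h) (by omega), by omega⟩
  have h3 := monos_C_le (V := V) a
  calc monos (C a : Poly V) * s ≤ 1 * s := Nat.mul_le_mul_right _ h3
    _ ≤ 2 * s := by omega

theorem good_clause {c : Clause V} (hc : c ∈ F) : Good F 1 c.poly :=
  ⟨cert_clause hc, (ext_step (Or.inl ⟨c, hc, rfl⟩)).mono (fun _ h => h) (monos_clause_le c),
    monos_clause_le c⟩

theorem good_bool (v : V) : Good F 2 (boolAx v) :=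
  ⟨(cert_bool v).mono (by norm_num), (ext_step (Or.inr (Or.inl ⟨v, rfl⟩))).mono (fun _ h => h)
    (monos_boolAx_le v), monos_boolAx_le v⟩

theorem good_twin (v : V) : Good F 3 (twinAx v) :=
  ⟨(cert_twin v).mono (by norm_num), (ext_step (Or.inr (Or.inr (Or.inl ⟨v, rfl⟩)))).mono
    (fun _ h => h) (monos_twinAx_le v), monos_twinAx_le v⟩

theorem good_zero [Nonempty V] : Good F 4 (0 : Poly V) := by
  have h1 := (good_bool (F := F) (Classical.arbitrary V)).C_mul 0
  rw [C_0, zero_mul] at h1
  exact h1.mono (by norm_num)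

theorem Good.neg {p : Poly V} {s : ℕ} (hp : Good F s p) : Good F (2 * s) (-p) := by
  have := hp.C_mul (-1)
  rwa [C_neg, C_1, neg_one_mul] at this

/-- Sums of many derivable polynomials. -/
theorem good_sum [Nonempty V] {ι : Type} (S : Finset ι) (p : ι → Poly V) {s : ℕ} (hs : 4 ≤ s)
    (h : ∀ i ∈ S, Good F s (p i)) : Good F ((S.card + 1) ^ 2 * s) (∑ i ∈ S, p i) := by
  classical
  have key : ∀ S : Finset ι, (∀ i ∈ S, Good F s (p i)) →
      Cert F (∑ i ∈ S, p i) (S.card * s) ∧ Ext F [] (∑ i ∈ S, p i) ((S.card + 1) ^ 2 * s) ∧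
        monos (∑ i ∈ S, p i) ≤ S.card * s := by
    intro S
    induction S using Finset.induction_on with
    | empty =>
      intro _
      refine ⟨?_, ?_, ?_⟩
      · simpa using cert_zero (F := F)
      · have h0 := (good_zero (F := F)).2.1
        simp only [Finset.sum_empty, Finset.card_empty]
        exact h0.mono (fun _ h => h) (by omega)
      · simp [monos_zero]
    | insert a S ha ih =>
      intro h
      obtain ⟨h1, h2, h3⟩ := ih fun i hi => h i (Finset.mem_insert_of_mem hi)
      obtain ⟨g1, g2, g3⟩ := h a (Finset.mem_insert_self a S)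
      rw [Finset.sum_insert ha, Finset.card_insert_of_notMem ha]
      have h4 := monos_add_le (p a) (∑ i ∈ S, p i)
      refine ⟨(g1.add h1).mono (by ring_nf; omega), (g2.add h2).mono (fun _ h => h) ?_, ?_⟩
      · nlinarith
      · nlinarith
  obtain ⟨h1, h2, h3⟩ := key S h
  have h4 : S.card * s ≤ (S.card + 1) ^ 2 * s := Nat.mul_le_mul_right _ (by nlinarith)
  exact ⟨h1.mono h4, h2, h3.trans h4⟩

end

end Pool.Agent.Helper81_Sos
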