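import Mathlib
import Pool.Agent.Helper81_Sos.Defs

/-!
Local Boolean constraints, and the CNF obtained from them by replacing every variable by the
exclusive or of two new variables.
-/

namespace Pool.Agent.Helper81_Sos

set_option linter.unusedSectionVars false

open MvPolynomial Finset

/-- A local constraint: a tuple of variables and the set of allowed tuples of values. -/
structure Con (V : Type) where
  /-- number of variables -/
  r : ℕ
  /-- the variables -/
  vars : Fin r → V
  /-- the allowed tuples of values -/
  ok : (Fin r → Bool) → Bool

section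

variable {V : Type} [DecidableEq V]

/-- The clause, over the lifted variables, that excludes the values `b j false`, `b j true` of the
two copies of `vars j` for all `j`. -/
def exclClause {r : ℕ} (vars : Fin r → V) (b : Fin r → Bool → Bool) : Clause (V × Bool) where
  pos := (univ.filter fun p : Fin r × Bool => b p.1 p.2 = false).image fun p => (vars p.1, p.2)
  neg := (univ.filter fun p : Fin r × Bool => b p.1 p.2 = true).image fun p => (vars p.1, p.2)

/-- The lifted clauses of a constraint: all values of the copies are excluded for which the tuple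
of exclusive ors is not allowed. -/
noncomputable def Con.clauses (c : Con V) : CNF (V × Bool) :=
  (univ.filter fun b : Fin c.r → Bool → Bool =>
    c.ok (fun j => xor (b j false) (b j true)) = false).image (exclClause c.vars)

/-- The lifted CNF of a finite family of constraints. -/
noncomputable def liftCNF {J : Type} [Fintype J] (con : J → Con V) : CNF (V × Bool) :=
  univ.biUnion fun j => (con j).clauses

theorem exclClause_poly {r : ℕ} {vars : Fin r → V} (hv : Function.Injective vars)
    (b : Fin r → Bool → Bool) :
    (exclClause vars b).poly = ∏ p : Fin r × Bool, X ((vars p.1, p.2), b p.1 p.2) := by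
  have hinj : ∀ (S : Finset (Fin r × Bool)),
      Set.InjOn (fun p : Fin r × Bool => (vars p.1, p.2)) S := by
    intro S p _ q _ h
    obtain ⟨h1, h2⟩ := Prod.mk.inj h
    exact Prod.ext (hv h1) h2
  unfold Clause.poly exclClause
  rw [Finset.prod_image (hinj _), Finset.prod_image (hinj _)]
  rw [← Finset.prod_filter_mul_prod_filter_not univ (fun p : Fin r × Bool => b p.1 p.2 = false)]
  congr 1
  · refine Finset.prod_congr rfl fun p hp => ?_
    rw [(Finset.mem_filter.mp hp).2]
  · have h1 : (univ.filter fun p : Fin r × Bool => b p.1 p.2 = true) =
        univ.filter fun p : Fin r × Bool => ¬ b p.1 p.2 = false := by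
      refine Finset.filter_congr fun p _ => ?_
      simp
    rw [h1]
    refine Finset.prod_congr rfl fun p hp => ?_
    have h2 := (Finset.mem_filter.mp hp).2
    rw [Bool.not_eq_false] at h2
    rw [h2]

theorem mem_liftCNF {J : Type} [Fintype J] {con : J → Con V} {c : Clause (V × Bool)} :
    c ∈ liftCNF con ↔ ∃ j, ∃ b : Fin (con j).r → Bool → Bool,
      (con j).ok (fun i => xor (b i false) (b i true)) = false ∧
        exclClause (con j).vars b = c := by
  simp [liftCNF, Con.clauses]

end

/-- The value of a twin variable under an assignment. -/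
noncomputable def pt {V : Type} (A : V → Bool) (w : V × Bool) : ℝ := if A w.1 = w.2 then 1 else 0

theorem aeval_boolAx {V : Type} (A : V → Bool) (v : V) : aeval (pt A) (boolAx v) = 0 := by
  unfold boolAx
  rw [map_sub, map_pow, aeval_X]
  unfold pt
  split_ifs <;> simp

theorem aeval_twinAx {V : Type} (A : V → Bool) (v : V) : aeval (pt A) (twinAx v) = 0 := by
  unfold twinAx
  rw [map_sub, map_add, aeval_X, aeval_X, map_one]
  unfold pt
  dsimp only
  cases A v <;> simp

section

variable {V : Type} [DecidableEq V]

/-- The assignment of the lifted variables given by an assignment `a` of the base variables and a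
restriction `ρ`: for every base variable `y` the copy `(ρ y).1` has value `(ρ y).2`. -/
def liftAsg (ρ : V → Bool × Bool) (a : V → Bool) (y : V × Bool) : Bool :=
  if y.2 = (ρ y.1).1 then (ρ y.1).2 else xor (a y.1) (ρ y.1).2

theorem xor_liftAsg (ρ : V → Bool × Bool) (a : V → Bool) (y : V) :
    xor (liftAsg ρ a (y, false)) (liftAsg ρ a (y, true)) = a y := by
  unfold liftAsg
  dsimp only
  cases h1 : (ρ y).1 <;> cases h2 : (ρ y).2 <;> cases h3 : a y <;> simp

/-- The restricted clause polynomial is zero or the indicator of a tuple that is not allowed. -/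
theorem aeval_exclClause {r : ℕ} {vars : Fin r → V} (hv : Function.Injective vars)
    (b : Fin r → Bool → Bool) (ρ : V → Bool × Bool) :
    ∃ z : ℝ, (z = 0 ∨ z = 1) ∧ ∀ a : V → Bool,
      aeval (pt (liftAsg ρ a)) (exclClause vars b).poly =
        z * (if ∀ j, a (vars j) = xor (b j false) (b j true) then 1 else 0) := by
  have key : ∀ (a : V → Bool), (∀ p : Fin r × Bool, liftAsg ρ a (vars p.1, p.2) = b p.1 p.2) ↔
      (∀ j, b j (ρ (vars j)).1 = (ρ (vars j)).2) ∧
        ∀ j, a (vars j) = xor (b j false) (b j true) := by
    intro a
    constructor
    · intro h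
      refine ⟨fun j => ?_, fun j => ?_⟩
      · have := h (j, (ρ (vars j)).1)
        dsimp only at this
        rw [← this]
        simp [liftAsg]
      · rw [← h (j, false), ← h (j, true)]
        exact (xor_liftAsg ρ a (vars j)).symm
    · rintro ⟨h1, h2⟩ ⟨j, c⟩
      have h3 := h1 j
      have h4 := h2 j
      unfold liftAsg
      dsimp only
      rw [h4, ← h3]
      cases c <;> cases (ρ (vars j)).1 <;> cases b j false <;> cases b j true <;> simp
  refine ⟨if ∀ j, b j (ρ (vars j)).1 = (ρ (vars j)).2 then 1 else 0, ?_, ?_⟩
  · split_ifs <;> simp
  · intro a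
    rw [exclClause_poly hv, map_prod]
    have h1 : ∀ p : Fin r × Bool, aeval (pt (liftAsg ρ a))
        (X ((vars p.1, p.2), b p.1 p.2) : Poly (V × Bool)) =
        if liftAsg ρ a (vars p.1, p.2) = b p.1 p.2 then (1 : ℝ) else 0 := by
      intro p
      rw [aeval_X]
      rfl
    rw [Finset.prod_congr rfl fun p _ => h1 p, Finset.prod_ite_zero]
    simp only [Finset.prod_const_one, Finset.mem_univ, forall_true_left]
    by_cases hA : ∀ j, b j (ρ (vars j)).1 = (ρ (vars j)).2
    · rw [if_pos hA, one_mul]
      refine if_congr ?_ rfl rfl
      rw [key a]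
      exact and_iff_right hA
    · rw [if_neg hA, zero_mul, if_neg]
      intro h
      exact hA ((key a).mp h).1

end

end Pool.Agent.Helper81_Sos
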