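import Mathlib
import Pool.Agent.Helper81_Sos.Lift

/-!
The hard formulas.  For `i = 0, ..., k` the set of true elements of level `i` is required to have
exactly `k ^ 2 + 2 k` elements; the elements are the ordered pairs `(j, j')` with `x i j` true and
`x i j'` false and two copies of every true `x (i+1) j`.  The cardinality constraint is encoded by
a grid of gates `g + e = g' + e'`.
-/

namespace Pool.Agent.Helper81_Sos

open MvPolynomial Finset

/-- The number of labels. -/
abbrev KK (k : ℕ) : ℕ := k ^ 2 + 2 * k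

/-- The number of elements. -/
abbrev NN (k : ℕ) : ℕ := 2 * k * (2 * k) + 2 * k

/-- The base variables. -/
inductive BVar (k : ℕ) : Type
  /-- membership of `j` in the set of level `i` -/
  | x (i : Fin (k + 2)) (j : Fin (2 * k)) : BVar k
  /-- row wires of the grid -/
  | g (i : Fin (k + 1)) (u : Fin (NN k)) (s : Fin (KK k + 1)) : BVar k
  /-- column wires of the grid -/
  | e (i : Fin (k + 1)) (l : Fin (KK k)) (t : Fin (NN k + 1)) : BVar k

theorem BVar.finite (k : ℕ) : Finite (BVar k) := by
  refine Finite.of_injective (β := (Fin (k + 2) × Fin (2 * k)) ⊕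
      ((Fin (k + 1) × Fin (NN k) × Fin (KK k + 1)) ⊕
        (Fin (k + 1) × Fin (KK k) × Fin (NN k + 1)))) (fun v => match v with
      | BVar.x i j => Sum.inl (i, j)
      | BVar.g i u s => Sum.inr (Sum.inl (i, u, s))
      | BVar.e i l t => Sum.inr (Sum.inr (i, l, t))) ?_
  intro v w h
  cases v <;> cases w <;> simp_all

instance (k : ℕ) : Finite (BVar k) := BVar.finite k

noncomputable instance (k : ℕ) : Fintype (BVar k) := Fintype.ofFinite _

noncomputable instance (k : ℕ) : DecidableEq (BVar k) := Classical.decEq _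

/-- The elements: single elements and ordered pairs. -/
inductive El (k : ℕ) : Type
  /-- a copy of `x (i+1) j` -/
  | single (j : Fin (2 * k)) : El k
  /-- the pair `(j, j')` -/
  | pair (j j' : Fin (2 * k)) : El k

/-- The element described by a pair or a single index. -/
def elOf (k : ℕ) : (Fin (2 * k) × Fin (2 * k)) ⊕ Fin (2 * k) → El k
  | Sum.inl p => if p.1 = p.2 then El.single p.1 else El.pair p.1 p.2
  | Sum.inr j => El.single j

/-- Enumeration of the elements. -/
def uEquiv (k : ℕ) : (Fin (2 * k) × Fin (2 * k)) ⊕ Fin (2 * k) ≃ Fin (NN k) :=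
  (Equiv.sumCongr finProdFinEquiv (Equiv.refl _)).trans finSumFinEquiv

/-- The element with number `u`. -/
def el (k : ℕ) (u : Fin (NN k)) : El k := elOf k ((uEquiv k).symm u)

/-- The input constraint of element number `u`: the first row wire is true iff the element is. -/
def inpCon {k : ℕ} (i : Fin (k + 1)) (u : Fin (NN k)) : El k → Con (BVar k)
  | El.single j =>
    { r := 2
      vars := ![BVar.g i u 0, BVar.x i.succ j]
      ok := fun b => b 0 == b 1 }
  | El.pair j j' =>
    { r := 3
      vars := ![BVar.g i u 0, BVar.x i.castSucc j, BVar.x i.castSucc j']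
      ok := fun b => b 0 == (b 1 && !b 2) }

/-- Index set of the constraints. -/
inductive CIdx (k : ℕ) : Type
  /-- a gate -/
  | gate (i : Fin (k + 1)) (u : Fin (NN k)) (l : Fin (KK k)) : CIdx k
  /-- an input -/
  | inp (i : Fin (k + 1)) (u : Fin (NN k)) : CIdx k
  /-- the first column wire is false -/
  | e0 (i : Fin (k + 1)) (l : Fin (KK k)) : CIdx k
  /-- the last row wire is false -/
  | gK (i : Fin (k + 1)) (u : Fin (NN k)) : CIdx k
  /-- the last column wire is true -/
  | eN (i : Fin (k + 1)) (l : Fin (KK k)) : CIdx k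
  /-- the set of level `0` consists of the first `k + 1` indices -/
  | x0 (j : Fin (2 * k)) : CIdx k
  /-- the set of level `k + 1` consists of the first `k` indices -/
  | x1 (j : Fin (2 * k)) : CIdx k

theorem CIdx.finite (k : ℕ) : Finite (CIdx k) := by
  refine Finite.of_injective (β := (Fin (k + 1) × Fin (NN k) × Fin (KK k)) ⊕
      ((Fin (k + 1) × Fin (NN k)) ⊕ ((Fin (k + 1) × Fin (KK k)) ⊕ ((Fin (k + 1) × Fin (NN k)) ⊕
      ((Fin (k + 1) × Fin (KK k)) ⊕ (Fin (2 * k) ⊕ Fin (2 * k))))))) (fun v => match v with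
      | CIdx.gate i u l => Sum.inl (i, u, l)
      | CIdx.inp i u => Sum.inr (Sum.inl (i, u))
      | CIdx.e0 i l => Sum.inr (Sum.inr (Sum.inl (i, l)))
      | CIdx.gK i u => Sum.inr (Sum.inr (Sum.inr (Sum.inl (i, u))))
      | CIdx.eN i l => Sum.inr (Sum.inr (Sum.inr (Sum.inr (Sum.inl (i, l)))))
      | CIdx.x0 j => Sum.inr (Sum.inr (Sum.inr (Sum.inr (Sum.inr (Sum.inl j)))))
      | CIdx.x1 j => Sum.inr (Sum.inr (Sum.inr (Sum.inr (Sum.inr (Sum.inr j)))))) ?_
  intro v w h
  cases v <;> cases w <;> simp_all

instance (k : ℕ) : Finite (CIdx k) := CIdx.finite k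

noncomputable instance (k : ℕ) : Fintype (CIdx k) := Fintype.ofFinite _

/-- The constraints. -/
def con (k : ℕ) : CIdx k → Con (BVar k)
  | CIdx.gate i u l =>
    { r := 4
      vars := ![BVar.g i u l.castSucc, BVar.e i l u.castSucc, BVar.g i u l.succ,
        BVar.e i l u.succ]
      ok := fun b => (b 0).toNat + (b 1).toNat == (b 2).toNat + (b 3).toNat }
  | CIdx.inp i u => inpCon i u (el k u)
  | CIdx.e0 i l => { r := 1, vars := ![BVar.e i l 0], ok := fun b => !b 0 }
  | CIdx.gK i u => { r := 1, vars := ![BVar.g i u (Fin.last _)], ok := fun b => !b 0 }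
  | CIdx.eN i l => { r := 1, vars := ![BVar.e i l (Fin.last _)], ok := fun b => b 0 }
  | CIdx.x0 j => { r := 1, vars := ![BVar.x 0 j], ok := fun b => b 0 == decide (j.val < k + 1) }
  | CIdx.x1 j =>
    { r := 1, vars := ![BVar.x (Fin.last _) j], ok := fun b => b 0 == decide (j.val < k) }

/-- The hard CNF. -/
noncomputable def hardCNF (k : ℕ) : CNF (BVar k × Bool) := liftCNF (con k)

theorem elOf_pair_ne {k : ℕ} {p : (Fin (2 * k) × Fin (2 * k)) ⊕ Fin (2 * k)} {j j' : Fin (2 * k)}
    (h : elOf k p = El.pair j j') : j ≠ j' := by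
  rcases p with p | j0
  · dsimp only [elOf] at h
    split_ifs at h with h1
    injection h with h2 h3
    rw [← h2, ← h3]
    exact h1
  · unfold elOf at h
    exact absurd h (by simp)

theorem inj_two {α : Type} {a b : α} (h : a ≠ b) : Function.Injective ![a, b] := by
  intro i j hij
  fin_cases i <;> fin_cases j <;> simp_all

theorem inj_three {α : Type} {a b c : α} (h1 : a ≠ b) (h2 : a ≠ c) (h3 : b ≠ c) :
    Function.Injective ![a, b, c] := by
  intro i j hij
  fin_cases i <;> fin_cases j <;> simp_all

theorem inj_four {α : Type} {a b c d : α} (h1 : a ≠ b) (h2 : a ≠ c) (h3 : a ≠ d) (h4 : b ≠ c)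
    (h5 : b ≠ d) (h6 : c ≠ d) : Function.Injective ![a, b, c, d] := by
  intro i j hij
  fin_cases i <;> fin_cases j <;> simp_all

theorem inj_one {α : Type} (a : α) : Function.Injective ![a] := by
  intro i j _
  exact Subsingleton.elim i j

theorem con_inj (k : ℕ) (c : CIdx k) : Function.Injective (con k c).vars := by
  rcases c with ⟨i, u, l⟩ | ⟨i, u⟩ | ⟨i, l⟩ | ⟨i, u⟩ | ⟨i, l⟩ | ⟨j⟩ | ⟨j⟩
  · refine inj_four (by simp) ?_ (by simp) (by simp) ?_ (by simp)
    · intro h
      injection h with _ _ h3
      exact absurd h3 (Fin.castSucc_lt_succ).ne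
    · intro h
      injection h with _ _ h3
      exact absurd h3 (Fin.castSucc_lt_succ).ne
  · change Function.Injective (inpCon i u (el k u)).vars
    rcases h : el k u with j | ⟨j, j'⟩
    · exact inj_two (by simp)
    · refine inj_three (by simp) (by simp) ?_
      intro h2
      injection h2 with _ h3
      exact elOf_pair_ne h h3
  · exact inj_one _
  · exact inj_one _
  · exact inj_one _
  · exact inj_one _
  · exact inj_one _

end Pool.Agent.Helper81_Sos
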