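import Mathlib

/-!
Symmetric reduction for positivity: a symmetric matrix invariant under a finite group acting on
its index set is positive semidefinite as soon as its quadratic form is nonnegative on the vectors
that are fixed by the stabiliser of some index.
-/

namespace Pool.Agent.Helper81_Sos

open Finset Matrix

theorem sym_psd {𝒢 β : Type*} [Group 𝒢] [Fintype 𝒢] [MulAction 𝒢 β] [Fintype β] [DecidableEq β]
    (M : Matrix β β ℝ) (hM : M.IsHermitian) (hinv : ∀ (g : 𝒢) a b, M (g • a) (g • b) = M a b)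
    (h : ∀ (b0 : β) (w : β → ℝ), (∀ g : 𝒢, g • b0 = b0 → ∀ b, w (g • b) = w b) →
      0 ≤ w ⬝ᵥ (M *ᵥ w)) : M.PosSemidef := by
  classical
  rw [hM.posSemidef_iff_eigenvalues_nonneg]
  intro j
  set lam : ℝ := hM.eigenvalues j with hlam
  set v : β → ℝ := ⇑(hM.eigenvectorBasis j) with hv
  have hvM : M *ᵥ v = lam • v := hM.mulVec_eigenvectorBasis j
  have hvne : v ≠ 0 := by
    intro h0
    have h1 : hM.eigenvectorBasis j ≠ 0 := hM.eigenvectorBasis.orthonormal.ne_zero j
    apply h1
    ext b
    exact congrFun h0 b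
  obtain ⟨b0, hb0⟩ := Function.ne_iff.mp hvne
  set S : Finset 𝒢 := Finset.univ.filter fun g => g • b0 = b0 with hS
  set w : β → ℝ := fun b => ∑ g ∈ S, v (g • b) with hw
  have hwb0 : w b0 = S.card * v b0 := by
    change ∑ g ∈ S, v (g • b0) = _
    rw [Finset.sum_congr rfl (g := fun _ => v b0), Finset.sum_const, nsmul_eq_mul]
    intro g hg
    rw [(Finset.mem_filter.mp hg).2]
  have hSne : (S.card : ℝ) ≠ 0 := by
    have : (1 : 𝒢) ∈ S := by simp [hS]
    exact_mod_cast (Finset.card_pos.mpr ⟨1, this⟩).ne'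
  have hwne : w b0 ≠ 0 := by
    rw [hwb0]
    exact mul_ne_zero hSne hb0
  have hfix : ∀ g : 𝒢, g • b0 = b0 → ∀ b, w (g • b) = w b := by
    intro g hg b
    change ∑ g' ∈ S, v (g' • g • b) = ∑ g' ∈ S, v (g' • b)
    refine Finset.sum_bij' (fun g' _ => g' * g) (fun g' _ => g' * g⁻¹) ?_ ?_ ?_ ?_ ?_
    · intro g' hg'
      have := (Finset.mem_filter.mp hg').2
      simp only [hS, Finset.mem_filter, Finset.mem_univ, true_and, mul_smul, hg, this]
    · intro g' hg'
      have := (Finset.mem_filter.mp hg').2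
      simp only [hS, Finset.mem_filter, Finset.mem_univ, true_and, mul_smul]
      rw [inv_smul_eq_iff.mpr hg.symm, this]
    · intro g' _
      simp
    · intro g' _
      simp
    · intro g' _
      rw [mul_smul]
  have hwM : M *ᵥ w = lam • w := by
    funext a
    have h1 : ∀ g : 𝒢, ∑ b, M a b * v (g • b) = lam * v (g • a) := by
      intro g
      have h2 : ∑ b, M a b * v (g • b) = ∑ b, M (g • a) b * v b := by
        refine Fintype.sum_equiv (MulAction.toPerm g) _ _ fun b => ?_
        rw [MulAction.toPerm_apply, hinv]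
      rw [h2]
      have h3 := congrFun hvM (g • a)
      simpa [Matrix.mulVec, dotProduct] using h3
    change ∑ b, M a b * (∑ g ∈ S, v (g • b)) = lam * ∑ g ∈ S, v (g • a)
    simp only [Finset.mul_sum]
    rw [Finset.sum_comm]
    exact Finset.sum_congr rfl fun g _ => h1 g
  have h4 := h b0 w hfix
  rw [hwM, dotProduct_smul, smul_eq_mul] at h4
  have h5 : 0 < w ⬝ᵥ w := by
    have h6 : 0 < w b0 * w b0 := mul_self_pos.mpr hwne
    refine lt_of_lt_of_le h6 ?_
    exact Finset.single_le_sum (f := fun b => w b * w b) (fun b _ => mul_self_nonneg _)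
      (Finset.mem_univ b0)
  by_contra hneg
  have h7 : lam < 0 := lt_of_not_ge hneg
  nlinarith

theorem sym_form {𝒢 β : Type*} [Group 𝒢] [Fintype 𝒢] [MulAction 𝒢 β] [Fintype β]
    (M : β → β → ℝ) (hM : ∀ a b, M a b = M b a)
    (hinv : ∀ (g : 𝒢) a b, M (g • a) (g • b) = M a b) (ε : ℝ)
    (h : ∀ (b0 : β) (w : β → ℝ), (∀ g : 𝒢, g • b0 = b0 → ∀ b, w (g • b) = w b) →
      -ε * ∑ b, w b ^ 2 ≤ ∑ a, ∑ b, w a * w b * M a b) (c : β → ℝ) :
    -ε * ∑ b, c b ^ 2 ≤ ∑ a, ∑ b, c a * c b * M a b := by
  classical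
  set M' : Matrix β β ℝ := Matrix.of (fun a b => M a b + if a = b then ε else 0) with hM'
  have hform : ∀ w : β → ℝ, w ⬝ᵥ (M' *ᵥ w) =
      (∑ a, ∑ b, w a * w b * M a b) + ε * ∑ b, w b ^ 2 := by
    intro w
    simp only [hM', dotProduct, Matrix.mulVec, Matrix.of_apply, Finset.mul_sum]
    rw [← Finset.sum_add_distrib]
    refine Finset.sum_congr rfl fun a _ => ?_
    have : ∀ b, w a * ((M a b + if a = b then ε else 0) * w b) =
        w a * w b * M a b + if a = b then ε * w a ^ 2 else 0 := by
      intro b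
      split_ifs with hab
      · subst hab
        ring
      · ring
    simp only [this, Finset.sum_add_distrib]
    simp
  have hherm : M'.IsHermitian := by
    ext a b
    simp only [hM', Matrix.conjTranspose_apply, Matrix.of_apply, star_trivial]
    rw [hM b a]
    by_cases hab : a = b
    · subst hab; rfl
    · rw [if_neg hab, if_neg (Ne.symm hab)]
  have hpsd : M'.PosSemidef := by
    refine sym_psd (𝒢 := 𝒢) M' hherm ?_ ?_
    · intro g a b
      simp only [hM', Matrix.of_apply, hinv]
      simp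
    · intro b0 w hw
      rw [hform]
      have := h b0 w hw
      linarith
  have := hpsd.dotProduct_mulVec_nonneg c
  rw [star_trivial, hform] at this
  linarith

end Pool.Agent.Helper81_Sos
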