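import Mathlib
import Pool.Agent.Helper81_Sos.Sym

/-!
The one-level knapsack functional: uniform random `t`-subsets of `Fin m`, extrapolated from
`t = 0, ..., k` to a real number `a` by Lagrange interpolation.
-/

namespace Pool.Agent.Helper81_Sos

open Finset Polynomial

/-- The falling factorial `r (r - 1) ... (r - n + 1)`. -/
noncomputable def ff (r : ℝ) (n : ℕ) : ℝ := (descPochhammer ℝ n).eval r

theorem ff_nat (t n : ℕ) : ff t n = (t.descFactorial n : ℝ) :=
  descPochhammer_eval_eq_descFactorial ℝ t n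

theorem ff_zero (r : ℝ) : ff r 0 = 1 := by simp [ff]

theorem ff_add (r : ℝ) (n m : ℕ) : ff r (n + m) = ff r n * ff (r - n) m := by
  unfold ff
  rw [← descPochhammer_mul, eval_mul, eval_comp]
  simp

theorem ff_nat_pos {t n : ℕ} (h : n ≤ t) : 0 < ff t n := by
  rw [ff_nat]
  exact_mod_cast Nat.descFactorial_pos.mpr h

theorem ff_sub_nat {m t : ℕ} (h : t ≤ m) (n : ℕ) : ff ((m : ℝ) - t) n = ((m - t).descFactorial n : ℝ) := by
  rw [← Nat.cast_sub h, ff_nat]

/-- Lagrange weights for the nodes `0, ..., k` and the point `a`. -/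
noncomputable def lw (k : ℕ) (a : ℝ) (t : ℕ) : ℝ :=
  (Lagrange.basis (range (k + 1)) (fun i : ℕ => (i : ℝ)) t).eval a

theorem lw_sum (k : ℕ) (a : ℝ) (R : ℝ[X]) (hR : R.natDegree ≤ k) :
    ∑ t ∈ range (k + 1), lw k a t * R.eval (t : ℝ) = R.eval a := by
  have hinj : Set.InjOn (fun i : ℕ => (i : ℝ)) (range (k + 1) : Finset ℕ) :=
    fun x _ y _ h => Nat.cast_injective (R := ℝ) h
  have hdeg : R.degree < ((range (k + 1)).card : WithBot ℕ) := by
    rw [Finset.card_range]
    refine lt_of_le_of_lt Polynomial.degree_le_natDegree ?_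
    exact_mod_cast Nat.lt_succ_of_le hR
  have h := Lagrange.eq_interpolate (f := R) hinj hdeg
  rw [Lagrange.interpolate_apply] at h
  conv_rhs => rw [h]
  rw [eval_finsetSum]
  refine Finset.sum_congr rfl fun t _ => ?_
  rw [eval_mul, eval_C, lw]
  ring

/-- Average over the `t`-subsets of `Fin m`. -/
noncomputable def ua (m t : ℕ) (f : Finset (Fin m) → ℝ) : ℝ :=
  (∑ s ∈ powersetCard t univ, f s) / (m.choose t)

theorem card_pattern {m t : ℕ} (A B : Finset (Fin m)) (hAB : Disjoint A B) (ht : A.card ≤ t) :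
    ((powersetCard t (univ : Finset (Fin m))).filter fun s => A ⊆ s ∧ Disjoint s B).card =
      (m - (A.card + B.card)).choose (t - A.card) := by
  have h1 : (univ \ (A ∪ B) : Finset (Fin m)).card = m - (A.card + B.card) := by
    rw [Finset.card_sdiff_of_subset (Finset.subset_univ _), Finset.card_union_of_disjoint hAB]
    simp
  rw [← h1, ← Finset.card_powersetCard]
  refine Finset.card_nbij' (fun s => s \ A) (fun s => s ∪ A) ?_ ?_ ?_ ?_
  · intro s hs
    simp only [Finset.coe_filter, Finset.mem_powersetCard, Set.mem_ofPred_eq] at hs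
    obtain ⟨⟨-, hc⟩, hA, hB⟩ := hs
    simp only [Finset.mem_coe, Finset.mem_powersetCard]
    refine ⟨?_, ?_⟩
    · intro x hx
      rw [Finset.mem_sdiff] at hx
      rw [Finset.mem_sdiff, Finset.mem_union, not_or]
      exact ⟨Finset.mem_univ _, hx.2, fun h => Finset.disjoint_left.mp hB hx.1 h⟩
    · rw [Finset.card_sdiff_of_subset hA, hc]
  · intro s hs
    simp only [Finset.mem_coe, Finset.mem_powersetCard] at hs
    obtain ⟨hsub, hc⟩ := hs
    have hdis : Disjoint s A := Finset.disjoint_left.mpr fun x hx hxA =>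
      (Finset.mem_sdiff.mp (hsub hx)).2 (Finset.mem_union_left _ hxA)
    simp only [Finset.coe_filter, Finset.mem_powersetCard, Set.mem_ofPred_eq]
    refine ⟨⟨Finset.subset_univ _, ?_⟩, Finset.subset_union_right, ?_⟩
    · rw [Finset.card_union_of_disjoint hdis, hc]
      omega
    · rw [Finset.disjoint_union_left]
      exact ⟨Finset.disjoint_left.mpr fun x hx hxB =>
        (Finset.mem_sdiff.mp (hsub hx)).2 (Finset.mem_union_right _ hxB), hAB⟩
  · intro s hs
    simp only [Finset.coe_filter, Finset.mem_powersetCard, Set.mem_ofPred_eq] at hs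
    exact Finset.sdiff_union_of_subset hs.2.1
  · intro s hs
    simp only [Finset.mem_coe, Finset.mem_powersetCard] at hs
    have hdis : Disjoint s A := Finset.disjoint_left.mpr fun x hx hxA =>
      (Finset.mem_sdiff.mp (hs.1 hx)).2 (Finset.mem_union_left _ hxA)
    exact Finset.union_sdiff_cancel_right hdis

theorem choose_identity {m t a b : ℕ} (hat : a ≤ t) (htm : t ≤ m) (hab : a + b ≤ m) :
    (m - (a + b)).choose (t - a) * m.descFactorial (a + b) =
      m.choose t * (t.descFactorial a * (m - t).descFactorial b) := by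
  by_cases hb : b ≤ m - t
  · have h1 := Nat.choose_mul_factorial_mul_factorial (n := m - (a + b)) (k := t - a) (by omega)
    have h2 := Nat.factorial_mul_descFactorial (n := m) (k := a + b) hab
    have h3 := Nat.factorial_mul_descFactorial hat
    have h4 := Nat.factorial_mul_descFactorial hb
    have h5 := Nat.choose_mul_factorial_mul_factorial htm
    have h6 : m - (a + b) - (t - a) = m - t - b := by omega
    rw [h6] at h1
    have hpos : 0 < (t - a).factorial * (m - t - b).factorial :=
      Nat.mul_pos (Nat.factorial_pos _) (Nat.factorial_pos _)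
    refine Nat.eq_of_mul_eq_mul_right hpos ?_
    calc (m - (a + b)).choose (t - a) * m.descFactorial (a + b) *
          ((t - a).factorial * (m - t - b).factorial)
        = ((m - (a + b)).choose (t - a) * (t - a).factorial * (m - t - b).factorial) *
          m.descFactorial (a + b) := by ring
      _ = m.factorial := by rw [h1, h2]
      _ = m.choose t * t.factorial * (m - t).factorial := h5.symm
      _ = m.choose t * ((t - a).factorial * t.descFactorial a) *
          ((m - t - b).factorial * (m - t).descFactorial b) := by rw [h3, h4]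
      _ = _ := by ring
  · have h1 : (m - t).descFactorial b = 0 := Nat.descFactorial_eq_zero_iff_lt.mpr (by omega)
    have h2 : (m - (a + b)).choose (t - a) = 0 := Nat.choose_eq_zero_of_lt (by omega)
    rw [h1, h2]
    ring

theorem ua_pattern {m t : ℕ} (ht : t ≤ m) (A B : Finset (Fin m)) (hAB : Disjoint A B) :
    ua m t (fun s => if A ⊆ s ∧ Disjoint s B then 1 else 0) =
      ff t A.card * ff ((m : ℝ) - t) B.card / ff m (A.card + B.card) := by
  have hcard : A.card + B.card ≤ m := by
    rw [← Finset.card_union_of_disjoint hAB]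
    simpa using Finset.card_le_univ (A ∪ B)
  have hch : (0 : ℝ) < (m.choose t : ℝ) := by exact_mod_cast Nat.choose_pos ht
  have hffm : 0 < ff m (A.card + B.card) := ff_nat_pos hcard
  unfold ua
  rw [← Finset.sum_filter, Finset.sum_const, nsmul_eq_mul, mul_one]
  rw [div_eq_div_iff hch.ne' hffm.ne']
  rw [ff_nat m, ff_nat t, ff_sub_nat ht]
  by_cases hat : A.card ≤ t
  · rw [card_pattern A B hAB hat]
    have := choose_identity hat ht hcard
    have h2 : (((m - (A.card + B.card)).choose (t - A.card) * m.descFactorial (A.card + B.card) :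
      ℕ) : ℝ) = ((m.choose t * (t.descFactorial A.card * (m - t).descFactorial B.card) : ℕ) : ℝ) :=
      by rw [this]
    push_cast at h2
    rw [h2]
    ring
  · have h1 : t.descFactorial A.card = 0 := Nat.descFactorial_eq_zero_iff_lt.mpr (by omega)
    have h2 : ((powersetCard t (univ : Finset (Fin m))).filter
        fun s => A ⊆ s ∧ Disjoint s B) = ∅ := by
      rw [Finset.filter_eq_empty_iff]
      intro s hs h
      have := Finset.card_le_card h.1
      rw [(Finset.mem_powersetCard.mp hs).2] at this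
      omega
    rw [h1, h2]
    simp

/-- The extrapolated functional. -/
noncomputable def lam (m k : ℕ) (a : ℝ) (f : Finset (Fin m) → ℝ) : ℝ :=
  ∑ t ∈ range (k + 1), lw k a t * ua m t f

/-- Indicator of `J ⊆ s`. -/
noncomputable def xJ {m : ℕ} (J s : Finset (Fin m)) : ℝ := if J ⊆ s then 1 else 0

theorem xJ_mul {m : ℕ} (J J' s : Finset (Fin m)) : xJ J s * xJ J' s = xJ (J ∪ J') s := by
  unfold xJ
  by_cases h : J ⊆ s <;> by_cases h' : J' ⊆ s <;> simp [h, h', Finset.union_subset_iff]

theorem ua_xJ {m t : ℕ} (ht : t ≤ m) (J : Finset (Fin m)) :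
    ua m t (xJ J) = ff t J.card / ff m J.card := by
  have := ua_pattern ht J ∅ (Finset.disjoint_empty_right _)
  simp only [Finset.disjoint_empty_right, and_true, Finset.card_empty, ff_zero, mul_one,
    add_zero] at this
  exact this

theorem lam_xJ {m k : ℕ} (a : ℝ) (hkm : k ≤ m) (J : Finset (Fin m)) (hJ : J.card ≤ k) :
    lam m k a (xJ J) = ff a J.card / ff m J.card := by
  unfold lam
  have h1 : ∀ t ∈ range (k + 1), lw k a t * ua m t (xJ J) =
      (lw k a t * (descPochhammer ℝ J.card).eval (t : ℝ)) / ff m J.card := by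
    intro t ht
    rw [Finset.mem_range] at ht
    rw [ua_xJ (by omega), ff]
    ring
  rw [Finset.sum_congr rfl h1, ← Finset.sum_div, lw_sum]
  · rfl
  · rw [descPochhammer_natDegree]
    exact hJ

theorem lam_xJ_mul_card_sub {m k : ℕ} (a : ℝ) (hkm : k ≤ m) (J : Finset (Fin m))
    (hJ : J.card + 1 ≤ k) :
    lam m k a (fun s => xJ J s * ((s.card : ℝ) - a)) = 0 := by
  unfold lam
  have h1 : ∀ t ∈ range (k + 1), lw k a t * ua m t (fun s => xJ J s * ((s.card : ℝ) - a)) =
      (lw k a t * (descPochhammer ℝ J.card * (X - C a)).eval (t : ℝ)) / ff m J.card := by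
    intro t ht
    rw [Finset.mem_range] at ht
    have h2 : ua m t (fun s => xJ J s * ((s.card : ℝ) - a)) = ua m t (xJ J) * ((t : ℝ) - a) := by
      unfold ua
      rw [div_mul_eq_mul_div, Finset.sum_mul]
      congr 1
      refine Finset.sum_congr rfl fun s hs => ?_
      change xJ J s * ((s.card : ℝ) - a) = _
      rw [(Finset.mem_powersetCard.mp hs).2]
    rw [h2, ua_xJ (by omega), ff, eval_mul, eval_sub, eval_X, eval_C]
    ring
  rw [Finset.sum_congr rfl h1, ← Finset.sum_div, lw_sum]
  · simp
  · refine Polynomial.natDegree_mul_le.trans ?_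
    rw [descPochhammer_natDegree, natDegree_X_sub_C]
    exact hJ

theorem ff_nonneg {r : ℝ} {n : ℕ} (h : (n : ℝ) - 1 ≤ r) : 0 ≤ ff r n := descPochhammer_nonneg h

theorem ff_le_ff {r s : ℝ} (n : ℕ) (h : (n : ℝ) - 1 ≤ r) (hrs : r ≤ s) : ff r n ≤ ff s n := by
  induction n with
  | zero => simp [ff_zero]
  | succ n ih =>
    rw [ff_add, ff_add]
    have h1 : (n : ℝ) ≤ r := by push_cast at h; linarith
    have h3 : ∀ x : ℝ, ff x 1 = x := by intro x; simp [ff]
    rw [h3, h3]
    have h2 : 0 ≤ ff s n := ff_nonneg (by linarith)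
    exact mul_le_mul (ih (by linarith)) (by linarith) (by linarith) h2

theorem lam_xJ_bounds {m k : ℕ} {a : ℝ} (hkm : k ≤ m) (hak : (k : ℝ) ≤ a) (ham : a ≤ m)
    (J : Finset (Fin m)) (hJ : J.card ≤ k) :
    0 ≤ lam m k a (xJ J) ∧ lam m k a (xJ J) ≤ 1 := by
  rw [lam_xJ a hkm J hJ]
  have h1 : (J.card : ℝ) ≤ k := by exact_mod_cast hJ
  have h2 : 0 < ff m J.card := ff_nat_pos (hJ.trans hkm)
  refine ⟨div_nonneg (ff_nonneg (by linarith)) h2.le, ?_⟩
  rw [div_le_one h2]
  exact ff_le_ff _ (by linarith) ham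

end Pool.Agent.Helper81_Sos
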