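import Mathlib
import Pool.Agent.Helper81_Sos.Knapsack

/-!
Positivity of the one-level knapsack functional on squares of low-degree functions.
-/

namespace Pool.Agent.Helper81_Sos

open Finset Polynomial

/-- The action of a group on the finite sets with at most `d` elements. -/
@[reducible] def cardAct (𝒢 α : Type*) [Group 𝒢] [MulAction 𝒢 α] [DecidableEq α] (d : ℕ) :
    MulAction 𝒢 {A : Finset α // A.card ≤ d} where
  smul g A := ⟨A.1.image (fun x => g • x), Finset.card_image_le.trans A.2⟩
  one_smul A := by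
    apply Subtype.ext
    change A.1.image (fun x => (1 : 𝒢) • x) = A.1
    simp
  mul_smul g h A := by
    apply Subtype.ext
    change A.1.image (fun x => (g * h) • x) = (A.1.image (fun x => h • x)).image (fun x => g • x)
    rw [Finset.image_image]
    refine Finset.image_congr fun x _ => ?_
    exact mul_smul g h x

theorem ua_sum {ι : Type*} (m t : ℕ) (S : Finset ι) (f : ι → Finset (Fin m) → ℝ) :
    ua m t (fun s => ∑ i ∈ S, f i s) = ∑ i ∈ S, ua m t (f i) := by
  unfold ua
  rw [Finset.sum_comm, Finset.sum_div]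

theorem ua_smul (m t : ℕ) (c : ℝ) (f : Finset (Fin m) → ℝ) :
    ua m t (fun s => c * f s) = c * ua m t f := by
  unfold ua
  rw [← Finset.mul_sum, mul_div_assoc]

theorem ua_congr {m t : ℕ} {f g : Finset (Fin m) → ℝ} (h : ∀ s, s.card = t → f s = g s) :
    ua m t f = ua m t g := by
  unfold ua
  rw [Finset.sum_congr rfl fun s hs => h s (Finset.mem_powersetCard.mp hs).2]

theorem lam_sum {ι : Type*} (m k : ℕ) (a : ℝ) (S : Finset ι) (f : ι → Finset (Fin m) → ℝ) :
    lam m k a (fun s => ∑ i ∈ S, f i s) = ∑ i ∈ S, lam m k a (f i) := by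
  unfold lam
  simp only [ua_sum, Finset.mul_sum]
  exact Finset.sum_comm

theorem lam_smul (m k : ℕ) (a c : ℝ) (f : Finset (Fin m) → ℝ) :
    lam m k a (fun s => c * f s) = c * lam m k a f := by
  unfold lam
  simp only [ua_smul, Finset.mul_sum]
  exact Finset.sum_congr rfl fun t _ => by ring

/-- A function of finite sets invariant under moving one point outside of `J0` depends only on the
cardinality and the trace on `J0`. -/
theorem eq_of_swap_inv {m : ℕ} (J0 : Finset (Fin m)) (v : Finset (Fin m) → ℝ)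
    (hv : ∀ a b, a ∉ J0 → b ∉ J0 → ∀ s : Finset (Fin m), a ∈ s → b ∉ s →
      v (insert b (s.erase a)) = v s) :
    ∀ (n : ℕ) (s s' : Finset (Fin m)), (s \ s').card = n → s.card = s'.card →
      s ∩ J0 = s' ∩ J0 → v s = v s' := by
  intro n
  induction n with
  | zero =>
    intro s s' h1 h2 _
    have h3 : s ⊆ s' := Finset.sdiff_eq_empty_iff_subset.mp (Finset.card_eq_zero.mp h1)
    rw [Finset.eq_of_subset_of_card_le h3 h2.ge]
  | succ n ih =>
    intro s s' h1 h2 h3
    have h4 : (s' \ s).card = n + 1 := by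
      have e1 := Finset.card_sdiff_add_card_inter s s'
      have e2 := Finset.card_sdiff_add_card_inter s' s
      rw [Finset.inter_comm] at e2
      omega
    obtain ⟨a, ha⟩ := Finset.card_pos.mp (by rw [h1]; exact Nat.succ_pos n)
    obtain ⟨b, hb⟩ := Finset.card_pos.mp (by rw [h4]; exact Nat.succ_pos n)
    rw [Finset.mem_sdiff] at ha hb
    have haJ : a ∉ J0 := fun h => ha.2 (Finset.mem_inter.mp (h3 ▸ Finset.mem_inter.mpr ⟨ha.1, h⟩)).1
    have hbJ : b ∉ J0 := fun h =>
      hb.2 (Finset.mem_inter.mp (h3.symm ▸ Finset.mem_inter.mpr ⟨hb.1, h⟩)).1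
    have hab : a ≠ b := fun h => hb.2 (h ▸ ha.1)
    rw [← hv a b haJ hbJ s ha.1 hb.2]
    have hbe : b ∉ s.erase a := fun h => hb.2 (Finset.mem_of_mem_erase h)
    apply ih
    · have h5 : insert b (s.erase a) \ s' = (s \ s').erase a := by
        ext x
        simp only [Finset.mem_sdiff, Finset.mem_insert, Finset.mem_erase]
        constructor
        · rintro ⟨hx | hx, hx'⟩
          · exact absurd (hx ▸ hb.1) hx'
          · exact ⟨hx.1, hx.2, hx'⟩
        · rintro ⟨h6, h7, h8⟩
          exact ⟨Or.inr ⟨h6, h7⟩, h8⟩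
      rw [h5, Finset.card_erase_of_mem (Finset.mem_sdiff.mpr ha), h1]
      rfl
    · rw [Finset.card_insert_of_notMem hbe, Finset.card_erase_of_mem ha.1, ← h2]
      have : 0 < s.card := Finset.card_pos.mpr ⟨a, ha.1⟩
      omega
    · rw [← h3]
      ext x
      simp only [Finset.mem_inter, Finset.mem_insert, Finset.mem_erase]
      constructor
      · rintro ⟨hx | hx, hx'⟩
        · exact absurd (hx ▸ hx') hbJ
        · exact ⟨hx.2, hx'⟩
      · rintro ⟨hx, hx'⟩
        exact ⟨Or.inr ⟨fun h => haJ (h ▸ hx'), hx⟩, hx'⟩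

/-- Indicator of `s ∩ J0 = z`. -/
noncomputable def ind {m : ℕ} (J0 z s : Finset (Fin m)) : ℝ :=
  if z ⊆ s ∧ Disjoint s (J0 \ z) then 1 else 0

theorem ind_iff {m : ℕ} {J0 z s : Finset (Fin m)} (hz : z ⊆ J0) :
    (z ⊆ s ∧ Disjoint s (J0 \ z)) ↔ s ∩ J0 = z := by
  constructor
  · rintro ⟨h1, h2⟩
    ext x
    rw [Finset.mem_inter]
    constructor
    · rintro ⟨hx, hx'⟩
      by_contra hxz
      exact Finset.disjoint_left.mp h2 hx (Finset.mem_sdiff.mpr ⟨hx', hxz⟩)
    · intro hx
      exact ⟨h1 hx, hz hx⟩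
  · rintro rfl
    refine ⟨Finset.inter_subset_left, Finset.disjoint_left.mpr fun x hx hx' => ?_⟩
    rw [Finset.mem_sdiff, Finset.mem_inter] at hx'
    exact hx'.2 ⟨hx, hx'.1⟩

theorem sum_ind {m : ℕ} (J0 s : Finset (Fin m)) : ∑ z ∈ J0.powerset, ind J0 z s = 1 := by
  rw [Finset.sum_eq_single (s ∩ J0)]
  · unfold ind
    rw [if_pos ((ind_iff Finset.inter_subset_right).mpr rfl)]
  · intro z hz hne
    unfold ind
    rw [if_neg]
    intro h
    exact hne ((ind_iff (Finset.mem_powerset.mp hz)).mp h).symm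
  · intro h
    exact absurd (Finset.mem_powerset.mpr Finset.inter_subset_right) h

/-- The probability of trace `z`. -/
theorem ua_ind {m t : ℕ} (ht : t ≤ m) {J0 z : Finset (Fin m)} (hz : z ⊆ J0) :
    ua m t (ind J0 z) =
      ff t z.card * ff ((m : ℝ) - t) (J0 \ z).card / ff m J0.card := by
  have h1 : J0.card = z.card + (J0 \ z).card := by
    rw [Finset.card_sdiff_of_subset hz]
    have := Finset.card_le_card hz
    omega
  rw [h1]
  exact ua_pattern ht z (J0 \ z) Finset.disjoint_sdiff

theorem ua_xJ_ind {m t : ℕ} (ht : t ≤ m) {J0 z : Finset (Fin m)} (hz : z ⊆ J0)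
    (J : Finset (Fin m)) :
    ua m t (fun s => xJ J s * ind J0 z s) = ua m t (ind J0 z) *
      (if Disjoint J (J0 \ z) then
        ff ((t : ℝ) - z.card) (J \ J0).card / ff ((m : ℝ) - J0.card) (J \ J0).card else 0) := by
  have hJ0 : J0.card = z.card + (J0 \ z).card := by
    rw [Finset.card_sdiff_of_subset hz]
    have := Finset.card_le_card hz
    omega
  split_ifs with hd
  · have h1 : (fun s => xJ J s * ind J0 z s) =
        fun s => if J ∪ z ⊆ s ∧ Disjoint s (J0 \ z) then 1 else 0 := by
      funext s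
      unfold xJ ind
      by_cases h1 : J ⊆ s <;> by_cases h2 : z ⊆ s <;> by_cases h3 : Disjoint s (J0 \ z) <;>
        simp [h1, h2, h3, Finset.union_subset_iff]
    have h2 : Disjoint (J ∪ z) (J0 \ z) := by
      rw [Finset.disjoint_union_left]
      exact ⟨hd, Finset.disjoint_sdiff⟩
    have h3 : (J ∪ z).card = z.card + (J \ J0).card := by
      have h4 : J ∪ z = z ∪ (J \ J0) := by
        ext x
        simp only [Finset.mem_union, Finset.mem_sdiff]
        constructor
        · rintro (h | h)
          · by_cases hx : x ∈ z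
            · exact Or.inl hx
            · refine Or.inr ⟨h, fun hx0 => ?_⟩
              exact Finset.disjoint_left.mp hd h (Finset.mem_sdiff.mpr ⟨hx0, hx⟩)
          · exact Or.inl h
        · rintro (h | h)
          · exact Or.inr h
          · exact Or.inl h.1
      rw [h4, Finset.card_union_of_disjoint]
      exact Finset.disjoint_left.mpr fun x hx hx' => (Finset.mem_sdiff.mp hx').2 (hz hx)
    rw [h1, ua_pattern ht _ _ h2, ua_ind ht hz, h3]
    have h5 : z.card + (J \ J0).card + (J0 \ z).card = J0.card + (J \ J0).card := by omega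
    rw [h5, ff_add, ff_add]
    have hc : J0.card + (J \ J0).card ≤ m := by
      rw [← Finset.card_union_of_disjoint Finset.disjoint_sdiff]
      simpa using Finset.card_le_univ (J0 ∪ J \ J0)
    have h6 : 0 < ff m J0.card := ff_nat_pos (by omega)
    have h7 : 0 < ff ((m : ℝ) - J0.card) (J \ J0).card := by
      rw [← Nat.cast_sub (by omega : J0.card ≤ m)]
      exact ff_nat_pos (by omega)
    field_simp
  · rw [mul_zero]
    have h1 : (fun s => xJ J s * ind J0 z s) = fun _ => 0 := by
      funext s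
      unfold xJ ind
      by_cases h1 : J ⊆ s
      · have h3 : ¬ Disjoint s (J0 \ z) := fun h => hd (Finset.disjoint_of_subset_left h1 h)
        simp [h3]
      · simp [h1]
    rw [h1]
    simp [ua]

/-- The value of a symmetric function on sets of size `t` with trace `z`, as a polynomial. -/
noncomputable def Pz {m d : ℕ} (J0 z : Finset (Fin m))
    (w : {J : Finset (Fin m) // J.card ≤ d} → ℝ) : ℝ[X] :=
  ∑ J : {J : Finset (Fin m) // J.card ≤ d},
    C (w J * (if Disjoint J.1 (J0 \ z) then (ff ((m : ℝ) - J0.card) (J.1 \ J0).card)⁻¹ else 0)) *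
      (descPochhammer ℝ (J.1 \ J0).card).comp (X - C (z.card : ℝ))

theorem Pz_natDegree {m d : ℕ} (J0 z : Finset (Fin m))
    (w : {J : Finset (Fin m) // J.card ≤ d} → ℝ) : (Pz J0 z w).natDegree ≤ d := by
  unfold Pz
  refine Polynomial.natDegree_sum_le_of_forall_le _ _ fun J _ => ?_
  refine Polynomial.natDegree_C_mul_le _ _ |>.trans ?_
  refine Polynomial.natDegree_comp_le.trans ?_
  rw [descPochhammer_natDegree, natDegree_X_sub_C, mul_one]
  exact (Finset.card_le_card Finset.sdiff_subset).trans J.2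

theorem ua_v_ind {m t d : ℕ} (ht : t ≤ m) {J0 z : Finset (Fin m)} (hz : z ⊆ J0)
    (w : {J : Finset (Fin m) // J.card ≤ d} → ℝ) :
    ua m t (fun s => (∑ J : {J : Finset (Fin m) // J.card ≤ d}, w J * xJ J.1 s) * ind J0 z s) =
      ua m t (ind J0 z) * (Pz J0 z w).eval (t : ℝ) := by
  have h1 : (fun s => (∑ J : {J : Finset (Fin m) // J.card ≤ d}, w J * xJ J.1 s) * ind J0 z s) =
      fun s => ∑ J : {J : Finset (Fin m) // J.card ≤ d}, w J * (xJ J.1 s * ind J0 z s) := by
    funext s
    rw [Finset.sum_mul]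
    exact Finset.sum_congr rfl fun J _ => by ring
  rw [h1, ua_sum]
  unfold Pz
  rw [eval_finsetSum, Finset.mul_sum]
  refine Finset.sum_congr rfl fun J _ => ?_
  rw [ua_smul, ua_xJ_ind ht hz, eval_mul, eval_C, eval_comp, eval_sub, eval_X, eval_C]
  unfold ff
  split_ifs
  · ring
  · ring

theorem ua_sq_ind {m t d : ℕ} (ht : t ≤ m) {J0 z : Finset (Fin m)} (hz : z ⊆ J0)
    (w : {J : Finset (Fin m) // J.card ≤ d} → ℝ)
    (hv : ∀ a b, a ∉ J0 → b ∉ J0 → ∀ s : Finset (Fin m), a ∈ s → b ∉ s →
      (∑ J : {J : Finset (Fin m) // J.card ≤ d}, w J * xJ J.1 (insert b (s.erase a))) =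
        ∑ J : {J : Finset (Fin m) // J.card ≤ d}, w J * xJ J.1 s) :
    ua m t (fun s => (∑ J : {J : Finset (Fin m) // J.card ≤ d}, w J * xJ J.1 s) ^ 2 *
      ind J0 z s) = ua m t (ind J0 z) * (Pz J0 z w).eval (t : ℝ) ^ 2 := by
  set v : Finset (Fin m) → ℝ := fun s => ∑ J : {J : Finset (Fin m) // J.card ≤ d}, w J * xJ J.1 s
    with hvdef
  by_cases hne : ∃ s0 : Finset (Fin m), s0.card = t ∧ z ⊆ s0 ∧ Disjoint s0 (J0 \ z)
  · obtain ⟨s0, hs0, hs1⟩ := hne
    have hconst : ∀ s : Finset (Fin m), s.card = t → (z ⊆ s ∧ Disjoint s (J0 \ z)) →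
        v s = v s0 := by
      intro s hs hs'
      refine eq_of_swap_inv J0 v hv _ s s0 rfl (hs.trans hs0.symm) ?_
      rw [(ind_iff hz).mp hs', (ind_iff hz).mp hs1]
    have h1 : ua m t (fun s => v s * ind J0 z s) = v s0 * ua m t (ind J0 z) := by
      rw [← ua_smul]
      refine ua_congr fun s hs => ?_
      unfold ind
      split_ifs with h
      · rw [hconst s hs h]
      · ring
    have h2 : ua m t (fun s => v s ^ 2 * ind J0 z s) = v s0 ^ 2 * ua m t (ind J0 z) := by
      rw [← ua_smul]
      refine ua_congr fun s hs => ?_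
      unfold ind
      split_ifs with h
      · rw [hconst s hs h]
      · ring
    have h3 : ua m t (ind J0 z) ≠ 0 := by
      have h4 : 0 < ua m t (ind J0 z) := by
        unfold ua
        refine div_pos ?_ (by exact_mod_cast Nat.choose_pos ht)
        refine lt_of_lt_of_le (b := ind J0 z s0) ?_ ?_
        · unfold ind
          rw [if_pos hs1]
          exact one_pos
        · refine Finset.single_le_sum (f := ind J0 z) (fun s _ => ?_) ?_
          · unfold ind
            split_ifs <;> norm_num
          · rw [Finset.mem_powersetCard]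
            exact ⟨Finset.subset_univ _, hs0⟩
      exact h4.ne'
    have h5 := ua_v_ind ht hz w
    rw [h1, mul_comm] at h5
    have h6 : v s0 = (Pz J0 z w).eval (t : ℝ) := mul_left_cancel₀ h3 h5
    rw [h2, h6]
    ring
  · have h0 : ∀ s : Finset (Fin m), s.card = t → ind J0 z s = 0 := by
      intro s hs
      unfold ind
      rw [if_neg]
      exact fun h => hne ⟨s, hs, h⟩
    have h1 : ua m t (ind J0 z) = 0 := by
      rw [ua_congr (g := fun _ => 0) h0]
      simp [ua]
    rw [h1, zero_mul]
    rw [ua_congr (g := fun _ => 0)]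
    · simp [ua]
    · intro s hs
      rw [h0 s hs, mul_zero]

/-- The functional is nonnegative on the square of a function that is symmetric outside `J0`. -/
theorem lam_sq_sym {m k d : ℕ} {a : ℝ} (hkm : 2 * k ≤ m) (hd : 3 * d ≤ k) (hak : (k : ℝ) ≤ a)
    (ham : a ≤ k + 1) (J0 : Finset (Fin m)) (hJ0 : J0.card ≤ d)
    (w : {J : Finset (Fin m) // J.card ≤ d} → ℝ)
    (hv : ∀ a b, a ∉ J0 → b ∉ J0 → ∀ s : Finset (Fin m), a ∈ s → b ∉ s →
      (∑ J : {J : Finset (Fin m) // J.card ≤ d}, w J * xJ J.1 (insert b (s.erase a))) =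
        ∑ J : {J : Finset (Fin m) // J.card ≤ d}, w J * xJ J.1 s) :
    0 ≤ lam m k a
      (fun s => (∑ J : {J : Finset (Fin m) // J.card ≤ d}, w J * xJ J.1 s) ^ 2) := by
  rcases Nat.eq_zero_or_pos d with hd0 | hdpos
  · -- constants
    subst hd0
    have h1 : ∀ s : Finset (Fin m), (∑ J : {J : Finset (Fin m) // J.card ≤ 0}, w J * xJ J.1 s) ^ 2
        = (∑ J : {J : Finset (Fin m) // J.card ≤ 0}, w J) ^ 2 * xJ ∅ s := by
      intro s
      have : ∀ J : {J : Finset (Fin m) // J.card ≤ 0}, xJ J.1 s = 1 := by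
        intro J
        have : J.1 = ∅ := Finset.card_eq_zero.mp (Nat.le_zero.mp J.2)
        simp [xJ, this]
      rw [Finset.sum_congr rfl fun J _ => by rw [this J, mul_one]]
      simp [xJ]
    have h2 : lam m k a
      (fun s => (∑ J : {J : Finset (Fin m) // J.card ≤ 0}, w J * xJ J.1 s) ^ 2) =
        (∑ J : {J : Finset (Fin m) // J.card ≤ 0}, w J) ^ 2 * lam m k a (xJ ∅) := by
      unfold lam
      rw [Finset.mul_sum]
      refine Finset.sum_congr rfl fun t _ => ?_
      rw [show (fun s => (∑ J : {J : Finset (Fin m) // J.card ≤ 0}, w J * xJ J.1 s) ^ 2) =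
        fun s => (∑ J : {J : Finset (Fin m) // J.card ≤ 0}, w J) ^ 2 * xJ ∅ s from funext h1]
      rw [ua_smul]
      ring
    rw [h2, lam_xJ a (by omega) ∅ (by simp)]
    simp only [Finset.card_empty, ff_zero]
    positivity
  have hk3 : 3 ≤ k := by omega
  have hk3' : (3 : ℝ) ≤ k := by exact_mod_cast hk3
  have hJ0k : J0.card ≤ k := by omega
  have h1 : ∀ t ∈ range (k + 1), lw k a t * ua m t
      (fun s => (∑ J : {J : Finset (Fin m) // J.card ≤ d}, w J * xJ J.1 s) ^ 2) =
      ∑ z ∈ J0.powerset, lw k a t * (C (ff m J0.card)⁻¹ * (descPochhammer ℝ z.card *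
        (descPochhammer ℝ (J0 \ z).card).comp (C (m : ℝ) - X)) * (Pz J0 z w) ^ 2).eval (t : ℝ) := by
    intro t ht
    rw [Finset.mem_range] at ht
    have htm : t ≤ m := by omega
    rw [← Finset.mul_sum]
    congr 1
    have h2 : ua m t (fun s => (∑ J : {J : Finset (Fin m) // J.card ≤ d}, w J * xJ J.1 s) ^ 2) =
        ua m t (fun s => ∑ z ∈ J0.powerset,
          (∑ J : {J : Finset (Fin m) // J.card ≤ d}, w J * xJ J.1 s) ^ 2 * ind J0 z s) := by
      refine ua_congr fun s _ => ?_
      rw [← Finset.mul_sum, sum_ind, mul_one]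
    rw [h2, ua_sum]
    refine Finset.sum_congr rfl fun z hz => ?_
    rw [Finset.mem_powerset] at hz
    rw [ua_sq_ind htm hz w hv, ua_ind htm hz]
    simp only [eval_mul, eval_C, eval_pow, eval_comp, eval_sub, eval_X]
    unfold ff
    ring
  unfold lam
  rw [Finset.sum_congr rfl h1, Finset.sum_comm]
  refine Finset.sum_nonneg fun z hz => ?_
  rw [Finset.mem_powerset] at hz
  have hz1 : z.card ≤ d := (Finset.card_le_card hz).trans hJ0
  have hz2 : (J0 \ z).card ≤ d := (Finset.card_le_card Finset.sdiff_subset).trans hJ0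
  have hz3 : z.card + (J0 \ z).card ≤ d := by
    rw [Finset.card_sdiff_of_subset hz]
    have := Finset.card_le_card hz
    omega
  rw [lw_sum]
  · simp only [eval_mul, eval_C, eval_pow, eval_comp, eval_sub, eval_X]
    have e1 : 0 < ff m J0.card := ff_nat_pos (by omega)
    have hz1' : (z.card : ℝ) ≤ d := by exact_mod_cast hz1
    have hz2' : ((J0 \ z).card : ℝ) ≤ d := by exact_mod_cast hz2
    have hd' : (3 : ℝ) * d ≤ k := by exact_mod_cast hd
    have hd'' : (1 : ℝ) ≤ d := by exact_mod_cast hdpos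
    have hm' : (2 : ℝ) * k ≤ m := by exact_mod_cast hkm
    have e2 : 0 ≤ (descPochhammer ℝ z.card).eval a := descPochhammer_nonneg (by linarith)
    have e3 : 0 ≤ (descPochhammer ℝ (J0 \ z).card).eval ((m : ℝ) - a) :=
      descPochhammer_nonneg (by linarith)
    positivity
  · refine Polynomial.natDegree_mul_le.trans ?_
    have e1 := Polynomial.natDegree_C_mul_le (ff m J0.card)⁻¹ (descPochhammer ℝ z.card *
        (descPochhammer ℝ (J0 \ z).card).comp (C (m : ℝ) - X))
    have e2 : (descPochhammer ℝ z.card *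
        (descPochhammer ℝ (J0 \ z).card).comp (C (m : ℝ) - X)).natDegree ≤
          z.card + (J0 \ z).card := by
      refine Polynomial.natDegree_mul_le.trans ?_
      rw [descPochhammer_natDegree]
      refine Nat.add_le_add_left (Polynomial.natDegree_comp_le.trans ?_) _
      rw [descPochhammer_natDegree]
      have : (C (m : ℝ) - X : ℝ[X]).natDegree ≤ 1 := by
        refine (Polynomial.natDegree_sub_le _ _).trans ?_
        simp
      calc (J0 \ z).card * (C (m : ℝ) - X : ℝ[X]).natDegree ≤ (J0 \ z).card * 1 :=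
            Nat.mul_le_mul_left _ this
        _ = _ := mul_one _
    have e3 : ((Pz J0 z w) ^ 2).natDegree ≤ 2 * d :=
      Polynomial.natDegree_pow_le.trans (Nat.mul_le_mul_left 2 (Pz_natDegree J0 z w))
    omega

/-- Positivity of the knapsack functional on squares of degree at most `k / 3`. -/
theorem lam_psd {m k d : ℕ} {a : ℝ} (hkm : 2 * k ≤ m) (hd : 3 * d ≤ k) (hak : (k : ℝ) ≤ a)
    (ham : a ≤ k + 1) (c : {J : Finset (Fin m) // J.card ≤ d} → ℝ) :
    0 ≤ ∑ A, ∑ B, c A * c B * lam m k a (xJ (A.1 ∪ B.1)) := by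
  let _ := cardAct (Equiv.Perm (Fin m)) (Fin m) d
  have hform : ∀ w : {J : Finset (Fin m) // J.card ≤ d} → ℝ,
      ∑ A, ∑ B, w A * w B * lam m k a (xJ (A.1 ∪ B.1)) =
        lam m k a (fun s => (∑ J : {J : Finset (Fin m) // J.card ≤ d}, w J * xJ J.1 s) ^ 2) := by
    intro w
    have h1 : (fun s => (∑ J : {J : Finset (Fin m) // J.card ≤ d}, w J * xJ J.1 s) ^ 2) =
        fun s => ∑ A : {J : Finset (Fin m) // J.card ≤ d},
          ∑ B : {J : Finset (Fin m) // J.card ≤ d}, w A * w B * xJ (A.1 ∪ B.1) s := by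
      funext s
      rw [sq, Finset.sum_mul_sum]
      refine Finset.sum_congr rfl fun A _ => Finset.sum_congr rfl fun B _ => ?_
      rw [← xJ_mul]
      ring
    rw [h1, lam_sum]
    refine Finset.sum_congr rfl fun A _ => ?_
    rw [lam_sum]
    refine Finset.sum_congr rfl fun B _ => ?_
    rw [lam_smul]
  have key := sym_form (𝒢 := Equiv.Perm (Fin m)) (β := {J : Finset (Fin m) // J.card ≤ d})
    (fun A B => lam m k a (xJ (A.1 ∪ B.1))) ?_ ?_ 0 ?_ c
  · rw [neg_zero, zero_mul] at key
    exact key
  · intro A B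
    change lam m k a (xJ (A.1 ∪ B.1)) = lam m k a (xJ (B.1 ∪ A.1))
    rw [Finset.union_comm]
  · intro g A B
    change lam m k a (xJ (A.1.image (fun x => g • x) ∪ B.1.image (fun x => g • x))) =
      lam m k a (xJ (A.1 ∪ B.1))
    rw [← Finset.image_union]
    have h2 : ((A.1 ∪ B.1).image (fun x => g • x)).card = (A.1 ∪ B.1).card :=
      Finset.card_image_of_injective _ (MulAction.injective g)
    have h3 : (A.1 ∪ B.1).card ≤ k := by
      have := Finset.card_union_le A.1 B.1
      have := A.2
      have := B.2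
      omega
    rw [lam_xJ a (by omega) _ (by rw [h2]; exact h3), lam_xJ a (by omega) _ h3, h2]
  · intro b0 w hw
    rw [neg_zero, zero_mul, hform]
    refine lam_sq_sym hkm hd hak ham b0.1 b0.2 w ?_
    intro x y hx hy s hxs hys
    have hxy : x ≠ y := fun h => hys (h ▸ hxs)
    have hfix : Equiv.swap x y • b0 = b0 := by
      apply Subtype.ext
      change b0.1.image (fun z => Equiv.swap x y • z) = b0.1
      conv_rhs => rw [← Finset.image_id (s := b0.1)]
      refine Finset.image_congr fun z hz => ?_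
      change Equiv.swap x y z = z
      refine Equiv.swap_apply_of_ne_of_ne ?_ ?_
      · rintro rfl
        exact hx hz
      · rintro rfl
        exact hy hz
    have h4 := hw _ hfix
    have h5 : ∀ J : {J : Finset (Fin m) // J.card ≤ d},
        xJ (Equiv.swap x y • J).1 (insert y (s.erase x)) = xJ J.1 s := by
      intro J
      change xJ (J.1.image (fun z => Equiv.swap x y • z)) (insert y (s.erase x)) = xJ J.1 s
      have h6 : insert y (s.erase x) = s.image (fun z => Equiv.swap x y • z) := by
        ext z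
        simp only [Finset.mem_insert, Finset.mem_erase, Finset.mem_image, Equiv.Perm.smul_def]
        constructor
        · rintro (h | ⟨h7, h8⟩)
          · exact ⟨x, hxs, by rw [Equiv.swap_apply_left, h]⟩
          · refine ⟨z, h8, Equiv.swap_apply_of_ne_of_ne h7 ?_⟩
            rintro rfl
            exact hys h8
        · rintro ⟨u, hu, rfl⟩
          by_cases hux : u = x
          · left
            rw [hux, Equiv.swap_apply_left]
          · right
            have huy : u ≠ y := fun h => hys (h ▸ hu)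
            rw [Equiv.swap_apply_of_ne_of_ne hux huy]
            exact ⟨hux, hu⟩
      unfold xJ
      rw [h6]
      by_cases h7 : J.1 ⊆ s
      · rw [if_pos h7, if_pos (Finset.image_subset_image h7)]
      · rw [if_neg h7, if_neg]
        intro h8
        apply h7
        intro z hz
        have h9 := h8 (Finset.mem_image_of_mem (fun z => Equiv.swap x y • z) hz)
        obtain ⟨u, hu, hu'⟩ := Finset.mem_image.mp h9
        have : u = z := MulAction.injective (Equiv.swap x y) hu'
        exact this ▸ hu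
    rw [← Equiv.sum_comp (MulAction.toPerm (Equiv.swap x y) :
      Equiv.Perm {J : Finset (Fin m) // J.card ≤ d})]
    refine Finset.sum_congr rfl fun J _ => ?_
    rw [MulAction.toPerm_apply, h5, h4]

end Pool.Agent.Helper81_Sos
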