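import Mathlib

/-!
Calculus of low-degree representations: `Rep gen d C f` says that the function `f` is a linear
combination, with coefficients of total absolute value at most `C`, of products of at most `d`
of the functions `gen g`.
-/

namespace Pool.Agent.Helper81_Sos

set_option linter.unusedSectionVars false

open Finset

section

variable {G Ω : Type*} [Fintype G] [DecidableEq G]

/-- The product of the generators in `A`. -/
def mon (gen : G → Ω → ℝ) (A : Finset G) (ω : Ω) : ℝ := ∏ g ∈ A, gen g ω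

/-- `f` is a combination of products of at most `d` generators, of `l1`-norm at most `C`. -/
def Rep (gen : G → Ω → ℝ) (d : ℕ) (C : ℝ) (f : Ω → ℝ) : Prop :=
  ∃ c : Finset G → ℝ, (∀ A, d < A.card → c A = 0) ∧ ∑ A, |c A| ≤ C ∧
    ∀ ω, f ω = ∑ A, c A * mon gen A ω

variable {gen : G → Ω → ℝ}

theorem Rep.nonneg {d : ℕ} {C : ℝ} {f : Ω → ℝ} (h : Rep gen d C f) : 0 ≤ C := by
  obtain ⟨c, -, h2, -⟩ := h
  exact le_trans (Finset.sum_nonneg fun _ _ => abs_nonneg _) h2

theorem Rep.mono {d d' : ℕ} {C C' : ℝ} {f : Ω → ℝ} (h : Rep gen d C f) (hd : d ≤ d')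
    (hC : C ≤ C') : Rep gen d' C' f := by
  obtain ⟨c, h1, h2, h3⟩ := h
  exact ⟨c, fun A hA => h1 A (lt_of_le_of_lt hd hA), h2.trans hC, h3⟩

theorem Rep.congr {d : ℕ} {C : ℝ} {f g : Ω → ℝ} (h : Rep gen d C f) (hfg : ∀ ω, f ω = g ω) :
    Rep gen d C g := by
  have : f = g := funext hfg
  rwa [← this]

theorem rep_mon (A : Finset G) : Rep gen A.card 1 (mon gen A) := by
  classical
  refine ⟨Pi.single A 1, ?_, ?_, ?_⟩
  · intro B hB
    rw [Pi.single_eq_of_ne]
    rintro rfl
    exact lt_irrefl _ hB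
  · rw [Finset.sum_eq_single A]
    · simp
    · intro B _ hB
      rw [Pi.single_eq_of_ne hB]
      simp
    · simp
  · intro ω
    rw [Finset.sum_eq_single A]
    · simp
    · intro B _ hB
      rw [Pi.single_eq_of_ne hB]
      simp
    · simp

theorem rep_gen (g : G) : Rep gen 1 1 (gen g) := by
  have := rep_mon (gen := gen) {g}
  rw [Finset.card_singleton] at this
  exact this.congr fun ω => by simp [mon]

theorem Rep.smul {d : ℕ} {C : ℝ} {f : Ω → ℝ} (h : Rep gen d C f) (a : ℝ) :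
    Rep gen d (|a| * C) (fun ω => a * f ω) := by
  obtain ⟨c, h1, h2, h3⟩ := h
  refine ⟨fun A => a * c A, ?_, ?_, ?_⟩
  · intro A hA
    change a * c A = 0
    rw [h1 A hA, mul_zero]
  · simp only [abs_mul]
    rw [← Finset.mul_sum]
    exact mul_le_mul_of_nonneg_left h2 (abs_nonneg a)
  · intro ω
    change a * f ω = ∑ A, (a * c A) * mon gen A ω
    rw [h3 ω, Finset.mul_sum]
    exact Finset.sum_congr rfl fun A _ => by ring

theorem rep_const (a : ℝ) : Rep gen 0 |a| (fun _ => a) := by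
  have := (rep_mon (gen := gen) ∅).smul a
  rw [Finset.card_empty, mul_one] at this
  exact this.congr fun ω => by simp [mon]

theorem rep_zero (d : ℕ) : Rep gen d 0 (fun _ => 0) :=
  ((rep_const (gen := gen) 0).mono (Nat.zero_le d) (by simp))

theorem Rep.add {d : ℕ} {C C' : ℝ} {f g : Ω → ℝ} (hf : Rep gen d C f) (hg : Rep gen d C' g) :
    Rep gen d (C + C') (fun ω => f ω + g ω) := by
  obtain ⟨c, h1, h2, h3⟩ := hf
  obtain ⟨c', h1', h2', h3'⟩ := hg
  refine ⟨fun A => c A + c' A, ?_, ?_, ?_⟩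
  · intro A hA
    change c A + c' A = 0
    rw [h1 A hA, h1' A hA, add_zero]
  · calc ∑ A, |c A + c' A| ≤ ∑ A, (|c A| + |c' A|) :=
          Finset.sum_le_sum fun A _ => abs_add_le _ _
      _ = ∑ A, |c A| + ∑ A, |c' A| := Finset.sum_add_distrib
      _ ≤ C + C' := add_le_add h2 h2'
  · intro ω
    change f ω + g ω = ∑ A, (c A + c' A) * mon gen A ω
    rw [h3 ω, h3' ω, ← Finset.sum_add_distrib]
    exact Finset.sum_congr rfl fun A _ => by ring

theorem Rep.neg {d : ℕ} {C : ℝ} {f : Ω → ℝ} (hf : Rep gen d C f) :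
    Rep gen d C (fun ω => - f ω) := by
  have := hf.smul (-1)
  rw [abs_neg, abs_one, one_mul] at this
  exact this.congr fun ω => by ring

theorem Rep.sub {d : ℕ} {C C' : ℝ} {f g : Ω → ℝ} (hf : Rep gen d C f) (hg : Rep gen d C' g) :
    Rep gen d (C + C') (fun ω => f ω - g ω) :=
  (hf.add hg.neg).congr fun ω => by ring

theorem Rep.one_sub {d : ℕ} {C : ℝ} {f : Ω → ℝ} (hf : Rep gen d C f) :
    Rep gen d (1 + C) (fun ω => 1 - f ω) := by
  have h1 := ((rep_const (gen := gen) 1).mono (Nat.zero_le d) (le_of_eq abs_one))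
  exact h1.sub hf

theorem Rep.sum {ι : Type*} {d : ℕ} (s : Finset ι) (C : ι → ℝ) (f : ι → Ω → ℝ)
    (h : ∀ i ∈ s, Rep gen d (C i) (f i)) :
    Rep gen d (∑ i ∈ s, C i) (fun ω => ∑ i ∈ s, f i ω) := by
  classical
  induction s using Finset.induction_on with
  | empty => simpa using rep_zero (gen := gen) d
  | insert a s ha ih =>
    rw [Finset.sum_insert ha]
    have h1 := h a (Finset.mem_insert_self a s)
    have h2 := ih fun i hi => h i (Finset.mem_insert_of_mem hi)
    exact (h1.add h2).congr fun ω => by rw [Finset.sum_insert ha]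

theorem Rep.sum_const {ι : Type*} {d : ℕ} (s : Finset ι) (C : ℝ) (f : ι → Ω → ℝ)
    (h : ∀ i ∈ s, Rep gen d C (f i)) :
    Rep gen d (s.card * C) (fun ω => ∑ i ∈ s, f i ω) := by
  have := Rep.sum s (fun _ => C) f h
  rwa [Finset.sum_const, nsmul_eq_mul] at this

/-- Products of idempotent generators. -/
theorem mon_mul_mon (hid : ∀ g ω, gen g ω * gen g ω = gen g ω) (A B : Finset G) (ω : Ω) :
    mon gen A ω * mon gen B ω = mon gen (A ∪ B) ω := by
  unfold mon
  have h1 : ∏ g ∈ A ∪ B, gen g ω = (∏ g ∈ A \ B, gen g ω) * ∏ g ∈ B, gen g ω := by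
    rw [← Finset.prod_union Finset.sdiff_disjoint, Finset.sdiff_union_self_eq_union]
  have h2 : ∏ g ∈ A, gen g ω = (∏ g ∈ A \ B, gen g ω) * ∏ g ∈ A ∩ B, gen g ω := by
    rw [← Finset.prod_union (Finset.disjoint_left.mpr fun x hx hx' =>
      (Finset.mem_sdiff.mp hx).2 (Finset.mem_inter.mp hx').2), Finset.sdiff_union_inter]
  have h3 : ∏ g ∈ B, gen g ω = (∏ g ∈ A ∩ B, gen g ω) * ∏ g ∈ B \ A, gen g ω := by
    rw [← Finset.prod_union (Finset.disjoint_left.mpr fun x hx hx' =>
      (Finset.mem_sdiff.mp hx').2 (Finset.mem_inter.mp hx).1)]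
    congr 1
    rw [Finset.inter_comm, Finset.union_comm, Finset.sdiff_union_inter]
  have h4 : (∏ g ∈ A ∩ B, gen g ω) * (∏ g ∈ A ∩ B, gen g ω) = ∏ g ∈ A ∩ B, gen g ω := by
    rw [← Finset.prod_mul_distrib]
    exact Finset.prod_congr rfl fun g _ => hid g ω
  rw [h1, h2, h3]
  calc _ = (∏ g ∈ A \ B, gen g ω) * ((∏ g ∈ A ∩ B, gen g ω) * (∏ g ∈ A ∩ B, gen g ω)) *
        ∏ g ∈ B \ A, gen g ω := by ring
    _ = _ := by rw [h4]; ring

theorem Rep.mul (hid : ∀ g ω, gen g ω * gen g ω = gen g ω) {d d' : ℕ} {C C' : ℝ}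
    {f g : Ω → ℝ} (hf : Rep gen d C f) (hg : Rep gen d' C' g) :
    Rep gen (d + d') (C * C') (fun ω => f ω * g ω) := by
  classical
  have hC := hf.nonneg
  obtain ⟨c, h1, h2, h3⟩ := hf
  obtain ⟨c', h1', h2', h3'⟩ := hg
  refine ⟨fun D => ∑ A, ∑ B, if A ∪ B = D then c A * c' B else 0, ?_, ?_, ?_⟩
  · intro D hD
    refine Finset.sum_eq_zero fun A _ => Finset.sum_eq_zero fun B _ => ?_
    split_ifs with h
    · by_cases hA : d < A.card
      · rw [h1 A hA, zero_mul]
      · by_cases hB : d' < B.card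
        · rw [h1' B hB, mul_zero]
        · exfalso
          have := Finset.card_union_le A B
          rw [h] at this
          omega
    · rfl
  · calc ∑ D, |∑ A, ∑ B, if A ∪ B = D then c A * c' B else 0|
        ≤ ∑ D, ∑ A, ∑ B, if A ∪ B = D then |c A| * |c' B| else 0 := by
          refine Finset.sum_le_sum fun D _ => ?_
          refine (Finset.abs_sum_le_sum_abs _ _).trans (Finset.sum_le_sum fun A _ => ?_)
          refine (Finset.abs_sum_le_sum_abs _ _).trans (Finset.sum_le_sum fun B _ => ?_)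
          split_ifs
          · rw [abs_mul]
          · simp
      _ = ∑ A, ∑ B, |c A| * |c' B| := by
          rw [Finset.sum_comm]
          refine Finset.sum_congr rfl fun A _ => ?_
          rw [Finset.sum_comm]
          refine Finset.sum_congr rfl fun B _ => ?_
          simp
      _ = (∑ A, |c A|) * ∑ B, |c' B| := by
          rw [Finset.sum_mul_sum]
      _ ≤ C * C' := mul_le_mul h2 h2' (Finset.sum_nonneg fun _ _ => abs_nonneg _) hC
  · intro ω
    change f ω * g ω = ∑ D, (∑ A, ∑ B, if A ∪ B = D then c A * c' B else 0) * mon gen D ω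
    have key : ∀ A B : Finset G, c A * mon gen A ω * (c' B * mon gen B ω) =
        ∑ D, (if A ∪ B = D then c A * c' B else 0) * mon gen D ω := by
      intro A B
      rw [Finset.sum_eq_single (A ∪ B)]
      · rw [if_pos rfl, ← mon_mul_mon hid A B ω]
        ring
      · intro D _ hD
        rw [if_neg (Ne.symm hD), zero_mul]
      · simp
    rw [h3 ω, h3' ω, Finset.sum_mul_sum]
    simp only [key, Finset.sum_mul]
    calc _ = ∑ A, ∑ D, ∑ B, (if A ∪ B = D then c A * c' B else 0) * mon gen D ω :=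
          Finset.sum_congr rfl fun A _ => Finset.sum_comm
      _ = _ := Finset.sum_comm

theorem Rep.prod (hid : ∀ g ω, gen g ω * gen g ω = gen g ω) {ι : Type*} (s : Finset ι)
    (d : ι → ℕ) (C : ι → ℝ) (f : ι → Ω → ℝ) (h : ∀ i ∈ s, Rep gen (d i) (C i) (f i)) :
    Rep gen (∑ i ∈ s, d i) (∏ i ∈ s, C i) (fun ω => ∏ i ∈ s, f i ω) := by
  classical
  induction s using Finset.induction_on with
  | empty => simpa using rep_const (gen := gen) 1
  | insert a s ha ih =>
    rw [Finset.sum_insert ha, Finset.prod_insert ha]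
    have h1 := h a (Finset.mem_insert_self a s)
    have h2 := ih fun i hi => h i (Finset.mem_insert_of_mem hi)
    exact (h1.mul hid h2).congr fun ω => by rw [Finset.prod_insert ha]

theorem Rep.prod_const (hid : ∀ g ω, gen g ω * gen g ω = gen g ω) {ι : Type*} (s : Finset ι)
    (d : ℕ) (C : ℝ) (f : ι → Ω → ℝ) (h : ∀ i ∈ s, Rep gen d C (f i)) :
    Rep gen (s.card * d) (C ^ s.card) (fun ω => ∏ i ∈ s, f i ω) := by
  have := Rep.prod hid s (fun _ => d) (fun _ => C) f h
  rwa [Finset.sum_const, Finset.prod_const, smul_eq_mul] at this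

theorem Rep.sq (hid : ∀ g ω, gen g ω * gen g ω = gen g ω) {d : ℕ} {C : ℝ}
    {f : Ω → ℝ} (hf : Rep gen d C f) :
    Rep gen (2 * d) (C ^ 2) (fun ω => f ω ^ 2) := by
  have := hf.mul hid hf
  rw [← two_mul, ← pow_two] at this
  exact this.congr fun ω => by ring

/-- A linear functional which is small on the monomials is small on represented functions. -/
theorem Rep.abs_le (L : (Ω → ℝ) →ₗ[ℝ] ℝ) {d : ℕ} {C b : ℝ} {f : Ω → ℝ} (hf : Rep gen d C f)
    (hb : ∀ A : Finset G, A.card ≤ d → |L (mon gen A)| ≤ b) (hb0 : 0 ≤ b) :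
    |L f| ≤ C * b := by
  obtain ⟨c, h1, h2, h3⟩ := hf
  have : f = ∑ A, c A • mon gen A := by
    funext ω
    rw [h3 ω]
    simp
  rw [this, map_sum]
  calc |∑ A, L (c A • mon gen A)| ≤ ∑ A, |L (c A • mon gen A)| :=
        Finset.abs_sum_le_sum_abs _ _
    _ ≤ ∑ A, |c A| * b := by
        refine Finset.sum_le_sum fun A _ => ?_
        rw [map_smul, smul_eq_mul, abs_mul]
        by_cases hA : d < A.card
        · rw [h1 A hA, abs_zero, zero_mul, zero_mul]
        · exact mul_le_mul_of_nonneg_left (hb A (not_lt.mp hA)) (abs_nonneg _)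
    _ = (∑ A, |c A|) * b := by rw [Finset.sum_mul]
    _ ≤ C * b := mul_le_mul_of_nonneg_right h2 hb0

end

/-- Substitution. -/
theorem Rep.subst {G Ω G' Ω' : Type*} [Fintype G] [DecidableEq G] [Fintype G'] [DecidableEq G']
    {gen : G → Ω → ℝ} {gen' : G' → Ω' → ℝ} (hid : ∀ g ω, gen' g ω * gen' g ω = gen' g ω)
    (T : Ω' → Ω) {d d0 : ℕ} {C C0 : ℝ} {f : Ω → ℝ} (hf : Rep gen d C f) (hC0 : 1 ≤ C0)
    (h : ∀ g, Rep gen' d0 C0 (fun ω => gen g (T ω))) :
    Rep gen' (d * d0) (C * C0 ^ d) (fun ω => f (T ω)) := by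
  have hC := hf.nonneg
  obtain ⟨c, h1, h2, h3⟩ := hf
  have key : ∀ A : Finset G, Rep gen' (d * d0) (|c A| * C0 ^ d)
      (fun ω => c A * mon gen A (T ω)) := by
    intro A
    by_cases hA : d < A.card
    · rw [h1 A hA]
      refine (rep_zero (gen := gen') (d * d0)).mono le_rfl (by simp) |>.congr fun ω => by simp
    · have h4 := (Rep.prod_const hid A d0 C0 (fun g ω => gen g (T ω)) fun g _ => h g).smul (c A)
      refine (h4.mono (Nat.mul_le_mul_right _ (not_lt.mp hA)) ?_).congr fun ω => by simp [mon]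
      exact mul_le_mul_of_nonneg_left (pow_le_pow_right₀ hC0 (not_lt.mp hA)) (abs_nonneg _)
  have h5 := Rep.sum Finset.univ _ _ fun A _ => key A
  refine (h5.mono le_rfl ?_).congr fun ω => (h3 (T ω)).symm
  rw [← Finset.sum_mul]
  exact mul_le_mul_of_nonneg_right h2 (by positivity)

end Pool.Agent.Helper81_Sos
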