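import Mathlib
import Pool.Agent.Helper81_Sos.Knapsack
import Pool.Agent.Helper81_Sos.Rep

/-!
Random labellings: for every base point `x` and every constraint `i` the elements of the set
`W x i` (of size at most `K`) receive distinct random labels in `Fin K`.  Moments of the
incidence variables.
-/

namespace Pool.Agent.Helper81_Sos

set_option linter.unusedSectionVars false

open Finset

/-- Element sets `W x i` together with injections of these sets into the set of labels. -/
structure Frame (X I U : Type) (K : ℕ) where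
  /-- the set of elements -/
  W : X → I → Finset U
  /-- the injection -/
  emb : X → I → U → Fin K
  inj : ∀ x i, Set.InjOn (emb x i) (W x i)

/-- A permutation of the labels for every constraint. -/
abbrev Lab (I : Type) (K : ℕ) : Type := I → Equiv.Perm (Fin K)

section

variable {X I U : Type} [Fintype I] [DecidableEq I] [Fintype U] [DecidableEq U] {K : ℕ}
  (F : Frame X I U K)

/-- Incidence variable: element `u` has label `l` in constraint `i`. -/
noncomputable def bv (e : I × U × Fin K) (ω : X × Lab I K) : ℝ :=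
  if e.2.1 ∈ F.W ω.1 e.1 ∧ ω.2 e.1 (F.emb ω.1 e.1 e.2.1) = e.2.2 then 1 else 0

/-- Membership. -/
noncomputable def mu (p : I × U) (x : X) : ℝ := if p.2 ∈ F.W x p.1 then 1 else 0

/-- Product of memberships. -/
noncomputable def mm (M : Finset (I × U × Fin K)) (x : X) : ℝ := ∏ e ∈ M, mu F (e.1, e.2.1) x

/-- Averaging over the labellings. -/
noncomputable def av : (X × Lab I K → ℝ) →ₗ[ℝ] (X → ℝ) where
  toFun f x := (∑ σ, f (x, σ)) / Fintype.card (Lab I K)
  map_add' f g := by
    funext x
    simp only [Pi.add_apply]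
    rw [Finset.sum_add_distrib, add_div]
  map_smul' c f := by
    funext x
    simp only [Pi.smul_apply, smul_eq_mul, RingHom.id_apply]
    rw [← Finset.mul_sum, mul_div_assoc]

theorem av_apply (f : X × Lab I K → ℝ) (x : X) :
    av f x = (∑ σ, f (x, σ)) / Fintype.card (Lab I K) := rfl

theorem card_lab_pos : (0 : ℝ) < Fintype.card (Lab I K) := by
  exact_mod_cast Fintype.card_pos

theorem av_congr {f g : X × Lab I K → ℝ} {x : X} (h : ∀ σ, f (x, σ) = g (x, σ)) :
    av f x = av g x := by
  rw [av_apply, av_apply, Finset.sum_congr rfl fun σ _ => h σ]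

theorem av_eq_zero {f : X × Lab I K → ℝ} {x : X} (h : ∀ σ, f (x, σ) = 0) : av f x = 0 := by
  rw [av_apply, Finset.sum_eq_zero fun σ _ => h σ, zero_div]

theorem av_shift (τ : Lab I K) (f : X × Lab I K → ℝ) (x : X) :
    av (fun ω => f (ω.1, τ * ω.2)) x = av f x := by
  rw [av_apply, av_apply]
  congr 1
  exact Equiv.sum_comp (Equiv.mulLeft τ) (fun σ => f (x, σ))

theorem av_sum_apply {J : Type*} (S : Finset J) (f : J → X × Lab I K → ℝ) (x : X) :
    av (fun ω => ∑ j ∈ S, f j ω) x = ∑ j ∈ S, av (f j) x := by
  simp only [av_apply]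
  rw [Finset.sum_comm, Finset.sum_div]

theorem av_mul_left (g : X → ℝ) (f : X × Lab I K → ℝ) (x : X) :
    av (fun ω => g ω.1 * f ω) x = g x * av f x := by
  simp only [av_apply]
  rw [← Finset.mul_sum, mul_div_assoc]

theorem av_one (x : X) : av (fun _ : X × Lab I K => 1) x = 1 := by
  rw [av_apply]
  simp

theorem bv_idem (e : I × U × Fin K) (ω : X × Lab I K) : bv F e ω * bv F e ω = bv F e ω := by
  unfold bv
  split_ifs <;> simp

theorem bv_nonneg (e : I × U × Fin K) (ω : X × Lab I K) : 0 ≤ bv F e ω := by
  unfold bv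
  split_ifs <;> simp

theorem mon_bv (M : Finset (I × U × Fin K)) (ω : X × Lab I K) :
    mon (bv F) M ω = if ∀ e ∈ M, e.2.1 ∈ F.W ω.1 e.1 ∧ ω.2 e.1 (F.emb ω.1 e.1 e.2.1) = e.2.2
      then 1 else 0 := by
  unfold mon bv
  rw [Finset.prod_ite_zero]
  simp

theorem mm_eq (M : Finset (I × U × Fin K)) (x : X) :
    mm F M x = if ∀ e ∈ M, e.2.1 ∈ F.W x e.1 then 1 else 0 := by
  unfold mm mu
  rw [Finset.prod_ite_zero]
  simp

/-- No element has two labels and no label is used twice. -/
def IsMatch (M : Finset (I × U × Fin K)) : Prop :=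
  ∀ e ∈ M, ∀ e' ∈ M, e.1 = e'.1 → (e.2.1 = e'.2.1 ↔ e.2.2 = e'.2.2)

/-- The part of `M` in constraint `i`. -/
def lvl (M : Finset (I × U × Fin K)) (i : I) : Finset (I × U × Fin K) := M.filter fun e => e.1 = i

theorem mon_bv_eq_zero_of_not_match {M : Finset (I × U × Fin K)} (hM : ¬ IsMatch M)
    (ω : X × Lab I K) : mon (bv F) M ω = 0 := by
  rw [mon_bv, if_neg]
  intro h
  apply hM
  rintro ⟨i, u, l⟩ he ⟨i', u', l'⟩ he' hi
  obtain ⟨h1, h2⟩ := h _ he
  obtain ⟨h3, h4⟩ := h _ he'
  dsimp only at hi h1 h2 h3 h4 ⊢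
  subst hi
  constructor
  · rintro rfl
    rw [← h2, ← h4]
  · rintro rfl
    rw [← h4] at h2
    exact F.inj _ _ h1 h3 ((ω.2 i).injective h2)

theorem card_lvl_labels {M : Finset (I × U × Fin K)} (hM : IsMatch M) (i : I) :
    ((lvl M i).image fun e => e.2.2).card = (lvl M i).card := by
  apply Finset.card_image_of_injOn
  rintro ⟨i1, u1, l1⟩ g1 ⟨i2, u2, l2⟩ g2 h
  obtain ⟨h1, h1'⟩ := Finset.mem_filter.mp g1
  obtain ⟨h2, h2'⟩ := Finset.mem_filter.mp g2
  dsimp only at h h1' h2'
  clear g1 g2
  subst h1' h2' h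
  have := (hM _ h1 _ h2 rfl).mpr rfl
  dsimp only at this
  rw [this]

theorem card_lvl_elems {M : Finset (I × U × Fin K)} (hM : IsMatch M) (i : I) :
    ((lvl M i).image fun e => e.2.1).card = (lvl M i).card := by
  apply Finset.card_image_of_injOn
  rintro ⟨i1, u1, l1⟩ g1 ⟨i2, u2, l2⟩ g2 h
  obtain ⟨h1, h1'⟩ := Finset.mem_filter.mp g1
  obtain ⟨h2, h2'⟩ := Finset.mem_filter.mp g2
  dsimp only at h h1' h2'
  clear g1 g2
  subst h1' h2' h
  have := (hM _ h1 _ h2 rfl).mp rfl
  dsimp only at this
  rw [this]

theorem card_lvl_lt {M : Finset (I × U × Fin K)} (hM : IsMatch M) {i : I} {l : Fin K}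
    (hl : ∀ u, (i, u, l) ∉ M) : (lvl M i).card < K := by
  rw [← card_lvl_labels hM i]
  have h1 : ((lvl M i).image fun e => e.2.2) ⊂ (Finset.univ : Finset (Fin K)) := by
    rw [Finset.ssubset_univ_iff]
    intro h
    have h2 : l ∈ ((lvl M i).image fun e => e.2.2) := by
      rw [h]
      exact Finset.mem_univ l
    obtain ⟨⟨i', u', l'⟩, he, rfl⟩ := Finset.mem_image.mp h2
    obtain ⟨h3, h4⟩ := Finset.mem_filter.mp he
    dsimp only at h4 hl
    subst h4
    exact hl u' h3
  have := Finset.card_lt_card h1
  simpa using this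

/-- The swap of two labels at level `i`. -/
def swp (i : I) (l l' : Fin K) : Lab I K := Function.update 1 i (Equiv.swap l l')

/-- Swapping two labels that do not occur in `M` at level `i`. -/
theorem mon_bv_swap {M : Finset (I × U × Fin K)} {i : I} {l l' : Fin K}
    (hl : ∀ u, (i, u, l) ∉ M) (hl' : ∀ u, (i, u, l') ∉ M) (x : X) (σ : Lab I K) :
    mon (bv F) M (x, swp i l l' * σ) = mon (bv F) M (x, σ) := by
  rw [mon_bv, mon_bv]
  refine if_congr ?_ rfl rfl
  refine forall₂_congr fun e he => ?_
  refine and_congr_right fun _ => ?_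
  obtain ⟨i', u, l''⟩ := e
  dsimp only
  by_cases hi : i' = i
  · subst hi
    rw [Pi.mul_apply, swp, Function.update_self, Equiv.Perm.mul_apply]
    have h1 : l'' ≠ l := by
      rintro rfl
      exact hl u he
    have h2 : l'' ≠ l' := by
      rintro rfl
      exact hl' u he
    rw [Equiv.swap_apply_eq_iff, Equiv.swap_apply_of_ne_of_ne h1 h2]
  · rw [Pi.mul_apply, swp, Function.update_of_ne hi, Pi.one_apply, one_mul]

theorem bv_swap {i : I} {u : U} {l l' : Fin K} (x : X) (σ : Lab I K) :
    bv F (i, u, l') (x, swp i l l' * σ) = bv F (i, u, l) (x, σ) := by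
  unfold bv
  refine if_congr ?_ rfl rfl
  refine and_congr_right fun _ => ?_
  dsimp only
  rw [Pi.mul_apply, swp, Function.update_self, Equiv.Perm.mul_apply, Equiv.swap_apply_eq_iff,
    Equiv.swap_apply_right]

theorem sum_bv_label {i : I} {u : U} {x : X} (hu : u ∈ F.W x i) (σ : Lab I K) :
    ∑ l, bv F (i, u, l) (x, σ) = 1 := by
  unfold bv
  simp [hu]

/-- The key recursion. -/
theorem av_extend {M : Finset (I × U × Fin K)} (hM : IsMatch M) {i : I} {u : U} {l : Fin K}
    {x : X} (hu : u ∈ F.W x i) (hu' : ∀ l', (i, u, l') ∉ M) (hl : ∀ u', (i, u', l) ∉ M) :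
    ((K : ℝ) - (lvl M i).card) * av (fun ω => mon (bv F) M ω * bv F (i, u, l) ω) x =
      av (mon (bv F) M) x := by
  classical
  have h1 : av (mon (bv F) M) x = ∑ l', av (fun ω => mon (bv F) M ω * bv F (i, u, l') ω) x := by
    rw [← av_sum_apply]
    refine av_congr fun σ => ?_
    rw [← Finset.mul_sum, sum_bv_label F hu, mul_one]
  rw [h1]
  set used : Finset (Fin K) := (lvl M i).image fun e => e.2.2 with hused
  have h2 : ∀ l' ∈ used, av (fun ω => mon (bv F) M ω * bv F (i, u, l') ω) x = 0 := by
    intro l' hl'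
    refine av_eq_zero fun σ => ?_
    obtain ⟨⟨i1, u1, l1⟩, he, h3⟩ := Finset.mem_image.mp hl'
    obtain ⟨h4, h5⟩ := Finset.mem_filter.mp he
    dsimp only at h3 h5
    subst h3 h5
    rw [mon_bv, bv]
    by_contra hne
    have h6 := left_ne_zero_of_mul hne
    have h7 := right_ne_zero_of_mul hne
    have h8 : ∀ e ∈ M, e.2.1 ∈ F.W x e.1 ∧ σ e.1 (F.emb x e.1 e.2.1) = e.2.2 := by
      by_contra h
      exact h6 (if_neg h)
    have h9 : u ∈ F.W x i1 ∧ σ i1 (F.emb x i1 u) = l1 := by
      by_contra h
      exact h7 (if_neg h)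
    obtain ⟨h10, h11⟩ := h8 _ h4
    dsimp only at h10 h11
    rw [← h9.2] at h11
    have h12 := F.inj _ _ h10 h9.1 ((σ i1).injective h11)
    rw [h12] at h4
    exact hu' l1 h4
  have h3 : ∀ l' ∈ usedᶜ, av (fun ω => mon (bv F) M ω * bv F (i, u, l') ω) x =
      av (fun ω => mon (bv F) M ω * bv F (i, u, l) ω) x := by
    intro l' hl'
    have h4 : ∀ u', (i, u', l') ∉ M := by
      intro u' h
      rw [Finset.mem_compl] at hl'
      apply hl'
      exact Finset.mem_image.mpr ⟨(i, u', l'), Finset.mem_filter.mpr ⟨h, rfl⟩, rfl⟩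
    rw [← av_shift (swp i l l')]
    refine av_congr fun σ => ?_
    dsimp only
    rw [mon_bv_swap F hl h4, bv_swap]
  rw [← Finset.sum_add_sum_compl used, Finset.sum_eq_zero h2, zero_add, Finset.sum_congr rfl h3,
    Finset.sum_const, nsmul_eq_mul, Finset.card_compl, Fintype.card_fin, card_lvl_labels hM i,
    Nat.cast_sub (card_lvl_lt hM hl).le]

open Classical in
/-- The probability weight of a partial labelling. -/
noncomputable def cM (M : Finset (I × U × Fin K)) : ℝ :=
  if IsMatch M then ∏ i, (ff K (lvl M i).card)⁻¹ else 0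

theorem inv_ff_bounds (n : ℕ) : 0 ≤ (ff K n)⁻¹ ∧ (ff K n)⁻¹ ≤ 1 := by
  rw [ff_nat]
  refine ⟨by positivity, ?_⟩
  exact Nat.cast_inv_le_one _

theorem cM_nonneg (M : Finset (I × U × Fin K)) : 0 ≤ cM M := by
  unfold cM
  split_ifs
  · exact Finset.prod_nonneg fun i _ => (inv_ff_bounds _).1
  · exact le_rfl

theorem cM_le_one (M : Finset (I × U × Fin K)) : cM M ≤ 1 := by
  unfold cM
  split_ifs
  · exact Finset.prod_le_one (fun i _ => (inv_ff_bounds _).1) fun i _ => (inv_ff_bounds _).2
  · exact zero_le_one

theorem lvl_insert (e : I × U × Fin K) (M : Finset (I × U × Fin K)) (i : I) :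
    lvl (insert e M) i = if e.1 = i then insert e (lvl M i) else lvl M i := by
  unfold lvl
  rw [Finset.filter_insert]

theorem cM_insert {M : Finset (I × U × Fin K)} {e : I × U × Fin K} (he : e ∉ M)
    (hM : IsMatch (insert e M)) :
    cM (insert e M) * ((K : ℝ) - (lvl M e.1).card) = cM M := by
  classical
  have hM' : IsMatch M := fun a ha b hb =>
    hM a (Finset.mem_insert_of_mem ha) b (Finset.mem_insert_of_mem hb)
  have hl : ∀ u, (e.1, u, e.2.2) ∉ M := by
    intro u hu
    have h1 := (hM e (Finset.mem_insert_self _ _) _ (Finset.mem_insert_of_mem hu) rfl).mpr rfl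
    dsimp only at h1
    rw [← h1] at hu
    exact he hu
  have hlt := card_lvl_lt hM' hl
  unfold cM
  rw [if_pos hM, if_pos hM']
  rw [← Finset.mul_prod_erase _ _ (Finset.mem_univ e.1),
    ← Finset.mul_prod_erase (a := e.1) _ (fun i => (ff K (lvl M i).card)⁻¹) (Finset.mem_univ e.1)]
  have h1 : ∏ i ∈ Finset.univ.erase e.1, (ff K (lvl (insert e M) i).card)⁻¹ =
      ∏ i ∈ Finset.univ.erase e.1, (ff K (lvl M i).card)⁻¹ := by
    refine Finset.prod_congr rfl fun i hi => ?_
    rw [lvl_insert, if_neg (Finset.ne_of_mem_erase hi).symm]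
  have hn : e ∉ lvl M e.1 := fun h => he (Finset.mem_filter.mp h).1
  rw [h1, lvl_insert, if_pos rfl, Finset.card_insert_of_notMem hn, ff_add]
  have h2 : ff ((K : ℝ) - (lvl M e.1).card) 1 = (K : ℝ) - (lvl M e.1).card := by simp [ff]
  rw [h2]
  have h3 : (0 : ℝ) < (K : ℝ) - (lvl M e.1).card := by
    rw [sub_pos]
    exact_mod_cast hlt
  have h4 : 0 < ff K (lvl M e.1).card := ff_nat_pos hlt.le
  field_simp

theorem av_mon_bv (M : Finset (I × U × Fin K)) (x : X) :
    av (mon (bv F) M) x = cM M * mm F M x := by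
  classical
  induction M using Finset.induction_on with
  | empty =>
    have h1 : mon (bv F) (∅ : Finset (I × U × Fin K)) = fun _ => 1 := by
      funext ω
      simp [mon]
    rw [h1, av_one]
    have h2 : IsMatch (∅ : Finset (I × U × Fin K)) := by
      intro e he
      simp at he
    simp [cM, h2, mm, lvl, ff_zero]
  | insert e M he ih =>
    by_cases hM : IsMatch (insert e M)
    · have hM' : IsMatch M := fun a ha b hb =>
        hM a (Finset.mem_insert_of_mem ha) b (Finset.mem_insert_of_mem hb)
      have hl : ∀ u, (e.1, u, e.2.2) ∉ M := by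
        intro u hu
        have h1 := (hM e (Finset.mem_insert_self _ _) _ (Finset.mem_insert_of_mem hu) rfl).mpr rfl
        dsimp only at h1
        rw [← h1] at hu
        exact he hu
      have hu' : ∀ l, (e.1, e.2.1, l) ∉ M := by
        intro l hu
        have h1 := (hM e (Finset.mem_insert_self _ _) _ (Finset.mem_insert_of_mem hu) rfl).mp rfl
        dsimp only at h1
        rw [← h1] at hu
        exact he hu
      have hc := cM_insert he hM
      have hlt := card_lvl_lt hM' hl
      have h3 : (0 : ℝ) < (K : ℝ) - (lvl M e.1).card := by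
        rw [sub_pos]
        exact_mod_cast hlt
      by_cases hu : e.2.1 ∈ F.W x e.1
      · have h4 := av_extend F hM' hu hu' hl
        have h5 : av (mon (bv F) (insert e M)) x =
            av (fun ω => mon (bv F) M ω * bv F (e.1, e.2.1, e.2.2) ω) x := by
          refine av_congr fun σ => ?_
          unfold mon
          rw [Finset.prod_insert he, mul_comm]
        rw [h5]
        have h6 : mm F (insert e M) x = mm F M x := by
          unfold mm
          rw [Finset.prod_insert he, mu, if_pos hu, one_mul]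
        rw [h6]
        rw [ih, ← hc] at h4
        have h7 : ((K : ℝ) - (lvl M e.1).card) *
            (av (fun ω => mon (bv F) M ω * bv F (e.1, e.2.1, e.2.2) ω) x) =
            ((K : ℝ) - (lvl M e.1).card) * (cM (insert e M) * mm F M x) := by
          rw [h4]
          ring
        exact mul_left_cancel₀ h3.ne' h7
      · have h4 : av (mon (bv F) (insert e M)) x = 0 := by
          refine av_eq_zero fun σ => ?_
          rw [mon_bv, if_neg]
          intro h
          exact hu (h e (Finset.mem_insert_self _ _)).1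
        rw [h4, mm_eq, if_neg, mul_zero]
        intro h
        exact hu (h e (Finset.mem_insert_self _ _))
    · have h4 : av (mon (bv F) (insert e M)) x = 0 :=
        av_eq_zero fun σ => mon_bv_eq_zero_of_not_match F hM _
      rw [h4, cM, if_neg hM, zero_mul]

/-- Indicator that label `p.2` is not used in constraint `p.1`. -/
noncomputable def unused (p : I × Fin K) (ω : X × Lab I K) : ℝ :=
  1 - ∑ u, bv F (p.1, u, p.2) ω

open Classical in
/-- The constant in the moment of an unused label. -/
noncomputable def cU (M : Finset (I × U × Fin K)) (p : I × Fin K) : ℝ :=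
  if IsMatch M ∧ ∀ u, (p.1, u, p.2) ∉ M then cM M / ((K : ℝ) - (lvl M p.1).card) else 0

theorem cU_bounds (M : Finset (I × U × Fin K)) (p : I × Fin K) : 0 ≤ cU M p ∧ cU M p ≤ 1 := by
  unfold cU
  split_ifs with h
  · have h1 := card_lvl_lt h.1 h.2
    have h2 : (1 : ℝ) ≤ (K : ℝ) - (lvl M p.1).card := by
      rw [le_sub_iff_add_le, add_comm]
      exact_mod_cast h1
    refine ⟨div_nonneg (cM_nonneg M) (by linarith), ?_⟩
    rw [div_le_one (by linarith)]
    exact (cM_le_one M).trans h2
  · exact ⟨le_rfl, zero_le_one⟩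

theorem sum_bv_elem_le {i : I} {l : Fin K} {u : U} {ω : X × Lab I K}
    (h : bv F (i, u, l) ω ≠ 0) : ∑ u', bv F (i, u', l) ω = 1 := by
  classical
  have h1 : u ∈ F.W ω.1 i ∧ ω.2 i (F.emb ω.1 i u) = l := by
    by_contra h2
    exact h (if_neg h2)
  rw [Finset.sum_eq_single u]
  · unfold bv
    rw [if_pos h1]
  · intro u' _ hne
    unfold bv
    rw [if_neg]
    rintro ⟨h2, h3⟩
    dsimp only at h2 h3
    rw [← h1.2] at h3
    exact hne (F.inj _ _ h2 h1.1 ((ω.2 i).injective h3))
  · intro h2
    exact absurd (Finset.mem_univ u) h2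

theorem av_mon_unused (M : Finset (I × U × Fin K)) (p : I × Fin K) (x : X) :
    av (fun ω => mon (bv F) M ω * unused F p ω) x =
      cU M p * (mm F M x * ((K : ℝ) - (F.W x p.1).card)) := by
  classical
  obtain ⟨i, l⟩ := p
  by_cases hM : IsMatch M
  · by_cases hl : ∀ u, (i, u, l) ∉ M
    · have hlt := card_lvl_lt hM hl
      have h3 : (0 : ℝ) < (K : ℝ) - (lvl M i).card := by
        rw [sub_pos]
        exact_mod_cast hlt
      have hcU : cU M (i, l) = cM M / ((K : ℝ) - (lvl M i).card) := by
        unfold cU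
        rw [if_pos ⟨hM, hl⟩]
      have h1 : av (fun ω => mon (bv F) M ω * unused F (i, l) ω) x =
          av (mon (bv F) M) x - ∑ u, av (fun ω => mon (bv F) M ω * bv F (i, u, l) ω) x := by
        have h2 : (fun ω => mon (bv F) M ω * unused F (i, l) ω) =
            mon (bv F) M - fun ω => ∑ u, mon (bv F) M ω * bv F (i, u, l) ω := by
          funext ω
          rw [Pi.sub_apply, ← Finset.mul_sum, unused]
          ring
        rw [h2, map_sub, Pi.sub_apply, av_sum_apply]
      rw [h1, av_mon_bv, hcU]
      by_cases hmm : ∀ e ∈ M, e.2.1 ∈ F.W x e.1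
      · have hmm1 : mm F M x = 1 := by rw [mm_eq, if_pos hmm]
        set El : Finset U := (lvl M i).image fun e => e.2.1 with hEl
        have hElW : El ⊆ F.W x i := by
          intro u hu
          obtain ⟨⟨i', u', l'⟩, he, rfl⟩ := Finset.mem_image.mp hu
          obtain ⟨h4, h5⟩ := Finset.mem_filter.mp he
          dsimp only at h5
          subst h5
          exact hmm _ h4
        have h4 : ∀ u, av (fun ω => mon (bv F) M ω * bv F (i, u, l) ω) x =
            if u ∈ F.W x i \ El then cM M / ((K : ℝ) - (lvl M i).card) else 0 := by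
          intro u
          split_ifs with hu
          · rw [Finset.mem_sdiff] at hu
            have hu' : ∀ l', (i, u, l') ∉ M := by
              intro l' h
              exact hu.2 (Finset.mem_image.mpr ⟨(i, u, l'), Finset.mem_filter.mpr ⟨h, rfl⟩, rfl⟩)
            have h5 := av_extend F hM hu.1 hu' hl
            rw [av_mon_bv, hmm1, mul_one] at h5
            rw [eq_div_iff h3.ne', ← h5]
            ring
          · refine av_eq_zero fun σ => ?_
            by_contra hne
            have h6 := left_ne_zero_of_mul hne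
            have h7 := right_ne_zero_of_mul hne
            rw [mon_bv] at h6
            have h8 : ∀ e ∈ M, e.2.1 ∈ F.W x e.1 ∧ σ e.1 (F.emb x e.1 e.2.1) = e.2.2 := by
              by_contra h
              exact h6 (if_neg h)
            have h9 : u ∈ F.W x i ∧ σ i (F.emb x i u) = l := by
              by_contra h
              exact h7 (if_neg h)
            apply hu
            rw [Finset.mem_sdiff]
            refine ⟨h9.1, fun hE => ?_⟩
            obtain ⟨⟨i', u', l'⟩, he, hu'⟩ := Finset.mem_image.mp hE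
            obtain ⟨h4, h5⟩ := Finset.mem_filter.mp he
            dsimp only at h5 hu'
            subst h5 hu'
            have h10 := (h8 _ h4).2
            dsimp only at h10
            rw [h9.2] at h10
            rw [← h10] at h4
            exact hl _ h4
        rw [Finset.sum_congr rfl fun u _ => h4 u, Finset.sum_ite_mem, Finset.univ_inter,
          Finset.sum_const, nsmul_eq_mul, Finset.card_sdiff_of_subset hElW,
          Nat.cast_sub (Finset.card_le_card hElW), hEl, card_lvl_elems hM i, hmm1]
        field_simp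
        ring
      · have hmm0 : mm F M x = 0 := by rw [mm_eq, if_neg hmm]
        rw [hmm0]
        have h4 : ∀ u, av (fun ω => mon (bv F) M ω * bv F (i, u, l) ω) x = 0 := by
          intro u
          refine av_eq_zero fun σ => ?_
          have h5 : mon (bv F) M (x, σ) = 0 := by
            rw [mon_bv, if_neg]
            intro h
            exact hmm fun e he => (h e he).1
          rw [h5, zero_mul]
        rw [Finset.sum_eq_zero fun u _ => h4 u]
        ring
    · have h0 : cU M (i, l) = 0 := by
        unfold cU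
        rw [if_neg]
        exact fun h => hl h.2
      rw [h0, zero_mul]
      refine av_eq_zero fun σ => ?_
      push Not at hl
      obtain ⟨u, hu⟩ := hl
      by_contra hne
      have h6 := left_ne_zero_of_mul hne
      have h7 := right_ne_zero_of_mul hne
      have h8 : bv F (i, u, l) (x, σ) ≠ 0 := by
        intro h
        exact h6 (Finset.prod_eq_zero hu h)
      have h9 := sum_bv_elem_le F h8
      apply h7
      unfold unused
      rw [h9, sub_self]
  · have h0 : cU M (i, l) = 0 := by
      unfold cU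
      rw [if_neg]
      exact fun h => hM h.1
    rw [h0, zero_mul]
    refine av_eq_zero fun σ => ?_
    rw [mon_bv_eq_zero_of_not_match F hM, zero_mul]

end

end Pool.Agent.Helper81_Sos
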