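import Mathlib
import Pool.Agent.Helper81_Sos.KnapsackPsd
import Pool.Agent.Helper81_Sos.Labels

/-!
Approximate positivity of the functional obtained by labelling the elements at random.
-/

namespace Pool.Agent.Helper81_Sos

set_option linter.unusedSectionVars false

open Finset

section

variable {X BG I U : Type} [Fintype BG] [DecidableEq BG] [Fintype I] [DecidableEq I]
  [Fintype U] [DecidableEq U] {K : ℕ} (F : Frame X I U K) (bg : BG → X → ℝ)

/-- All generators: base generators and incidence variables. -/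
noncomputable def lgen : BG ⊕ (I × U × Fin K) → X × Lab I K → ℝ
  | Sum.inl b, ω => bg b ω.1
  | Sum.inr e, ω => bv F e ω

/-- The functional: average over the labellings, then apply the base functional. -/
noncomputable def LL (L0 : (X → ℝ) →ₗ[ℝ] ℝ) : (X × Lab I K → ℝ) →ₗ[ℝ] ℝ := L0 ∘ₗ av

theorem LL_apply (L0 : (X → ℝ) →ₗ[ℝ] ℝ) (f : X × Lab I K → ℝ) : LL L0 f = L0 (av f) := rfl

theorem lgen_idem (hid : ∀ b x, bg b x * bg b x = bg b x) (g : BG ⊕ (I × U × Fin K))
    (ω : X × Lab I K) : lgen F bg g ω * lgen F bg g ω = lgen F bg g ω := by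
  rcases g with b | e
  · exact hid b ω.1
  · exact bv_idem F e ω

theorem mon_lgen (A : Finset (BG ⊕ (I × U × Fin K))) (ω : X × Lab I K) :
    mon (lgen F bg) A ω = mon bg A.toLeft ω.1 * mon (bv F) A.toRight ω := by
  unfold mon
  conv_lhs => rw [← Finset.toLeft_disjSum_toRight (u := A)]
  rw [Finset.prod_disjSum]
  rfl

/-- What is needed from the base functional. -/
structure Base (L0 : (X → ℝ) →ₗ[ℝ] ℝ) (δ : ℝ) (d1 D1 : ℕ) : Prop where
  hid : ∀ b x, bg b x * bg b x = bg b x
  hmu : ∀ p, Rep bg 2 2 (mu F p)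
  hδ : 0 ≤ δ
  psd : ∀ (h : X → ℝ) (C : ℝ), Rep bg d1 C h → 0 ≤ L0 (fun x => h x ^ 2)
  con : ∀ (i : I) (h : X → ℝ) (C : ℝ), Rep bg D1 C h →
    |L0 (fun x => h x * ((K : ℝ) - (F.W x i).card))| ≤ δ * C

variable {F bg} {L0 : (X → ℝ) →ₗ[ℝ] ℝ} {δ : ℝ} {d1 D1 : ℕ}

theorem rep_mm (hB : Base F bg L0 δ d1 D1) (M : Finset (I × U × Fin K)) :
    Rep bg (M.card * 2) (2 ^ M.card) (mm F M) :=
  Rep.prod_const hB.hid M 2 2 (fun e => mu F (e.1, e.2.1)) fun e _ => hB.hmu (e.1, e.2.1)

theorem rep_mon_mm (hB : Base F bg L0 δ d1 D1) (A : Finset BG) (M : Finset (I × U × Fin K)) :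
    Rep bg (A.card + M.card * 2) (2 ^ M.card) (fun x => mon bg A x * mm F M x) := by
  have := (rep_mon (gen := bg) A).mul hB.hid (rep_mm hB M)
  rwa [one_mul] at this

theorem LL_unused (hB : Base F bg L0 δ d1 D1) {e : ℕ} {C : ℝ} {f : X × Lab I K → ℝ}
    (hf : Rep (lgen F bg) e C f) (he : 2 * e ≤ D1) (p : I × Fin K) :
    |LL L0 (fun ω => f ω * unused F p ω)| ≤ δ * (C * 2 ^ e) := by
  obtain ⟨c, h1, h2, h3⟩ := hf
  have h4 : (fun ω => f ω * unused F p ω) =
      ∑ A, c A • fun ω => mon (lgen F bg) A ω * unused F p ω := by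
    funext ω
    simp only [Finset.sum_apply, Pi.smul_apply, smul_eq_mul]
    rw [h3 ω, Finset.sum_mul]
    exact Finset.sum_congr rfl fun A _ => by ring
  rw [h4, map_sum]
  have hδ := hB.hδ
  calc |∑ A, LL L0 (c A • fun ω => mon (lgen F bg) A ω * unused F p ω)|
      ≤ ∑ A, |LL L0 (c A • fun ω => mon (lgen F bg) A ω * unused F p ω)| :=
        Finset.abs_sum_le_sum_abs _ _
    _ ≤ ∑ A, |c A| * (δ * 2 ^ e) := by
        refine Finset.sum_le_sum fun A _ => ?_
        rw [map_smul, smul_eq_mul, abs_mul]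
        by_cases hA : e < A.card
        · rw [h1 A hA, abs_zero, zero_mul, zero_mul]
        refine mul_le_mul_of_nonneg_left ?_ (abs_nonneg _)
        rw [LL_apply]
        have h5 : av (fun ω => mon (lgen F bg) A ω * unused F p ω) = (cU A.toRight p) •
            fun x => mon bg A.toLeft x * mm F A.toRight x * ((K : ℝ) - (F.W x p.1).card) := by
          funext x
          rw [Pi.smul_apply, smul_eq_mul]
          have h6 : av (fun ω => mon (lgen F bg) A ω * unused F p ω) x =
              av (fun ω => mon bg A.toLeft ω.1 * (mon (bv F) A.toRight ω * unused F p ω)) x := by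
            refine av_congr fun σ => ?_
            rw [mon_lgen]
            ring
          rw [h6, av_mul_left, av_mon_unused]
          ring
        rw [h5, map_smul, smul_eq_mul, abs_mul]
        have hcard : A.toLeft.card + A.toRight.card = A.card :=
          Finset.card_toLeft_add_card_toRight
        have h7 := hB.con p.1 _ (2 ^ A.toRight.card)
          ((rep_mon_mm hB A.toLeft A.toRight).mono (by omega) le_rfl)
        have h8 := cU_bounds A.toRight p
        rw [abs_of_nonneg h8.1]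
        calc cU A.toRight p * |L0 fun x => mon bg A.toLeft x * mm F A.toRight x *
              ((K : ℝ) - (F.W x p.1).card)| ≤ 1 * (δ * 2 ^ A.toRight.card) :=
              mul_le_mul h8.2 h7 (abs_nonneg _) zero_le_one
          _ ≤ δ * 2 ^ e := by
              rw [one_mul]
              refine mul_le_mul_of_nonneg_left ?_ hδ
              exact pow_le_pow_right₀ (by norm_num) (by omega)
    _ = (∑ A, |c A|) * (δ * 2 ^ e) := by rw [Finset.sum_mul]
    _ ≤ C * (δ * 2 ^ e) := mul_le_mul_of_nonneg_right h2 (by positivity)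
    _ = δ * (C * 2 ^ e) := by ring

/-- The action of the label permutations on the generators. -/
@[reducible] def labAct (BG I U : Type) (K : ℕ) : MulAction (Lab I K) (BG ⊕ (I × U × Fin K)) where
  smul τ g := Sum.map id (fun e => (e.1, e.2.1, τ e.1 e.2.2)) g
  one_smul g := by
    rcases g with b | ⟨i, u, l⟩
    · rfl
    · rfl
  mul_smul τ τ' g := by
    rcases g with b | ⟨i, u, l⟩
    · rfl
    · rfl

theorem lgen_act (τ σ : Lab I K) (x : X) (g : BG ⊕ (I × U × Fin K)) :
    lgen F bg ((labAct BG I U K).smul τ g) (x, τ * σ) = lgen F bg g (x, σ) := by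
  rcases g with b | ⟨i, u, l⟩
  · rfl
  · change bv F (i, u, τ i l) (x, τ * σ) = bv F (i, u, l) (x, σ)
    unfold bv
    refine if_congr ?_ rfl rfl
    refine and_congr_right fun _ => ?_
    dsimp only
    rw [Pi.mul_apply, Equiv.Perm.mul_apply]
    exact (τ i).injective.eq_iff

theorem mon_lgen_act (τ σ : Lab I K) (x : X) (A : Finset (BG ⊕ (I × U × Fin K))) :
    mon (lgen F bg) (A.image fun g => (labAct BG I U K).smul τ g) (x, τ * σ) =
      mon (lgen F bg) A (x, σ) := by
  unfold mon
  rw [Finset.prod_image]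
  · exact Finset.prod_congr rfl fun g _ => lgen_act τ σ x g
  · intro g _ g' _ h
    let _ := labAct BG I U K
    exact MulAction.injective τ h

theorem LL_mon_act (τ : Lab I K) (A : Finset (BG ⊕ (I × U × Fin K))) :
    LL L0 (mon (lgen F bg) (A.image fun g => (labAct BG I U K).smul τ g)) =
      LL L0 (mon (lgen F bg) A) := by
  rw [LL_apply, LL_apply]
  congr 1
  funext x
  rw [← av_shift τ]
  exact av_congr fun σ => mon_lgen_act τ σ x A

/-- Linear combination of the monomials of degree at most `d`. -/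
noncomputable def vv (F : Frame X I U K) (bg : BG → X → ℝ) {d : ℕ}
    (w : {A : Finset (BG ⊕ (I × U × Fin K)) // A.card ≤ d} → ℝ) (ω : X × Lab I K) : ℝ :=
  ∑ A, w A * mon (lgen F bg) A.1 ω

theorem rep_vv {d : ℕ} (w : {A : Finset (BG ⊕ (I × U × Fin K)) // A.card ≤ d} → ℝ) :
    Rep (lgen F bg) d (∑ A, |w A|) (vv F bg w) := by
  refine (Rep.sum Finset.univ _ _ fun A _ => ?_)
  have := (rep_mon (gen := lgen F bg) A.1).smul (w A)
  rw [mul_one] at this
  exact this.mono A.2 le_rfl

/-- Invariance of the coefficient vector under the label permutations fixing the labels in `L`. -/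
def Inv {d : ℕ} (L : Finset (I × Fin K))
    (w : {A : Finset (BG ⊕ (I × U × Fin K)) // A.card ≤ d} → ℝ) : Prop :=
  ∀ τ : Lab I K, (∀ p ∈ L, τ p.1 p.2 = p.2) → ∀ A B : {A : Finset (BG ⊕ (I × U × Fin K)) //
    A.card ≤ d}, B.1 = A.1.image (fun g => (labAct BG I U K).smul τ g) → w B = w A

theorem vv_inv {d : ℕ} {L : Finset (I × Fin K)}
    {w : {A : Finset (BG ⊕ (I × U × Fin K)) // A.card ≤ d} → ℝ} (hw : Inv L w)
    (τ : Lab I K) (hτ : ∀ p ∈ L, τ p.1 p.2 = p.2) (x : X) (σ : Lab I K) :
    vv F bg w (x, τ * σ) = vv F bg w (x, σ) := by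
  let _ := labAct BG I U K
  let _ := cardAct (Lab I K) (BG ⊕ (I × U × Fin K)) d
  unfold vv
  rw [← Equiv.sum_comp (MulAction.toPerm τ :
    Equiv.Perm {A : Finset (BG ⊕ (I × U × Fin K)) // A.card ≤ d})]
  refine Finset.sum_congr rfl fun A _ => ?_
  rw [MulAction.toPerm_apply]
  have h1 : (τ • A).1 = A.1.image (fun g => (labAct BG I U K).smul τ g) := rfl
  rw [hw τ hτ A (τ • A) h1, h1, mon_lgen_act]

/-- On the event that the labels of `L` receive a prescribed content, the symmetric function `vv`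
is constant. -/
theorem av_sq_mul {d : ℕ} {L : Finset (I × Fin K)}
    {w : {A : Finset (BG ⊕ (I × U × Fin K)) // A.card ≤ d} → ℝ} (hw : Inv L w)
    (M : Finset (I × U × Fin K)) (hM : ∀ p ∈ L, ∃ u, (p.1, u, p.2) ∈ M) (x : X) :
    av (fun ω => vv F bg w ω ^ 2 * mon (bv F) M ω) x * av (mon (bv F) M) x =
      av (fun ω => vv F bg w ω * mon (bv F) M ω) x ^ 2 := by
  by_cases hne : ∃ σ0, mon (bv F) M (x, σ0) ≠ 0
  · obtain ⟨σ0, h0⟩ := hne
    have key : ∀ σ, mon (bv F) M (x, σ) ≠ 0 → vv F bg w (x, σ) = vv F bg w (x, σ0) := by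
      intro σ hσ
      have h1 : σ = (σ * σ0⁻¹) * σ0 := by group
      rw [h1]
      refine vv_inv hw _ ?_ x σ0
      intro p hp
      obtain ⟨u, hu⟩ := hM p hp
      rw [mon_bv] at h0 hσ
      have e0 : ∀ e ∈ M, e.2.1 ∈ F.W x e.1 ∧ σ0 e.1 (F.emb x e.1 e.2.1) = e.2.2 := by
        by_contra h
        exact h0 (if_neg h)
      have e1 : ∀ e ∈ M, e.2.1 ∈ F.W x e.1 ∧ σ e.1 (F.emb x e.1 e.2.1) = e.2.2 := by
        by_contra h
        exact hσ (if_neg h)
      have f0 := (e0 _ hu).2
      have f1 := (e1 _ hu).2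
      dsimp only at f0 f1
      rw [Pi.mul_apply, Pi.inv_apply, Equiv.Perm.mul_apply]
      have f2 : (σ0 p.1)⁻¹ p.2 = F.emb x p.1 u := by
        rw [Equiv.Perm.inv_eq_iff_eq]
        exact f0.symm
      rw [f2, f1]
    set c := vv F bg w (x, σ0) with hc
    have h1 : av (fun ω => vv F bg w ω ^ 2 * mon (bv F) M ω) x = c ^ 2 * av (mon (bv F) M) x := by
      rw [av_apply, av_apply, ← mul_div_assoc, Finset.mul_sum]
      congr 1
      refine Finset.sum_congr rfl fun σ _ => ?_
      by_cases h : mon (bv F) M (x, σ) = 0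
      · rw [h]
        ring
      · rw [key σ h]
    have h2 : av (fun ω => vv F bg w ω * mon (bv F) M ω) x = c * av (mon (bv F) M) x := by
      rw [av_apply, av_apply, ← mul_div_assoc, Finset.mul_sum]
      congr 1
      refine Finset.sum_congr rfl fun σ _ => ?_
      by_cases h : mon (bv F) M (x, σ) = 0
      · rw [h]
        ring
      · rw [key σ h]
    rw [h1, h2]
    ring
  · push Not at hne
    rw [av_eq_zero (f := mon (bv F) M) hne, av_eq_zero (f := fun ω => vv F bg w ω *
      mon (bv F) M ω) fun σ => by rw [hne σ, mul_zero]]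
    ring

theorem mon_bv_nonneg (M : Finset (I × U × Fin K)) (ω : X × Lab I K) : 0 ≤ mon (bv F) M ω := by
  rw [mon_bv]
  split_ifs <;> norm_num

theorem LL_full_nonneg (hB : Base F bg L0 δ d1 D1) {d : ℕ} (hd : 4 * d ≤ d1)
    {L : Finset (I × Fin K)} {w : {A : Finset (BG ⊕ (I × U × Fin K)) // A.card ≤ d} → ℝ}
    (hw : Inv L w) (M : Finset (I × U × Fin K)) (hM : ∀ p ∈ L, ∃ u, (p.1, u, p.2) ∈ M)
    (hMd : M.card ≤ d) :
    0 ≤ LL L0 (fun ω => vv F bg w ω ^ 2 * mon (bv F) M ω) := by
  classical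
  rw [LL_apply]
  by_cases hc : cM M = 0
  · have h1 : av (fun ω : X × Lab I K => vv F bg w ω ^ 2 * mon (bv F) M ω) = 0 := by
      funext x
      refine av_eq_zero fun σ => ?_
      have h2 := av_mon_bv F M x
      rw [hc, zero_mul, av_apply, div_eq_zero_iff] at h2
      rcases h2 with h2 | h2
      · rw [Finset.sum_eq_zero_iff_of_nonneg fun σ _ => mon_bv_nonneg M _] at h2
        rw [h2 σ (Finset.mem_univ σ), mul_zero]
      · exact absurd h2 card_lab_pos.ne'
    rw [h1, map_zero]
  · have hcpos : 0 < cM M := lt_of_le_of_ne (cM_nonneg M) (Ne.symm hc)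
    set h : X → ℝ := av (fun ω => vv F bg w ω * mon (bv F) M ω) with hh
    have h1 : av (fun ω => vv F bg w ω ^ 2 * mon (bv F) M ω) = (cM M)⁻¹ • fun x => h x ^ 2 := by
      funext x
      rw [Pi.smul_apply, smul_eq_mul]
      have h2 := av_sq_mul (F := F) (bg := bg) hw M hM x
      rw [av_mon_bv] at h2
      by_cases hmm : ∀ e ∈ M, e.2.1 ∈ F.W x e.1
      · rw [mm_eq, if_pos hmm, mul_one] at h2
        rw [hh, ← h2]
        field_simp
      · have h3 : ∀ σ, mon (bv F) M (x, σ) = 0 := by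
          intro σ
          rw [mon_bv, if_neg]
          intro h
          exact hmm fun e he => (h e he).1
        have h4 : h x = 0 := av_eq_zero fun σ => by rw [h3 σ, mul_zero]
        rw [h4, av_eq_zero fun σ => by rw [h3 σ, mul_zero]]
        ring
    rw [h1, map_smul, smul_eq_mul]
    refine mul_nonneg (by positivity) ?_
    -- `h` is a low degree function
    have h2 : Rep bg (4 * d) (∑ A : {A : Finset (BG ⊕ (I × U × Fin K)) // A.card ≤ d},
        |w A| * 2 ^ (2 * d)) h := by
      have h3 : ∀ A : {A : Finset (BG ⊕ (I × U × Fin K)) // A.card ≤ d},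
          Rep bg (4 * d) (|w A| * 2 ^ (2 * d))
          (fun x => w A * (cM (A.1.toRight ∪ M) *
            (mon bg A.1.toLeft x * mm F (A.1.toRight ∪ M) x))) := by
        intro A
        have hcard : A.1.toLeft.card + A.1.toRight.card = A.1.card :=
          Finset.card_toLeft_add_card_toRight
        have hA := A.2
        have hu := Finset.card_union_le A.1.toRight M
        have h4 := rep_mon_mm hB A.1.toLeft (A.1.toRight ∪ M)
        have h5 := (h4.smul (cM (A.1.toRight ∪ M))).smul (w A)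
        refine h5.mono (by omega) ?_
        refine mul_le_mul_of_nonneg_left ?_ (abs_nonneg _)
        rw [abs_of_nonneg (cM_nonneg _)]
        calc cM (A.1.toRight ∪ M) * 2 ^ (A.1.toRight ∪ M).card
            ≤ 1 * 2 ^ (2 * d) := by
              refine mul_le_mul (cM_le_one _) ?_ (by positivity) zero_le_one
              exact pow_le_pow_right₀ (by norm_num) (by omega)
          _ = _ := one_mul _
      refine (Rep.sum Finset.univ _ _ fun A _ => h3 A).congr fun x => ?_
      have h4 : h x = av (fun ω => ∑ A : {A : Finset (BG ⊕ (I × U × Fin K)) // A.card ≤ d},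
          (w A * mon bg A.1.toLeft ω.1) * mon (bv F) (A.1.toRight ∪ M) ω) x := by
        refine av_congr fun σ => ?_
        rw [vv, Finset.sum_mul]
        refine Finset.sum_congr rfl fun A _ => ?_
        rw [mon_lgen, ← mon_mul_mon (bv_idem F)]
        ring
      rw [h4, av_sum_apply]
      refine Finset.sum_congr rfl fun A _ => ?_
      rw [av_mul_left (fun x => w A * mon bg A.1.toLeft x), av_mon_bv]
      ring
    exact hB.psd h _ (h2.mono hd le_rfl)

theorem LL_used_nonneg (hB : Base F bg L0 δ d1 D1) {d : ℕ} (hd : 4 * d ≤ d1)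
    {L : Finset (I × Fin K)} {w : {A : Finset (BG ⊕ (I × U × Fin K)) // A.card ≤ d} → ℝ}
    (hw : Inv L w) (L' : Finset (I × Fin K)) : ∀ (M : Finset (I × U × Fin K)),
    (∀ p ∈ L, p ∈ L' ∨ ∃ u, (p.1, u, p.2) ∈ M) → M.card + L'.card ≤ d →
    0 ≤ LL L0 (fun ω => vv F bg w ω ^ 2 * mon (bv F) M ω *
      ∏ p ∈ L', ∑ u, bv F (p.1, u, p.2) ω) := by
  classical
  induction L' using Finset.induction_on with
  | empty =>
    intro M hM hMd
    have h1 := LL_full_nonneg hB hd hw M (fun p hp => (hM p hp).resolve_left (by simp))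
      (by simpa using hMd)
    simpa using h1
  | insert a L' ha ih =>
    intro M hM hMd
    rw [Finset.card_insert_of_notMem ha] at hMd
    have h1 : (fun ω => vv F bg w ω ^ 2 * mon (bv F) M ω *
        ∏ p ∈ insert a L', ∑ u, bv F (p.1, u, p.2) ω) =
        ∑ u, fun ω => vv F bg w ω ^ 2 * mon (bv F) (insert (a.1, u, a.2) M) ω *
          ∏ p ∈ L', ∑ u, bv F (p.1, u, p.2) ω := by
      funext ω
      rw [Finset.sum_apply, Finset.prod_insert ha]
      have h2 : ∀ u, mon (bv F) (insert (a.1, u, a.2) M) ω =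
          mon (bv F) M ω * bv F (a.1, u, a.2) ω := by
        intro u
        have h3 : insert (a.1, u, a.2) M = M ∪ {(a.1, u, a.2)} := by
          rw [Finset.union_comm, Finset.insert_eq]
        rw [h3, ← mon_mul_mon (bv_idem F)]
        congr 1
        simp [mon]
      simp only [h2]
      have h4 : ∀ u, vv F bg w ω ^ 2 * (mon (bv F) M ω * bv F (a.1, u, a.2) ω) *
          ∏ p ∈ L', ∑ u, bv F (p.1, u, p.2) ω = (vv F bg w ω ^ 2 * mon (bv F) M ω *
          ∏ p ∈ L', ∑ u, bv F (p.1, u, p.2) ω) * bv F (a.1, u, a.2) ω := fun u => by ring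
      simp only [h4]
      rw [← Finset.mul_sum]
      ring
    rw [h1, map_sum]
    refine Finset.sum_nonneg fun u _ => ?_
    refine ih (insert (a.1, u, a.2) M) ?_ ?_
    · intro p hp
      rcases hM p hp with h | ⟨u', h⟩
      · rw [Finset.mem_insert] at h
        rcases h with rfl | h
        · exact Or.inr ⟨u, Finset.mem_insert_self _ _⟩
        · exact Or.inl h
      · exact Or.inr ⟨u', Finset.mem_insert_of_mem h⟩
    · have := Finset.card_insert_le (a.1, u, a.2) M
      omega

theorem rep_used (F : Frame X I U K) (bg : BG → X → ℝ) (p : I × Fin K) :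
    Rep (lgen F bg) 1 (Fintype.card U) (fun ω => ∑ u, bv F (p.1, u, p.2) ω) := by
  have h1 := Rep.sum_const (gen := lgen F bg) (Finset.univ : Finset U) 1
    (fun u => lgen F bg (Sum.inr (p.1, u, p.2))) fun u _ => rep_gen _
  rw [mul_one, Finset.card_univ] at h1
  exact h1

theorem LL_error (hB : Base F bg L0 δ d1 D1) (hU : 1 ≤ Fintype.card U) {e : ℕ} {C : ℝ}
    {f : X × Lab I K → ℝ} (hf : Rep (lgen F bg) e C f) (L : Finset (I × Fin K)) :
    2 * (e + L.card) ≤ D1 →
    |LL L0 (fun ω => f ω * (1 - ∏ p ∈ L, ∑ u, bv F (p.1, u, p.2) ω))| ≤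
      L.card * (δ * (C * (Fintype.card U : ℝ) ^ L.card * 2 ^ (e + L.card))) := by
  classical
  have hC := hf.nonneg
  have hδ := hB.hδ
  have hU' : (1 : ℝ) ≤ Fintype.card U := by exact_mod_cast hU
  induction L using Finset.induction_on with
  | empty =>
    intro _
    simp only [Finset.prod_empty, sub_self, mul_zero, Finset.card_empty, Nat.cast_zero, zero_mul]
    have : (fun _ : X × Lab I K => (0 : ℝ)) = 0 := rfl
    rw [this, map_zero, abs_zero]
  | insert a L ha ih =>
    intro hD
    rw [Finset.card_insert_of_notMem ha] at hD ⊢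
    have ih' := ih (by omega)
    have h1 : (fun ω => f ω * (1 - ∏ p ∈ insert a L, ∑ u, bv F (p.1, u, p.2) ω)) =
        (fun ω => f ω * (1 - ∏ p ∈ L, ∑ u, bv F (p.1, u, p.2) ω)) +
        (fun ω => (f ω * ∏ p ∈ L, ∑ u, bv F (p.1, u, p.2) ω) * unused F a ω) := by
      funext ω
      rw [Pi.add_apply, Finset.prod_insert ha, unused]
      ring
    have hid := lgen_idem F bg hB.hid
    have h2 : Rep (lgen F bg) (e + L.card) (C * (Fintype.card U : ℝ) ^ L.card)
        (fun ω => f ω * ∏ p ∈ L, ∑ u, bv F (p.1, u, p.2) ω) := by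
      have h3 := hf.mul hid (Rep.prod_const hid L 1 (Fintype.card U)
        (fun p ω => ∑ u, bv F (p.1, u, p.2) ω) fun p _ => rep_used F bg p)
      rwa [mul_one] at h3
    have h3 := LL_unused hB h2 (by omega) a
    rw [h1, map_add]
    have hX : δ * (C * (Fintype.card U : ℝ) ^ L.card * 2 ^ (e + L.card)) ≤
        δ * (C * (Fintype.card U : ℝ) ^ (L.card + 1) * 2 ^ (e + (L.card + 1))) := by
      refine mul_le_mul_of_nonneg_left ?_ hδ
      refine mul_le_mul ?_ ?_ (by positivity) (by positivity)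
      · refine mul_le_mul_of_nonneg_left ?_ hC
        exact pow_le_pow_right₀ hU' (Nat.le_succ _)
      · exact pow_le_pow_right₀ (by norm_num) (by omega)
    calc |LL L0 (fun ω => f ω * (1 - ∏ p ∈ L, ∑ u, bv F (p.1, u, p.2) ω)) +
          LL L0 (fun ω => (f ω * ∏ p ∈ L, ∑ u, bv F (p.1, u, p.2) ω) * unused F a ω)|
        ≤ _ := abs_add_le _ _
      _ ≤ L.card * (δ * (C * (Fintype.card U : ℝ) ^ L.card * 2 ^ (e + L.card))) +
          δ * (C * (Fintype.card U : ℝ) ^ L.card * 2 ^ (e + L.card)) := add_le_add ih' h3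
      _ = (L.card + 1) * (δ * (C * (Fintype.card U : ℝ) ^ L.card * 2 ^ (e + L.card))) := by ring
      _ ≤ (L.card + 1) * (δ * (C * (Fintype.card U : ℝ) ^ (L.card + 1) *
          2 ^ (e + (L.card + 1)))) := mul_le_mul_of_nonneg_left hX (by positivity)
      _ = _ := by push_cast; ring

/-- Approximate positivity for symmetric coefficient vectors. -/
theorem LL_sq_inv (hB : Base F bg L0 δ d1 D1) (hU : 1 ≤ Fintype.card U) {d : ℕ}
    (hd : 4 * d ≤ d1) (hD : 6 * d ≤ D1) {L : Finset (I × Fin K)} (hL : L.card ≤ d)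
    {w : {A : Finset (BG ⊕ (I × U × Fin K)) // A.card ≤ d} → ℝ} (hw : Inv L w) :
    -(δ * d * (8 * Fintype.card U : ℝ) ^ d) * (∑ A, |w A|) ^ 2 ≤
      LL L0 (fun ω => vv F bg w ω ^ 2) := by
  have hid := lgen_idem F bg hB.hid
  have hδ := hB.hδ
  have hU' : (1 : ℝ) ≤ Fintype.card U := by exact_mod_cast hU
  have h1 := LL_used_nonneg hB hd hw L ∅ (fun p hp => Or.inl hp) (by simpa using hL)
  have h2 := LL_error hB hU ((rep_vv (F := F) (bg := bg) w).sq hid) L (by omega)
  have h3 : (fun ω => vv F bg w ω ^ 2) = (fun ω => vv F bg w ω ^ 2 * mon (bv F) ∅ ω *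
      ∏ p ∈ L, ∑ u, bv F (p.1, u, p.2) ω) +
      (fun ω => vv F bg w ω ^ 2 * (1 - ∏ p ∈ L, ∑ u, bv F (p.1, u, p.2) ω)) := by
    funext ω
    rw [Pi.add_apply]
    simp only [mon, Finset.prod_empty, mul_one]
    ring
  rw [h3, map_add]
  have h4 : L.card * (δ * ((∑ A, |w A|) ^ 2 * (Fintype.card U : ℝ) ^ L.card *
      2 ^ (2 * d + L.card))) ≤ (δ * d * (8 * Fintype.card U : ℝ) ^ d) * (∑ A, |w A|) ^ 2 := by
    have h5 : (L.card : ℝ) ≤ d := by exact_mod_cast hL
    have h6 : (Fintype.card U : ℝ) ^ L.card ≤ (Fintype.card U : ℝ) ^ d :=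
      pow_le_pow_right₀ hU' hL
    have h7 : (2 : ℝ) ^ (2 * d + L.card) ≤ 8 ^ d := by
      calc (2 : ℝ) ^ (2 * d + L.card) ≤ 2 ^ (3 * d) :=
            pow_le_pow_right₀ (by norm_num) (by omega)
        _ = 8 ^ d := by rw [pow_mul]; norm_num
    calc L.card * (δ * ((∑ A, |w A|) ^ 2 * (Fintype.card U : ℝ) ^ L.card *
        2 ^ (2 * d + L.card)))
        ≤ d * (δ * ((∑ A, |w A|) ^ 2 * (Fintype.card U : ℝ) ^ d * 8 ^ d)) := by
          gcongr
      _ = _ := by rw [mul_pow]; ring
  have h8 := (abs_le.mp h2).1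
  linarith

theorem LL_sq_ge (hB : Base F bg L0 δ d1 D1) (hU : 1 ≤ Fintype.card U) {d : ℕ}
    (hd : 4 * d ≤ d1) (hD : 6 * d ≤ D1) {C : ℝ} {f : X × Lab I K → ℝ}
    (hf : Rep (lgen F bg) d C f) :
    -(δ * d * (8 * Fintype.card U : ℝ) ^ d *
      2 ^ Fintype.card (BG ⊕ (I × U × Fin K))) * C ^ 2 ≤ LL L0 (fun ω => f ω ^ 2) := by
  classical
  have hC := hf.nonneg
  have hδ := hB.hδ
  obtain ⟨c, h1, h2, h3⟩ := hf
  set β := {A : Finset (BG ⊕ (I × U × Fin K)) // A.card ≤ d} with hβ
  have hid := lgen_idem F bg hB.hid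
  have hform : ∀ w : β → ℝ, LL L0 (fun ω => vv F bg w ω ^ 2) =
      ∑ A, ∑ B, w A * w B * LL L0 (mon (lgen F bg) (A.1 ∪ B.1)) := by
    intro w
    have h4 : (fun ω => vv F bg w ω ^ 2) =
        ∑ A : β, ∑ B : β, (w A * w B) • mon (lgen F bg) (A.1 ∪ B.1) := by
      funext ω
      simp only [Finset.sum_apply, Pi.smul_apply, smul_eq_mul]
      rw [vv, sq, Finset.sum_mul_sum]
      refine Finset.sum_congr rfl fun A _ => Finset.sum_congr rfl fun B _ => ?_
      rw [← mon_mul_mon hid]
      ring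
    rw [h4, map_sum]
    refine Finset.sum_congr rfl fun A _ => ?_
    rw [map_sum]
    refine Finset.sum_congr rfl fun B _ => ?_
    rw [map_smul, smul_eq_mul]
  let _ := labAct BG I U K
  let _ := cardAct (Lab I K) (BG ⊕ (I × U × Fin K)) d
  have hcardβ : (Fintype.card β : ℝ) ≤ 2 ^ Fintype.card (BG ⊕ (I × U × Fin K)) := by
    have : Fintype.card β ≤ Fintype.card (Finset (BG ⊕ (I × U × Fin K))) :=
      Fintype.card_le_of_injective Subtype.val Subtype.val_injective
    rw [Fintype.card_finset] at this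
    exact_mod_cast this
  set E : ℝ := δ * d * (8 * Fintype.card U : ℝ) ^ d with hE
  have hE0 : 0 ≤ E := by positivity
  have key := sym_form (𝒢 := Lab I K) (β := β)
    (fun A B => LL L0 (mon (lgen F bg) (A.1 ∪ B.1))) ?_ ?_
    (E * 2 ^ Fintype.card (BG ⊕ (I × U × Fin K))) ?_ (fun A => c A.1)
  · rw [← hform] at key
    have h4 : (fun ω => vv F bg (fun A : β => c A.1) ω ^ 2) = fun ω => f ω ^ 2 := by
      funext ω
      congr 1
      rw [h3 ω, vv]
      rw [← Finset.sum_subtype (s := univ.filter fun A : Finset (BG ⊕ (I × U × Fin K)) =>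
        A.card ≤ d) (f := fun A => c A * mon (lgen F bg) A ω) (by simp), Finset.sum_filter]
      refine Finset.sum_congr rfl fun A _ => ?_
      split_ifs with hA
      · rfl
      · rw [h1 A (not_le.mp hA), zero_mul]
    rw [h4] at key
    refine le_trans ?_ key
    have h5 : ∑ A : β, c A.1 ^ 2 ≤ C ^ 2 := by
      have h6 : ∑ A : β, |c A.1| ≤ C := by
        refine le_trans ?_ h2
        rw [← Finset.sum_subtype (s := univ.filter fun A : Finset (BG ⊕ (I × U × Fin K)) =>
          A.card ≤ d) (f := fun A => |c A|) (by simp)]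
        exact Finset.sum_le_sum_of_subset_of_nonneg (Finset.filter_subset _ _)
          fun _ _ _ => abs_nonneg _
      calc ∑ A : β, c A.1 ^ 2 = ∑ A : β, |c A.1| ^ 2 := by simp
        _ ≤ (∑ A : β, |c A.1|) ^ 2 := Finset.sum_sq_le_sq_sum_of_nonneg fun _ _ => abs_nonneg _
        _ ≤ C ^ 2 := by
          have : 0 ≤ ∑ A : β, |c A.1| := Finset.sum_nonneg fun _ _ => abs_nonneg _
          gcongr
    have h7 : 0 ≤ E * 2 ^ Fintype.card (BG ⊕ (I × U × Fin K)) := by positivity
    nlinarith [mul_le_mul_of_nonneg_left h5 h7]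
  · intro A B
    rw [Finset.union_comm]
  · intro τ A B
    have h4 : (τ • A).1 ∪ (τ • B).1 =
        (A.1 ∪ B.1).image (fun g => (labAct BG I U K).smul τ g) := by
      rw [Finset.image_union]
      rfl
    change LL L0 (mon (lgen F bg) ((τ • A).1 ∪ (τ • B).1)) = _
    rw [h4, LL_mon_act]
  · intro b0 w hw
    rw [← hform]
    set L : Finset (I × Fin K) := b0.1.toRight.image fun e => (e.1, e.2.2) with hLdef
    have hL : L.card ≤ d := Finset.card_image_le.trans (Finset.card_toRight_le.trans b0.2)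
    have hinv : Inv L w := by
      intro τ hτ A B hB'
      have h4 : τ • b0 = b0 := by
        apply Subtype.ext
        change b0.1.image (fun g => (labAct BG I U K).smul τ g) = b0.1
        conv_rhs => rw [← Finset.image_id (s := b0.1)]
        refine Finset.image_congr fun g hg => ?_
        rcases g with b | ⟨i, u, l⟩
        · rfl
        · change Sum.inr (i, u, τ i l) = Sum.inr (i, u, l)
          have h5 : (i, l) ∈ L := Finset.mem_image.mpr
            ⟨(i, u, l), Finset.mem_toRight.mpr hg, rfl⟩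
          have h6 := hτ (i, l) h5
          dsimp only at h6
          rw [h6]
      have h5 : B = τ • A := Subtype.ext hB'
      rw [h5]
      exact hw τ h4 A
    have h4 := LL_sq_inv hB hU hd hD hL hinv
    refine le_trans ?_ h4
    have h5 : (∑ A : β, |w A|) ^ 2 ≤ Fintype.card β * ∑ A : β, w A ^ 2 := by
      have := sq_sum_le_card_mul_sum_sq (s := (Finset.univ : Finset β)) (f := fun A => |w A|)
      simpa using this
    have h6 : 0 ≤ ∑ A : β, w A ^ 2 := Finset.sum_nonneg fun _ _ => sq_nonneg _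
    have h7 : (∑ A : β, |w A|) ^ 2 ≤
        2 ^ Fintype.card (BG ⊕ (I × U × Fin K)) * ∑ A : β, w A ^ 2 :=
      h5.trans (mul_le_mul_of_nonneg_right hcardβ h6)
    nlinarith [mul_le_mul_of_nonneg_left h7 hE0]

end

end Pool.Agent.Helper81_Sos
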