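import Mathlib
import Pool.Agent.Helper81_Sos.Lift
import Pool.Agent.Helper81_Sos.Rep

/-!
Random restrictions of lifted formulas kill all wide monomials, and the remaining polynomials are
low-degree functions of the base assignment.
-/

namespace Pool.Agent.Helper81_Sos

set_option linter.unusedSectionVars false

open MvPolynomial Finset

section

variable {V : Type} [Fintype V] [DecidableEq V]

/-- Monomials in the lifted twin variables. -/
abbrev LMon (V : Type) : Type := ((V × Bool) × Bool) →₀ ℕ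

/-- The base variables touched by a monomial. -/
def touched (m : LMon V) : Finset V := m.support.image fun w => w.1.1

/-- The restriction makes the monomial zero. -/
def killed (ρ : V → Bool × Bool) (m : LMon V) : Prop :=
  ∃ w ∈ m.support, w.1.2 = (ρ w.1.1).1 ∧ w.2 ≠ (ρ w.1.1).2

theorem card_avoid (T : Finset V) (bad : V → Bool × Bool) :
    (univ.filter fun ρ : V → Bool × Bool => ∀ y ∈ T, ρ y ≠ bad y).card * 4 ^ T.card =
      3 ^ T.card * 4 ^ Fintype.card V := by
  classical
  have h1 : (univ.filter fun ρ : V → Bool × Bool => ∀ y ∈ T, ρ y ≠ bad y) =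
      Fintype.piFinset fun y => if y ∈ T then univ.erase (bad y) else univ := by
    ext ρ
    simp only [Finset.mem_filter, Finset.mem_univ, true_and, Fintype.mem_piFinset]
    refine forall_congr' fun y => ?_
    split_ifs with h <;> simp [h]
  rw [h1, Fintype.card_piFinset]
  have h2 : ∀ y, (if y ∈ T then (univ : Finset (Bool × Bool)).erase (bad y) else univ).card =
      if y ∈ T then 3 else 4 := by
    intro y
    split_ifs
    · rw [Finset.card_erase_of_mem (Finset.mem_univ _)]
      simp
    · simp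
  simp only [h2]
  rw [Finset.prod_ite, Finset.prod_const, Finset.prod_const]
  have h3 : (univ.filter fun y => y ∈ T) = T := by simp
  have h4 : (univ.filter fun y => ¬ y ∈ T).card = Fintype.card V - T.card := by
    rw [show (univ.filter fun y => ¬ y ∈ T) = Tᶜ by ext; simp, Finset.card_compl]
  rw [h3, h4, mul_assoc, ← pow_add]
  congr 2
  have := Finset.card_le_univ T
  omega

theorem exists_restriction (M : Finset (LMon V)) (D : ℕ) (h : M.card * 3 ^ D < 4 ^ D) :
    ∃ ρ : V → Bool × Bool, ∀ m ∈ M, D ≤ (touched m).card → killed ρ m := by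
  classical
  by_contra hcon
  push Not at hcon
  set B : LMon V → Finset (V → Bool × Bool) := fun m => univ.filter fun ρ => ¬ killed ρ m with hB
  have h1 : (univ : Finset (V → Bool × Bool)) ⊆
      (M.filter fun m => D ≤ (touched m).card).biUnion B := by
    intro ρ _
    obtain ⟨m, hm, hD, hk⟩ := hcon ρ
    exact Finset.mem_biUnion.mpr ⟨m, Finset.mem_filter.mpr ⟨hm, hD⟩,
      Finset.mem_filter.mpr ⟨Finset.mem_univ _, hk⟩⟩
  have h2 : ∀ m ∈ M.filter fun m => D ≤ (touched m).card,
      (B m).card * 4 ^ D ≤ 3 ^ D * 4 ^ Fintype.card V := by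
    intro m hm
    obtain ⟨-, hD⟩ := Finset.mem_filter.mp hm
    obtain ⟨T, hT, hTD⟩ := Finset.exists_subset_card_eq hD
    have h3 : ∀ y : V, ∃ q : Bool × Bool, y ∈ T → ∃ w ∈ m.support, w.1.1 = y ∧ w.1.2 = q.1 ∧
        w.2 ≠ q.2 := by
      intro y
      by_cases hy : y ∈ T
      · obtain ⟨w, hw, hwy⟩ := Finset.mem_image.mp (hT hy)
        exact ⟨(w.1.2, !w.2), fun _ => ⟨w, hw, hwy, rfl, by simp⟩⟩
      · exact ⟨(true, true), fun h => absurd h hy⟩
    choose bad hbad using h3
    have h4 : B m ⊆ univ.filter fun ρ : V → Bool × Bool => ∀ y ∈ T, ρ y ≠ bad y := by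
      intro ρ hρ
      obtain ⟨-, hk⟩ := Finset.mem_filter.mp hρ
      refine Finset.mem_filter.mpr ⟨Finset.mem_univ _, fun y hy heq => ?_⟩
      obtain ⟨w, hw, h5, h6, h7⟩ := hbad y hy
      apply hk
      refine ⟨w, hw, ?_, ?_⟩
      · rw [h5, heq, h6]
      · rw [h5, heq]
        exact h7
    calc (B m).card * 4 ^ D ≤
        (univ.filter fun ρ : V → Bool × Bool => ∀ y ∈ T, ρ y ≠ bad y).card * 4 ^ D :=
          Nat.mul_le_mul_right _ (Finset.card_le_card h4)
      _ = 3 ^ D * 4 ^ Fintype.card V := by rw [← hTD]; exact card_avoid T bad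
  have h5 : Fintype.card (V → Bool × Bool) * 4 ^ D ≤ M.card * (3 ^ D * 4 ^ Fintype.card V) := by
    calc Fintype.card (V → Bool × Bool) * 4 ^ D
        ≤ ((M.filter fun m => D ≤ (touched m).card).biUnion B).card * 4 ^ D := by
          refine Nat.mul_le_mul_right _ ?_
          rw [← Finset.card_univ]
          exact Finset.card_le_card h1
      _ ≤ (∑ m ∈ M.filter fun m => D ≤ (touched m).card, (B m).card) * 4 ^ D :=
          Nat.mul_le_mul_right _ Finset.card_biUnion_le
      _ = ∑ m ∈ M.filter fun m => D ≤ (touched m).card, (B m).card * 4 ^ D := Finset.sum_mul ..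
      _ ≤ ∑ _m ∈ M.filter fun m => D ≤ (touched m).card, 3 ^ D * 4 ^ Fintype.card V :=
          Finset.sum_le_sum h2
      _ = (M.filter fun m => D ≤ (touched m).card).card * (3 ^ D * 4 ^ Fintype.card V) := by
          rw [Finset.sum_const, smul_eq_mul]
      _ ≤ M.card * (3 ^ D * 4 ^ Fintype.card V) :=
          Nat.mul_le_mul_right _ (Finset.card_filter_le _ _)
  rw [Fintype.card_fun] at h5
  have h6 : Fintype.card (Bool × Bool) = 4 := by simp
  rw [h6] at h5
  have h7 : 4 ^ Fintype.card V * 4 ^ D ≤ 4 ^ Fintype.card V * (M.card * 3 ^ D) := by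
    calc 4 ^ Fintype.card V * 4 ^ D ≤ M.card * (3 ^ D * 4 ^ Fintype.card V) := h5
      _ = _ := by ring
  have h8 := Nat.le_of_mul_le_mul_left h7 (by positivity)
  omega

/-- The literal functions. -/
noncomputable def litg {Ω : Type} (asg : Ω → V → Bool) (g : V × Bool) (ω : Ω) : ℝ :=
  if asg ω g.1 = g.2 then 1 else 0

theorem litg_idem {Ω : Type} (asg : Ω → V → Bool) (g : V × Bool) (ω : Ω) :
    litg asg g ω * litg asg g ω = litg asg g ω := by
  unfold litg
  split_ifs <;> simp

/-- A lifted twin variable becomes a literal or a constant. -/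
theorem rep_pt {Ω : Type} (asg : Ω → V → Bool) (ρ : V → Bool × Bool) (w : (V × Bool) × Bool) :
    Rep (litg asg) 1 1 (fun ω => pt (liftAsg ρ (asg ω)) w) := by
  obtain ⟨⟨y, c⟩, b⟩ := w
  by_cases hc : c = (ρ y).1
  · by_cases hb : (ρ y).2 = b
    · refine ((rep_const (gen := litg asg) 1).mono (Nat.zero_le 1) (by simp)).congr fun ω => ?_
      simp [pt, liftAsg, hc, hb]
    · refine ((rep_zero (gen := litg asg) 1).mono le_rfl zero_le_one).congr fun ω => ?_
      simp [pt, liftAsg, hc, hb]
  · refine (rep_gen (gen := litg asg) (y, xor b (ρ y).2)).congr fun ω => ?_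
    unfold litg pt liftAsg
    dsimp only
    rw [if_neg hc]
    refine if_congr ?_ rfl rfl
    cases asg ω y <;> cases (ρ y).2 <;> cases b <;> simp

theorem card_support_le (m : LMon V) : m.support.card ≤ 4 * (touched m).card := by
  have h1 : m.support ⊆ ((touched m) ×ˢ (univ : Finset Bool)) ×ˢ (univ : Finset Bool) := by
    intro w hw
    rw [Finset.mem_product, Finset.mem_product]
    exact ⟨⟨Finset.mem_image.mpr ⟨w, hw, rfl⟩, Finset.mem_univ _⟩, Finset.mem_univ _⟩
  have h2 := Finset.card_le_card h1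
  rw [Finset.card_product, Finset.card_product] at h2
  simp only [Finset.card_univ, Fintype.card_bool] at h2
  omega

theorem abs_le_ratBits (q : ℚ) : |(q : ℝ)| ≤ 2 ^ ratBits q - 1 := by
  have h1 : |(q : ℝ)| ≤ (q.num.natAbs : ℝ) := by
    have h2 : (q : ℝ) = (q.num : ℝ) / (q.den : ℝ) := by exact_mod_cast (Rat.num_div_den q).symm
    have h5 : (q.num.natAbs : ℝ) = |(q.num : ℝ)| := by rw [Nat.cast_natAbs, Int.cast_abs]
    rw [h2, abs_div, Nat.abs_cast, h5]
    have h3 : (1 : ℝ) ≤ (q.den : ℝ) := by exact_mod_cast q.pos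
    rw [div_le_iff₀ (by linarith)]
    nlinarith [abs_nonneg (q.num : ℝ)]
  refine h1.trans ?_
  have h2 : q.num.natAbs < 2 ^ Nat.size q.num.natAbs := Nat.lt_size_self _
  have h3 : 2 ^ Nat.size q.num.natAbs ≤ 2 ^ ratBits q :=
    Nat.pow_le_pow_right (by norm_num) (Nat.le_add_right _ _)
  have h4 : q.num.natAbs + 1 ≤ 2 ^ ratBits q := by omega
  have h5 : ((q.num.natAbs : ℝ) + 1) ≤ 2 ^ ratBits q := by exact_mod_cast h4
  linarith

theorem sum_abs_le_bits {σ : Type} (p : MvPolynomial σ ℚ) (S : Finset (σ →₀ ℕ)) :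
    ∑ m ∈ S, |((p.coeff m : ℚ) : ℝ)| ≤ 2 ^ (∑ m ∈ S, ratBits (p.coeff m)) - 1 := by
  classical
  induction S using Finset.induction_on with
  | empty => simp
  | insert a S ha ih =>
    rw [Finset.sum_insert ha, Finset.sum_insert ha]
    have h1 := ih
    have h2 := abs_le_ratBits (p.coeff a)
    rw [pow_add]
    have h3 : (1 : ℝ) ≤ 2 ^ ratBits (p.coeff a) := one_le_pow₀ (by norm_num)
    have h4 : (1 : ℝ) ≤ 2 ^ ∑ m ∈ S, ratBits (p.coeff m) := one_le_pow₀ (by norm_num)
    nlinarith

theorem sum_abs_coeff_le (p : Poly V) :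
    ∑ m ∈ p.support, |((p.coeff m : ℚ) : ℝ)| ≤ 2 ^ polyBits p - 1 :=
  sum_abs_le_bits p p.support

theorem card_support_le_bits (p : Poly V) : p.support.card ≤ polyBits p := by
  unfold polyBits
  rw [Finset.card_eq_sum_ones]
  refine Finset.sum_le_sum fun m hm => ?_
  unfold ratBits
  have : 0 < Nat.size (p.coeff m).den := Nat.size_pos.mpr (p.coeff m).pos
  omega

/-- A polynomial whose monomials are narrow or killed becomes a low-degree function. -/
theorem rep_eval {Ω : Type} (asg : Ω → V → Bool) (ρ : V → Bool × Bool) (p : Poly (V × Bool))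
    (D : ℕ) (h : ∀ m ∈ p.support, D ≤ (touched m).card → killed ρ m) :
    Rep (litg asg) (4 * D) (2 ^ polyBits p - 1) (fun ω => aeval (pt (liftAsg ρ (asg ω))) p) := by
  have h1 : ∀ m ∈ p.support, Rep (litg asg) (4 * D) |((p.coeff m : ℚ) : ℝ)|
      (fun ω => ((p.coeff m : ℚ) : ℝ) * ∏ w ∈ m.support, pt (liftAsg ρ (asg ω)) w ^ m w) := by
    intro m hm
    by_cases hD : D ≤ (touched m).card
    · obtain ⟨w, hw, h2, h3⟩ := h m hm hD
      refine ((rep_zero (gen := litg asg) (4 * D)).mono le_rfl (abs_nonneg _)).congr fun ω => ?_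
      rw [Finset.prod_eq_zero hw, mul_zero]
      have h4 : pt (liftAsg ρ (asg ω)) w = 0 := by
        unfold pt liftAsg
        rw [if_pos h2, if_neg (Ne.symm h3)]
      rw [h4, zero_pow (Finsupp.mem_support_iff.mp hw)]
    · have h2 := (Rep.prod_const (litg_idem asg) m.support 1 1
        (fun w ω => pt (liftAsg ρ (asg ω)) w) fun w _ => rep_pt asg ρ w).smul
        ((p.coeff m : ℚ) : ℝ)
      rw [one_pow, mul_one, mul_one] at h2
      refine (h2.mono ?_ le_rfl).congr fun ω => ?_
      · have := card_support_le m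
        omega
      · congr 1
        refine Finset.prod_congr rfl fun w hw => ?_
        have h3 : m w ≠ 0 := Finsupp.mem_support_iff.mp hw
        unfold pt
        split_ifs
        · simp
        · rw [zero_pow h3]
  have h2 := Rep.sum p.support _ _ h1
  refine (h2.mono le_rfl (sum_abs_coeff_le p)).congr fun ω => ?_
  rw [aeval_def, eval₂_eq]
  rfl

end

end Pool.Agent.Helper81_Sos
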