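import Mathlib
import Pool.Agent.Helper81_Sos.Restrict

/-!
From an approximate pseudo-expectation for the base constraints to a lower bound on the bit size
of sum-of-squares refutations of the lifted CNF.
-/

namespace Pool.Agent.Helper81_Sos

set_option linter.unusedSectionVars false

open MvPolynomial Finset

section

variable {V J Ω : Type} [Fintype V] [DecidableEq V] [Fintype J]

/-- An approximate pseudo-expectation of degree `D'` and precision `ε` for a family of local
constraints. -/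
structure PE (con : J → Con V) (asg : Ω → V → Bool) (Lf : (Ω → ℝ) →ₗ[ℝ] ℝ) (D' : ℕ) (ε : ℝ) :
    Prop where
  one : Lf (fun _ => 1) = 1
  eps : 0 ≤ ε
  psd : ∀ (f : Ω → ℝ) (C : ℝ), Rep (litg asg) D' C f → -ε * C ^ 2 ≤ Lf (fun ω => f ω ^ 2)
  con : ∀ (j : J) (val : Fin (con j).r → Bool), (con j).ok val = false →
    ∀ (f : Ω → ℝ) (C : ℝ), Rep (litg asg) D' C f →
    |Lf (fun ω => f ω * (if ∀ i, asg ω ((con j).vars i) = val i then 1 else 0))| ≤ ε * C

variable {con : J → Con V} {asg : Ω → V → Bool} {Lf : (Ω → ℝ) →ₗ[ℝ] ℝ} {D' : ℕ} {ε : ℝ}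

theorem PE.clause (h : PE con asg Lf D' ε) (hinj : ∀ j, Function.Injective (con j).vars)
    (ρ : V → Bool × Bool) {c : Clause (V × Bool)} (hc : c ∈ liftCNF con) {f : Ω → ℝ} {C : ℝ}
    (hf : Rep (litg asg) D' C f) :
    |Lf (fun ω => f ω * aeval (pt (liftAsg ρ (asg ω))) c.poly)| ≤ ε * C := by
  obtain ⟨j, b, hok, rfl⟩ := mem_liftCNF.mp hc
  obtain ⟨z, hz, hz'⟩ := aeval_exclClause (hinj j) b ρ
  have h1 := h.con j _ hok f C hf
  have h2 : (fun ω => f ω * aeval (pt (liftAsg ρ (asg ω))) (exclClause (con j).vars b).poly) =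
      z • fun ω => f ω * (if ∀ i, asg ω ((con j).vars i) = xor (b i false) (b i true)
        then 1 else 0) := by
    funext ω
    rw [hz', Pi.smul_apply, smul_eq_mul]
    ring
  rw [h2, map_smul, smul_eq_mul, abs_mul]
  rcases hz with rfl | rfl
  · rw [abs_zero, zero_mul]
    exact mul_nonneg h.eps hf.nonneg
  · rw [abs_one, one_mul]
    exact h1

theorem exists_union (l : List (Poly (V × Bool))) :
    ∃ M : Finset (LMon V), (∀ p ∈ l, p.support ⊆ M) ∧ M.card ≤ (l.map polyBits).sum := by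
  induction l with
  | nil => exact ⟨∅, by simp, by simp⟩
  | cons p l ih =>
    obtain ⟨M, h1, h2⟩ := ih
    refine ⟨p.support ∪ M, ?_, ?_⟩
    · intro q hq
      rcases List.mem_cons.mp hq with rfl | hq
      · exact Finset.subset_union_left
      · exact (h1 q hq).trans Finset.subset_union_right
    · rw [List.map_cons, List.sum_cons]
      exact (Finset.card_union_le _ _).trans (Nat.add_le_add (card_support_le_bits p) h2)

theorem Lf_squares (h : PE con asg Lf D' ε) {D : ℕ} (hD : 4 * D ≤ D') (ρ : V → Bool × Bool)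
    (l : List (Poly (V × Bool)))
    (hl : ∀ p ∈ l, ∀ m ∈ p.support, D ≤ (touched m).card → killed ρ m) :
    -ε * (2 ^ (l.map polyBits).sum - 1) ^ 2 ≤
      Lf (fun ω => (l.map fun r => (aeval (pt (liftAsg ρ (asg ω))) r : ℝ) ^ 2).sum) := by
  induction l with
  | nil =>
    simp only [List.map_nil, List.sum_nil, pow_zero, sub_self]
    have : (fun _ : Ω => (0 : ℝ)) = 0 := rfl
    rw [this, map_zero]
    simp
  | cons p l ih =>
    have h1 := ih fun q hq => hl q (List.mem_cons_of_mem _ hq)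
    have h2 := h.psd _ _ ((rep_eval asg ρ p D (hl p List.mem_cons_self)).mono hD le_rfl)
    have h3 : (fun ω => ((p :: l).map fun r =>
        (aeval (pt (liftAsg ρ (asg ω))) r : ℝ) ^ 2).sum) =
        (fun ω => (aeval (pt (liftAsg ρ (asg ω))) p : ℝ) ^ 2) +
        fun ω => (l.map fun r => (aeval (pt (liftAsg ρ (asg ω))) r : ℝ) ^ 2).sum := by
      funext ω
      rw [Pi.add_apply, List.map_cons, List.sum_cons]
    rw [h3, map_add, List.map_cons, List.sum_cons, pow_add]
    set A : ℝ := 2 ^ polyBits p with hA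
    set B : ℝ := 2 ^ (l.map polyBits).sum with hB
    have hA1 : 1 ≤ A := one_le_pow₀ (by norm_num)
    have hB1 : 1 ≤ B := one_le_pow₀ (by norm_num)
    have h4 : (A - 1) ^ 2 + (B - 1) ^ 2 ≤ (A * B - 1) ^ 2 := by
      have h5 : A * B - 1 = (A - 1) * (B - 1) + ((A - 1) + (B - 1)) := by ring
      rw [h5]
      have ha : 0 ≤ A - 1 := by linarith
      have hb : 0 ≤ B - 1 := by linarith
      have hab := mul_nonneg ha hb
      nlinarith [mul_nonneg hab ha, mul_nonneg hab hb, mul_nonneg hab hab]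
    have h6 := mul_le_mul_of_nonneg_left h4 h.eps
    linarith

theorem Lf_clauses (h : PE con asg Lf D' ε) (hinj : ∀ j, Function.Injective (con j).vars)
    {D : ℕ} (hD : 4 * D ≤ D') (ρ : V → Bool × Bool)
    (t : Clause (V × Bool) → Poly (V × Bool)) (S : Finset (Clause (V × Bool)))
    (hS : S ⊆ liftCNF con)
    (ht : ∀ c ∈ S, ∀ m ∈ (t c).support, D ≤ (touched m).card → killed ρ m) :
    |Lf (fun ω => ∑ c ∈ S, (aeval (pt (liftAsg ρ (asg ω))) (t c) : ℝ) *
      aeval (pt (liftAsg ρ (asg ω))) c.poly)| ≤ ε * (2 ^ (∑ c ∈ S, polyBits (t c)) - 1) := by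
  classical
  induction S using Finset.induction_on with
  | empty =>
    simp only [Finset.sum_empty, pow_zero, sub_self, mul_zero]
    have : (fun _ : Ω => (0 : ℝ)) = 0 := rfl
    rw [this, map_zero, abs_zero]
  | insert c S hc ih =>
    have h1 := ih (fun x hx => hS (Finset.mem_insert_of_mem hx))
      fun x hx => ht x (Finset.mem_insert_of_mem hx)
    have h2 := h.clause hinj ρ (hS (Finset.mem_insert_self c S))
      ((rep_eval asg ρ (t c) D (ht c (Finset.mem_insert_self c S))).mono hD le_rfl)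
    have h3 : (fun ω => ∑ c ∈ insert c S, (aeval (pt (liftAsg ρ (asg ω))) (t c) : ℝ) *
      aeval (pt (liftAsg ρ (asg ω))) c.poly) =
      (fun ω => (aeval (pt (liftAsg ρ (asg ω))) (t c) : ℝ) *
        aeval (pt (liftAsg ρ (asg ω))) c.poly) +
      fun ω => ∑ c ∈ S, (aeval (pt (liftAsg ρ (asg ω))) (t c) : ℝ) *
        aeval (pt (liftAsg ρ (asg ω))) c.poly := by
      funext ω
      rw [Pi.add_apply, Finset.sum_insert hc]
    rw [h3, map_add, Finset.sum_insert hc, pow_add]
    refine (abs_add_le _ _).trans ?_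
    have hA1 : (1 : ℝ) ≤ 2 ^ polyBits (t c) := one_le_pow₀ (by norm_num)
    have hB1 : (1 : ℝ) ≤ 2 ^ ∑ c ∈ S, polyBits (t c) := one_le_pow₀ (by norm_num)
    have h4 : (2 ^ polyBits (t c) - 1 : ℝ) + (2 ^ (∑ c ∈ S, polyBits (t c)) - 1) ≤
        2 ^ polyBits (t c) * 2 ^ (∑ c ∈ S, polyBits (t c)) - 1 := by nlinarith
    have h5 := mul_le_mul_of_nonneg_left h4 h.eps
    linarith

/-- A short refutation with small coefficients contradicts a precise pseudo-expectation. -/
theorem sos_lower (h : PE con asg Lf D' ε) (hinj : ∀ j, Function.Injective (con j).vars)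
    {D : ℕ} (hD : 4 * D ≤ D') (π : SOSRefutation (liftCNF con))
    (hB : π.bits * 3 ^ D < 4 ^ D) : 1 ≤ ε * 2 ^ (2 * π.bits + 1) := by
  classical
  obtain ⟨M1, hM1, hM1c⟩ := exists_union π.squares
  set M2 : Finset (LMon V) := (liftCNF con).biUnion fun c => (π.t c).support with hM2
  have hM2c : M2.card ≤ ∑ c ∈ liftCNF con, polyBits (π.t c) :=
    Finset.card_biUnion_le.trans (Finset.sum_le_sum fun c _ => card_support_le_bits _)
  have hcard : (M1 ∪ M2).card ≤ π.bits := by
    refine (Finset.card_union_le _ _).trans ?_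
    unfold SOSRefutation.bits
    omega
  obtain ⟨ρ, hρ⟩ := exists_restriction (M1 ∪ M2) D
    (lt_of_le_of_lt (Nat.mul_le_mul_right _ hcard) hB)
  have h1 := Lf_squares h hD ρ π.squares fun p hp m hm =>
    hρ m (Finset.mem_union_left _ (hM1 p hp hm))
  have h2 := Lf_clauses h hinj hD ρ π.t (liftCNF con) subset_rfl fun c hc m hm =>
    hρ m (Finset.mem_union_right _ (Finset.mem_biUnion.mpr ⟨c, hc, hm⟩))
  have h3 : (fun _ : Ω => (-1 : ℝ)) =
      (fun ω => (π.squares.map fun r => (aeval (pt (liftAsg ρ (asg ω))) r : ℝ) ^ 2).sum) +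
      fun ω => ∑ c ∈ liftCNF con, (aeval (pt (liftAsg ρ (asg ω))) (π.t c) : ℝ) *
        aeval (pt (liftAsg ρ (asg ω))) c.poly := by
    funext ω
    have h4 := congrArg (aeval (pt (liftAsg ρ (asg ω))) : Poly (V × Bool) → ℝ) π.identity
    rw [map_neg, map_one, map_add, map_add, map_list_sum, map_sum, map_sum] at h4
    rw [h4, Pi.add_apply]
    have h5 : ∑ x, (aeval (pt (liftAsg ρ (asg ω))) (π.u x * boolAx x + π.w x * twinAx x) : ℝ)
        = 0 := by
      refine Finset.sum_eq_zero fun x _ => ?_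
      rw [map_add, map_mul, map_mul, aeval_boolAx, aeval_twinAx]
      ring
    rw [h5, add_zero]
    congr 1
    · rw [List.map_map]
      congr 1
      refine List.map_congr_left fun r _ => ?_
      rw [Function.comp_apply, map_pow]
    · exact Finset.sum_congr rfl fun c _ => map_mul _ _ _
  have h6 := congrArg Lf h3
  rw [map_add] at h6
  have h7 : Lf (fun _ : Ω => (-1 : ℝ)) = -1 := by
    have : (fun _ : Ω => (-1 : ℝ)) = (-1 : ℝ) • fun _ => (1 : ℝ) := by
      funext ω
      simp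
    rw [this, map_smul, h.one]
    simp
  rw [h7] at h6
  have h8 := (abs_le.mp h2).1
  have hb1 : (π.squares.map polyBits).sum ≤ π.bits := by
    unfold SOSRefutation.bits
    omega
  have hb2 : ∑ c ∈ liftCNF con, polyBits (π.t c) ≤ π.bits := by
    unfold SOSRefutation.bits
    omega
  have hA1 : (1 : ℝ) ≤ 2 ^ (π.squares.map polyBits).sum := one_le_pow₀ (by norm_num)
  have hA2 : (2 : ℝ) ^ (π.squares.map polyBits).sum ≤ 2 ^ π.bits :=
    pow_le_pow_right₀ (by norm_num) hb1
  have hA3 : (2 : ℝ) ^ (∑ c ∈ liftCNF con, polyBits (π.t c)) ≤ 2 ^ π.bits :=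
    pow_le_pow_right₀ (by norm_num) hb2
  have hA4 : (1 : ℝ) ≤ 2 ^ π.bits := one_le_pow₀ (by norm_num)
  have h9 : ((2 : ℝ) ^ (π.squares.map polyBits).sum - 1) ^ 2 +
      (2 ^ (∑ c ∈ liftCNF con, polyBits (π.t c)) - 1) ≤ 2 ^ (2 * π.bits + 1) := by
    have e1 : (2 : ℝ) ^ (2 * π.bits + 1) = 2 * (2 ^ π.bits * 2 ^ π.bits) := by
      rw [pow_succ, two_mul, pow_add]
      ring
    rw [e1]
    nlinarith
  have h10 := mul_le_mul_of_nonneg_left h9 h.eps
  linarith

end

end Pool.Agent.Helper81_Sos
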