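import Mathlib
import Pool.Agent.Helper81_Sos.LowerSos

/-!
From an approximate pseudo-expectation for the base constraints to a lower bound on the bit size
of PCR refutations of the lifted CNF.
-/

namespace Pool.Agent.Helper81_Sos

set_option linter.unusedSectionVars false

open MvPolynomial Finset

/-! ### Scalars of linear combinations -/

theorem ratBits_den (q : ℚ) : (q.den : ℝ) ≤ 2 ^ ratBits q := by
  have h2 : q.den < 2 ^ Nat.size q.den := Nat.lt_size_self _
  have h3 : 2 ^ Nat.size q.den ≤ 2 ^ ratBits q :=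
    Nat.pow_le_pow_right (by norm_num) (Nat.le_add_left _ _)
  have h4 : q.den ≤ 2 ^ ratBits q := by omega
  exact_mod_cast h4

theorem abs_coeff_le {V : Type} {p : Poly V} {B : ℕ} (hp : polyBits p ≤ B) (m : (V × Bool) →₀ ℕ) :
    |((p.coeff m : ℚ) : ℝ)| ≤ 2 ^ B := by
  by_cases hm : m ∈ p.support
  · have h1 : ratBits (p.coeff m) ≤ polyBits p :=
      Finset.single_le_sum (f := fun m => ratBits (p.coeff m)) (fun _ _ => Nat.zero_le _) hm
    have h2 := abs_le_ratBits (p.coeff m)
    have h3 : (2 : ℝ) ^ ratBits (p.coeff m) ≤ 2 ^ B :=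
      pow_le_pow_right₀ (by norm_num) (h1.trans hp)
    linarith
  · rw [MvPolynomial.notMem_support_iff.mp hm]
    simp

theorem den_coeff_le {V : Type} {p : Poly V} {B : ℕ} (hp : polyBits p ≤ B) (m : (V × Bool) →₀ ℕ) :
    ((p.coeff m).den : ℝ) ≤ 2 ^ B := by
  by_cases hm : m ∈ p.support
  · have h1 : ratBits (p.coeff m) ≤ polyBits p :=
      Finset.single_le_sum (f := fun m => ratBits (p.coeff m)) (fun _ _ => Nat.zero_le _) hm
    exact (ratBits_den _).trans (pow_le_pow_right₀ (by norm_num) (h1.trans hp))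
  · rw [MvPolynomial.notMem_support_iff.mp hm]
    simp only [Rat.den_zero, Nat.cast_one]
    exact one_le_pow₀ (by norm_num)

theorem one_le_abs_mul_den {q : ℚ} (hq : q ≠ 0) {N : ℝ} (hN : (q.den : ℝ) ≤ N) :
    1 ≤ |(q : ℝ)| * N := by
  have h1 : (q : ℝ) = (q.num : ℝ) / (q.den : ℝ) := by exact_mod_cast (Rat.num_div_den q).symm
  have h2 : (0 : ℝ) < (q.den : ℝ) := by exact_mod_cast q.pos
  have h3 : (1 : ℝ) ≤ |(q.num : ℝ)| := by
    have : 1 ≤ |q.num| := Int.one_le_abs (Rat.num_ne_zero.mpr hq)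
    exact_mod_cast this
  have h4 : |(q : ℝ)| * q.den = |(q.num : ℝ)| := by
    rw [h1, abs_div, Nat.abs_cast]
    field_simp
  calc (1 : ℝ) ≤ |(q.num : ℝ)| := h3
    _ = |(q : ℝ)| * q.den := h4.symm
    _ ≤ |(q : ℝ)| * N := mul_le_mul_of_nonneg_left hN (abs_nonneg _)

theorem scalar_from_one {V : Type} {p q : Poly V} {B : ℕ} (hp : polyBits p ≤ B)
    (hq : polyBits q ≤ B) {a : ℚ} (h : p = C a * q) (hq0 : q ≠ 0) :
    |(a : ℝ)| ≤ 2 ^ (6 * B + 1) := by
  obtain ⟨m, hm⟩ := MvPolynomial.support_nonempty.mpr hq0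
  have hqm : q.coeff m ≠ 0 := MvPolynomial.mem_support_iff.mp hm
  have h1 : p.coeff m = a * q.coeff m := by rw [h, coeff_C_mul]
  have h2 : ((p.coeff m : ℚ) : ℝ) = (a : ℝ) * ((q.coeff m : ℚ) : ℝ) := by
    rw [h1]
    push_cast
    ring
  have h3 := one_le_abs_mul_den hqm (den_coeff_le hq m)
  have h4 := abs_coeff_le hp m
  rw [h2, abs_mul] at h4
  have h5 : |(a : ℝ)| ≤ 2 ^ B * 2 ^ B := by
    calc |(a : ℝ)| = |(a : ℝ)| * 1 := (mul_one _).symm
      _ ≤ |(a : ℝ)| * (|((q.coeff m : ℚ) : ℝ)| * 2 ^ B) :=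
          mul_le_mul_of_nonneg_left h3 (abs_nonneg _)
      _ = (|(a : ℝ)| * |((q.coeff m : ℚ) : ℝ)|) * 2 ^ B := by ring
      _ ≤ 2 ^ B * 2 ^ B := mul_le_mul_of_nonneg_right h4 (by positivity)
  refine h5.trans ?_
  rw [← pow_add]
  exact pow_le_pow_right₀ (by norm_num) (by omega)

theorem scalar_bound {V : Type} {p q r : Poly V} {B : ℕ} (hp : polyBits p ≤ B)
    (hq : polyBits q ≤ B) (hr : polyBits r ≤ B) {a b : ℚ} (h : p = C a * q + C b * r) :
    ∃ a' b' : ℚ, p = C a' * q + C b' * r ∧ |(a' : ℝ)| ≤ 2 ^ (6 * B + 1) ∧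
      |(b' : ℝ)| ≤ 2 ^ (6 * B + 1) := by
  by_cases hdet : ∃ m1 m2, q.coeff m1 * r.coeff m2 - q.coeff m2 * r.coeff m1 ≠ 0
  · obtain ⟨m1, m2, hne⟩ := hdet
    set Δ : ℚ := q.coeff m1 * r.coeff m2 - q.coeff m2 * r.coeff m1 with hΔ
    have hden : (Δ.den : ℝ) ≤ 2 ^ (4 * B) := by
      have h1 : Δ.den ∣ (q.coeff m1 * r.coeff m2).den * (q.coeff m2 * r.coeff m1).den := by
        have := Rat.add_den_dvd (q.coeff m1 * r.coeff m2) (-(q.coeff m2 * r.coeff m1))
        rwa [Rat.neg_den, ← sub_eq_add_neg] at this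
      have h2 := Rat.mul_den_dvd (q.coeff m1) (r.coeff m2)
      have h3 := Rat.mul_den_dvd (q.coeff m2) (r.coeff m1)
      have h4 : Δ.den ≤ ((q.coeff m1).den * (r.coeff m2).den) *
          ((q.coeff m2).den * (r.coeff m1).den) := by
        refine (Nat.le_of_dvd (Nat.mul_pos (Rat.pos _) (Rat.pos _)) h1).trans ?_
        exact Nat.mul_le_mul (Nat.le_of_dvd (Nat.mul_pos (Rat.pos _) (Rat.pos _)) h2)
          (Nat.le_of_dvd (Nat.mul_pos (Rat.pos _) (Rat.pos _)) h3)
      calc (Δ.den : ℝ) ≤ (((q.coeff m1).den * (r.coeff m2).den) *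
          ((q.coeff m2).den * (r.coeff m1).den) : ℕ) := by exact_mod_cast h4
        _ = (((q.coeff m1).den : ℝ) * (r.coeff m2).den) *
          ((q.coeff m2).den * (r.coeff m1).den) := by push_cast; ring
        _ ≤ (2 ^ B * 2 ^ B) * (2 ^ B * 2 ^ B) := by
          have e1 := den_coeff_le hq m1
          have e2 := den_coeff_le hr m2
          have e3 := den_coeff_le hq m2
          have e4 := den_coeff_le hr m1
          gcongr
        _ = 2 ^ (4 * B) := by ring
    have hinv := one_le_abs_mul_den hne hden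
    have hp1 : p.coeff m1 = a * q.coeff m1 + b * r.coeff m1 := by
      rw [h, coeff_add, coeff_C_mul, coeff_C_mul]
    have hp2 : p.coeff m2 = a * q.coeff m2 + b * r.coeff m2 := by
      rw [h, coeff_add, coeff_C_mul, coeff_C_mul]
    have ea : a * Δ = p.coeff m1 * r.coeff m2 - p.coeff m2 * r.coeff m1 := by
      rw [hp1, hp2, hΔ]
      ring
    have eb : b * Δ = q.coeff m1 * p.coeff m2 - q.coeff m2 * p.coeff m1 := by
      rw [hp1, hp2, hΔ]
      ring
    have key : ∀ (c : ℚ) (x1 x2 x3 x4 : ℚ), c * Δ = x1 * x2 - x3 * x4 →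
        |(x1 : ℝ)| ≤ 2 ^ B → |(x2 : ℝ)| ≤ 2 ^ B → |(x3 : ℝ)| ≤ 2 ^ B → |(x4 : ℝ)| ≤ 2 ^ B →
        |(c : ℝ)| ≤ 2 ^ (6 * B + 1) := by
      intro c x1 x2 x3 x4 hc h1 h2 h3 h4
      have h5 : (c : ℝ) * (Δ : ℝ) = (x1 : ℝ) * x2 - x3 * x4 := by exact_mod_cast hc
      have h6 : |(c : ℝ)| * |(Δ : ℝ)| ≤ 2 * (2 ^ B * 2 ^ B) := by
        rw [← abs_mul, h5]
        refine (abs_sub _ _).trans ?_
        rw [abs_mul, abs_mul]
        have e1 : |(x1 : ℝ)| * |(x2 : ℝ)| ≤ 2 ^ B * 2 ^ B := by gcongr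
        have e2 : |(x3 : ℝ)| * |(x4 : ℝ)| ≤ 2 ^ B * 2 ^ B := by gcongr
        linarith
      calc |(c : ℝ)| = |(c : ℝ)| * 1 := (mul_one _).symm
        _ ≤ |(c : ℝ)| * (|(Δ : ℝ)| * 2 ^ (4 * B)) := mul_le_mul_of_nonneg_left hinv (abs_nonneg _)
        _ = (|(c : ℝ)| * |(Δ : ℝ)|) * 2 ^ (4 * B) := by ring
        _ ≤ (2 * (2 ^ B * 2 ^ B)) * 2 ^ (4 * B) := mul_le_mul_of_nonneg_right h6 (by positivity)
        _ = 2 ^ (6 * B + 1) := by ring
    exact ⟨a, b, h, key a _ _ _ _ ea (abs_coeff_le hp _) (abs_coeff_le hr _) (abs_coeff_le hp _)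
      (abs_coeff_le hr _), key b _ _ _ _ eb (abs_coeff_le hq _) (abs_coeff_le hp _)
      (abs_coeff_le hq _) (abs_coeff_le hp _)⟩
  · push Not at hdet
    by_cases hq0 : q = 0
    · by_cases hr0 : r = 0
      · refine ⟨0, 0, ?_, by simp, by simp⟩
        rw [h, hq0, hr0]
        simp
      · have h1 : p = C b * r := by rw [h, hq0]; simp
        refine ⟨0, b, ?_, by simp, scalar_from_one hp hr h1 hr0⟩
        rw [h1, hq0]
        simp
    · obtain ⟨m, hm⟩ := MvPolynomial.support_nonempty.mpr hq0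
      have hqm : q.coeff m ≠ 0 := MvPolynomial.mem_support_iff.mp hm
      have hr' : r = C (r.coeff m / q.coeff m) * q := by
        ext m'
        rw [coeff_C_mul]
        have := hdet m m'
        field_simp
        linarith
      have h1 : p = C (a + b * (r.coeff m / q.coeff m)) * q := by
        conv_lhs => rw [h, hr']
        rw [C_add, C_mul]
        ring
      refine ⟨a + b * (r.coeff m / q.coeff m), 0, ?_, scalar_from_one hp hq h1 hq0,
        by simp⟩
      rw [C_0, zero_mul, add_zero]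
      exact h1

section

variable {V J Ω : Type} [Fintype V] [DecidableEq V] [Fintype J]
variable {con : J → Con V} {asg : Ω → V → Bool} {Lf : (Ω → ℝ) →ₗ[ℝ] ℝ} {D' : ℕ} {ε : ℝ}

open Classical in
/-- Number of nonzero polynomials in a list. -/
noncomputable def nz (l : List (Poly (V × Bool))) : ℕ := (l.map fun p => if p = 0 then 0 else 1).sum

theorem nz_le_bits (l : List (Poly (V × Bool))) : nz l ≤ (l.map polyBits).sum := by
  classical
  unfold nz
  refine List.sum_le_sum fun p _ => ?_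
  split_ifs with h
  · exact Nat.zero_le _
  · have h1 := card_support_le_bits p
    have h2 : 0 < p.support.card := Finset.card_pos.mpr (MvPolynomial.support_nonempty.mpr h)
    omega

theorem nz_take_succ (l : List (Poly (V × Bool))) (i : ℕ) (hi : i < l.length) :
    nz (l.take (i + 1)) = nz (l.take i) + if l[i] = 0 then 0 else 1 := by
  unfold nz
  rw [List.take_succ_eq_append_getElem hi, List.map_append, List.sum_append]
  simp

theorem nz_take_mono (l : List (Poly (V × Bool))) {i j : ℕ} (hij : i ≤ j) :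
    nz (l.take i) ≤ nz (l.take j) := by
  classical
  unfold nz
  have h1 : l.take i = (l.take j).take i := by rw [List.take_take, min_eq_left hij]
  rw [h1]
  conv_rhs => rw [← List.take_append_drop i (l.take j)]
  rw [List.map_append, List.sum_append]
  exact Nat.le_add_right _ _

theorem pcr_lower (h : PE con asg Lf D' ε) (hinj : ∀ j, Function.Injective (con j).vars)
    {D : ℕ} (hD : 4 * D + 1 ≤ D') (π : PCRRefutation (liftCNF con))
    (hB : π.bits * 3 ^ D < 4 ^ D) : 1 ≤ ε * 2 ^ ((14 * π.bits + 5) * π.bits) := by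
  classical
  obtain ⟨M, hM, hMc⟩ := exists_union π.lines
  obtain ⟨ρ, hρ⟩ := exists_restriction M D
    (lt_of_le_of_lt (Nat.mul_le_mul_right _ hMc) hB)
  set B := π.bits with hBdef
  set f : Poly (V × Bool) → Ω → ℝ := fun p ω => aeval (pt (liftAsg ρ (asg ω))) p with hf
  have hbits : ∀ p ∈ π.lines, polyBits p ≤ B := by
    intro p hp
    exact List.single_le_sum (by simp) _ (List.mem_map_of_mem hp)
  have hrep : ∀ p ∈ π.lines, Rep (litg asg) (4 * D) (2 ^ B) (f p) := by
    intro p hp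
    refine (rep_eval asg ρ p D fun m hm => hρ m (hM p hp hm)).mono le_rfl ?_
    have h1 : (2 : ℝ) ^ polyBits p ≤ 2 ^ B := pow_le_pow_right₀ (by norm_num) (hbits p hp)
    linarith
  set R : ℝ := 2 ^ (14 * B + 5) with hR
  have hR1 : 1 ≤ R := one_le_pow₀ (by norm_num)
  have heps := h.eps
  have hgrow : ∀ (i : ℕ) (hi : i < π.lines.length),
      Lf (fun ω => f π.lines[i] ω ^ 2) ≤ ε * R ^ nz (π.lines.take (i + 1)) := by
    intro i
    induction i using Nat.strong_induction_on with
    | _ i ih =>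
      intro hi
      rw [nz_take_succ _ i hi]
      have hpos : ∀ n : ℕ, 0 ≤ ε * R ^ n := fun n => by positivity
      by_cases hz : π.lines[i] = 0
      · have h1 : (fun ω => f π.lines[i] ω ^ 2) = 0 := by
          funext ω
          simp [hf, hz]
        rw [h1, map_zero]
        exact hpos _
      rw [if_neg hz]
      have hmem : π.lines[i] ∈ π.lines := List.getElem_mem hi
      -- earlier lines
      have hprev : ∀ q ∈ π.lines.take i, q ∈ π.lines ∧
          Lf (fun ω => f q ω ^ 2) ≤ ε * R ^ nz (π.lines.take i) := by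
        intro q hq
        refine ⟨List.mem_of_mem_take hq, ?_⟩
        obtain ⟨j, hj, rfl⟩ := List.getElem_of_mem hq
        rw [List.length_take] at hj
        have hji : j < i := by omega
        have hjl : j < π.lines.length := by omega
        rw [List.getElem_take]
        refine (ih j hji hjl).trans ?_
        refine mul_le_mul_of_nonneg_left ?_ heps
        exact pow_le_pow_right₀ hR1 (nz_take_mono _ hji)
      set N := nz (π.lines.take i) with hN
      have hstep := π.step i hi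
      rcases hstep with ⟨c, hc, hp⟩ | ⟨v, hp⟩ | ⟨v, hp⟩ | ⟨q, hq, y, hp⟩ | ⟨q, hq, r, hr, a, b, hp⟩
      · -- clause
        have h1 : Lf (fun ω => f π.lines[i] ω ^ 2) =
            Lf (fun ω => (1 : ℝ) * f π.lines[i] ω) := by
          congr 1
          funext ω
          rw [hf]
          dsimp only
          rw [hp]
          obtain ⟨j, b, hok, rfl⟩ := mem_liftCNF.mp hc
          obtain ⟨z, hz0, hz'⟩ := aeval_exclClause (hinj j) b ρ
          rw [hz']
          rcases hz0 with rfl | rfl <;> split_ifs <;> simp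
        rw [h1, hp]
        have h2 := h.clause hinj ρ hc
          ((rep_const (gen := litg asg) 1).mono (Nat.zero_le D') (le_of_eq abs_one))
        refine (le_abs_self _).trans (h2.trans ?_)
        refine mul_le_mul_of_nonneg_left ?_ heps
        exact one_le_pow₀ hR1
      · have h1 : (fun ω => f π.lines[i] ω ^ 2) = 0 := by
          funext ω
          simp only [hf, hp, aeval_boolAx]
          simp
        rw [h1, map_zero]
        exact hpos _
      · have h1 : (fun ω => f π.lines[i] ω ^ 2) = 0 := by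
          funext ω
          simp only [hf, hp, aeval_twinAx]
          simp
        rw [h1, map_zero]
        exact hpos _
      · -- multiplication by a variable
        obtain ⟨hq1, hq2⟩ := hprev q hq
        set g : Ω → ℝ := fun ω => pt (liftAsg ρ (asg ω)) y with hg
        have hg01 : ∀ ω, g ω = 0 ∨ g ω = 1 := by
          intro ω
          simp only [hg, pt]
          split_ifs <;> simp
        have h1 : (fun ω => f π.lines[i] ω ^ 2) =
            (fun ω => f q ω ^ 2) - fun ω => ((1 - g ω) * f q ω) ^ 2 := by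
          funext ω
          rw [Pi.sub_apply]
          have : f π.lines[i] ω = g ω * f q ω := by
            simp only [hf, hp, map_mul, aeval_X, hg]
          rw [this]
          rcases hg01 ω with h0 | h0 <;> rw [h0] <;> ring
        have hrg : Rep (litg asg) 1 1 (fun ω => 1 - g ω) := by
          refine (rep_pt asg ρ (y.1, !y.2)).congr fun ω => ?_
          simp only [hg, pt]
          cases liftAsg ρ (asg ω) y.1 <;> cases y.2 <;> simp
        have h2 := h.psd _ _ (((hrg.mul (litg_idem asg) (hrep q hq1))).mono (by omega) le_rfl)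
        rw [h1, map_sub]
        have h3 : (1 : ℝ) + (2 ^ B) ^ 2 ≤ R := by
          rw [hR]
          have e1 : (2 : ℝ) ^ (14 * B + 5) = 32 * (2 ^ B) ^ 14 := by
            rw [pow_add, mul_comm 14 B, pow_mul]
            norm_num
            ring
          rw [e1]
          have e2 : (1 : ℝ) ≤ 2 ^ B := one_le_pow₀ (by norm_num)
          have e3 : ((2 : ℝ) ^ B) ^ 2 ≤ (2 ^ B) ^ 14 := pow_le_pow_right₀ e2 (by norm_num)
          have e4 : (1 : ℝ) ≤ (2 ^ B) ^ 14 := one_le_pow₀ e2
          linarith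
        have h4 : (1 : ℝ) ≤ R ^ N := one_le_pow₀ hR1
        rw [one_mul] at h2
        calc Lf (fun ω => f q ω ^ 2) - Lf (fun ω => ((1 - g ω) * f q ω) ^ 2)
            ≤ ε * R ^ N + ε * (2 ^ B) ^ 2 := by linarith
          _ ≤ ε * R ^ N + ε * (2 ^ B) ^ 2 * R ^ N := by
              have : 0 ≤ ε * (2 ^ B) ^ 2 := by positivity
              nlinarith
          _ = ε * R ^ N * (1 + (2 ^ B) ^ 2) := by ring
          _ ≤ ε * R ^ N * R := mul_le_mul_of_nonneg_left h3 (hpos N)
          _ = ε * R ^ (N + 1) := by rw [pow_succ]; ring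
      · -- linear combination
        obtain ⟨hq1, hq2⟩ := hprev q hq
        obtain ⟨hr1, hr2⟩ := hprev r hr
        obtain ⟨a', b', hp', ha, hb⟩ := scalar_bound (hbits _ hmem) (hbits q hq1) (hbits r hr1) hp
        set S : ℝ := 2 ^ (6 * B + 1) with hS
        have hS0 : 0 ≤ S := by positivity
        have h1 : (fun ω => f π.lines[i] ω ^ 2) =
            (2 * (a' : ℝ) ^ 2) • (fun ω => f q ω ^ 2) + (2 * (b' : ℝ) ^ 2) • (fun ω => f r ω ^ 2) -
              fun ω => ((a' : ℝ) * f q ω - (b' : ℝ) * f r ω) ^ 2 := by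
          funext ω
          simp only [Pi.sub_apply, Pi.add_apply, Pi.smul_apply, smul_eq_mul]
          have : f π.lines[i] ω = (a' : ℝ) * f q ω + (b' : ℝ) * f r ω := by
            simp only [hf, hp', map_add, map_mul, aeval_C]
            rfl
          rw [this]
          ring
        have h2 := h.psd _ _ ((((hrep q hq1).smul (a' : ℝ)).sub
          ((hrep r hr1).smul (b' : ℝ))).mono (by omega) le_rfl)
        rw [h1, map_sub, map_add, map_smul, map_smul, smul_eq_mul, smul_eq_mul]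
        have ha2 : (a' : ℝ) ^ 2 ≤ S ^ 2 := by
          rw [← sq_abs]
          exact pow_le_pow_left₀ (abs_nonneg _) ha 2
        have hb2 : (b' : ℝ) ^ 2 ≤ S ^ 2 := by
          rw [← sq_abs]
          exact pow_le_pow_left₀ (abs_nonneg _) hb 2
        have h4 : (1 : ℝ) ≤ R ^ N := one_le_pow₀ hR1
        have h5 : 2 * (a' : ℝ) ^ 2 * Lf (fun ω => f q ω ^ 2) ≤ 2 * S ^ 2 * (ε * R ^ N) := by
          calc 2 * (a' : ℝ) ^ 2 * Lf (fun ω => f q ω ^ 2) ≤ 2 * (a' : ℝ) ^ 2 * (ε * R ^ N) :=
                mul_le_mul_of_nonneg_left hq2 (by positivity)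
            _ ≤ 2 * S ^ 2 * (ε * R ^ N) :=
                mul_le_mul_of_nonneg_right (by linarith) (hpos N)
        have h6 : 2 * (b' : ℝ) ^ 2 * Lf (fun ω => f r ω ^ 2) ≤ 2 * S ^ 2 * (ε * R ^ N) := by
          calc 2 * (b' : ℝ) ^ 2 * Lf (fun ω => f r ω ^ 2) ≤ 2 * (b' : ℝ) ^ 2 * (ε * R ^ N) :=
                mul_le_mul_of_nonneg_left hr2 (by positivity)
            _ ≤ 2 * S ^ 2 * (ε * R ^ N) :=
                mul_le_mul_of_nonneg_right (by linarith) (hpos N)
        have h7 : (|(a' : ℝ)| * 2 ^ B + |(b' : ℝ)| * 2 ^ B) ^ 2 ≤ 4 * S ^ 2 * (2 ^ B) ^ 2 := by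
          have e0 : (0 : ℝ) ≤ 2 ^ B := by positivity
          have e1 : |(a' : ℝ)| * 2 ^ B + |(b' : ℝ)| * 2 ^ B ≤ 2 * S * 2 ^ B := by nlinarith
          calc (|(a' : ℝ)| * 2 ^ B + |(b' : ℝ)| * 2 ^ B) ^ 2 ≤ (2 * S * 2 ^ B) ^ 2 :=
                pow_le_pow_left₀ (by positivity) e1 2
            _ = _ := by ring
        have h8 : 4 * S ^ 2 + 4 * S ^ 2 * (2 ^ B) ^ 2 ≤ R := by
          have e1 : S = 2 * (2 ^ B) ^ 6 := by
            rw [hS, pow_add, mul_comm 6 B, pow_mul]
            ring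
          have e2 : R = 32 * (2 ^ B) ^ 14 := by
            rw [hR, pow_add, mul_comm 14 B, pow_mul]
            norm_num
            ring
          rw [e1, e2]
          have e3 : (1 : ℝ) ≤ 2 ^ B := one_le_pow₀ (by norm_num)
          have e4 : ((2 : ℝ) ^ B) ^ 12 ≤ (2 ^ B) ^ 14 := pow_le_pow_right₀ e3 (by norm_num)
          calc 4 * (2 * ((2 : ℝ) ^ B) ^ 6) ^ 2 + 4 * (2 * (2 ^ B) ^ 6) ^ 2 * (2 ^ B) ^ 2
              = 16 * (2 ^ B) ^ 12 + 16 * (2 ^ B) ^ 14 := by ring
            _ ≤ 16 * (2 ^ B) ^ 14 + 16 * (2 ^ B) ^ 14 := by linarith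
            _ = _ := by ring
        have h9 : -Lf (fun ω => ((a' : ℝ) * f q ω - (b' : ℝ) * f r ω) ^ 2) ≤
            ε * (4 * S ^ 2 * (2 ^ B) ^ 2) := by
          have := mul_le_mul_of_nonneg_left h7 heps
          linarith
        calc 2 * (a' : ℝ) ^ 2 * Lf (fun ω => f q ω ^ 2) +
              2 * (b' : ℝ) ^ 2 * Lf (fun ω => f r ω ^ 2) -
              Lf (fun ω => ((a' : ℝ) * f q ω - (b' : ℝ) * f r ω) ^ 2)
            ≤ 2 * S ^ 2 * (ε * R ^ N) + 2 * S ^ 2 * (ε * R ^ N) +
              ε * (4 * S ^ 2 * (2 ^ B) ^ 2) := by linarith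
          _ ≤ 2 * S ^ 2 * (ε * R ^ N) + 2 * S ^ 2 * (ε * R ^ N) +
              ε * (4 * S ^ 2 * (2 ^ B) ^ 2) * R ^ N := by
              have : 0 ≤ ε * (4 * S ^ 2 * (2 ^ B) ^ 2) := by positivity
              nlinarith
          _ = ε * R ^ N * (4 * S ^ 2 + 4 * S ^ 2 * (2 ^ B) ^ 2) := by ring
          _ ≤ ε * R ^ N * R := mul_le_mul_of_nonneg_left h8 (hpos N)
          _ = ε * R ^ (N + 1) := by rw [pow_succ]; ring
  -- the last line
  have hne : π.lines ≠ [] := by
    intro h0
    have := π.final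
    rw [h0] at this
    simp at this
  have hlen : 0 < π.lines.length := List.length_pos_iff.mpr hne
  have hlast : π.lines[π.lines.length - 1] = 1 := by
    have h1 := π.final
    rw [List.getLast?_eq_getElem?, List.getElem?_eq_getElem (by omega)] at h1
    exact Option.some.inj h1
  have h1 := hgrow (π.lines.length - 1) (by omega)
  rw [hlast] at h1
  have h2 : (fun ω => f 1 ω ^ 2) = fun _ => 1 := by
    funext ω
    simp [hf]
  rw [h2, h.one] at h1
  refine h1.trans (mul_le_mul_of_nonneg_left ?_ heps)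
  rw [pow_mul]
  refine pow_le_pow_right₀ hR1 ?_
  refine le_trans ?_ (nz_le_bits π.lines)
  have : π.lines.length - 1 + 1 = π.lines.length := by omega
  rw [this, List.take_length]

end

end Pool.Agent.Helper81_Sos
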