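import Mathlib
import Pool.Agent.Helper81_Sos.KnapsackPsd
import Pool.Agent.Helper81_Sos.Rep

/-!
The product of the one-level knapsack functionals over finitely many levels.
-/

namespace Pool.Agent.Helper81_Sos

set_option linter.unusedSectionVars false

open Finset

section

variable {ι : Type} [Fintype ι] [DecidableEq ι] {m k : ℕ}

/-- Base points: one subset of `Fin m` of size at most `k` for every level. -/
abbrev Pt (ι : Type) (m k : ℕ) : Type := ι → {s : Finset (Fin m) // s.card ≤ k}

/-- The (signed) weight of a base point. -/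
noncomputable def ptw (a : ι → ℝ) (x : Pt ι m k) : ℝ :=
  ∏ i, (lw k (a i) (x i).1.card / (m.choose (x i).1.card))

/-- The product functional. -/
noncomputable def L0 (a : ι → ℝ) : (Pt ι m k → ℝ) →ₗ[ℝ] ℝ where
  toFun f := ∑ x, ptw a x * f x
  map_add' f g := by
    rw [← Finset.sum_add_distrib]
    exact Finset.sum_congr rfl fun x _ => by rw [Pi.add_apply]; ring
  map_smul' c f := by
    rw [RingHom.id_apply, smul_eq_mul, Finset.mul_sum]
    exact Finset.sum_congr rfl fun x _ => by rw [Pi.smul_apply, smul_eq_mul]; ring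

theorem L0_apply (a : ι → ℝ) (f : Pt ι m k → ℝ) : L0 a f = ∑ x, ptw a x * f x := rfl

theorem sum_sub_eq_lam (a : ℝ) (f : Finset (Fin m) → ℝ) :
    ∑ y : {s : Finset (Fin m) // s.card ≤ k}, lw k a y.1.card / (m.choose y.1.card) * f y.1 =
      lam m k a f := by
  classical
  have h1 : lam m k a f = ∑ t ∈ range (k + 1), ∑ s ∈ powersetCard t (univ : Finset (Fin m)),
      lw k a s.card / (m.choose s.card) * f s := by
    unfold lam ua
    refine Finset.sum_congr rfl fun t _ => ?_
    rw [← mul_div_assoc, mul_comm (lw k a t), mul_div_assoc, Finset.sum_mul]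
    refine Finset.sum_congr rfl fun s hs => ?_
    rw [(Finset.mem_powersetCard.mp hs).2]
    ring
  rw [h1]
  have h2 : ∀ t ∈ range (k + 1), powersetCard t (univ : Finset (Fin m)) =
      (univ.filter fun s : Finset (Fin m) => s.card ≤ k).filter fun s => s.card = t := by
    intro t ht
    rw [Finset.mem_range] at ht
    ext s
    simp only [Finset.mem_powersetCard, Finset.mem_filter, Finset.mem_univ, true_and,
      Finset.subset_univ]
    constructor
    · intro h
      exact ⟨by omega, h⟩
    · exact fun h => h.2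
  have h3 : ∑ t ∈ range (k + 1), ∑ s ∈ powersetCard t (univ : Finset (Fin m)),
      lw k a s.card / (m.choose s.card) * f s = ∑ t ∈ range (k + 1),
      ∑ s ∈ (univ.filter fun s : Finset (Fin m) => s.card ≤ k).filter fun s => s.card = t,
      lw k a s.card / (m.choose s.card) * f s :=
    Finset.sum_congr rfl fun t ht => by rw [h2 t ht]
  rw [h3]
  rw [Finset.sum_fiberwise_of_maps_to
    (s := univ.filter fun s : Finset (Fin m) => s.card ≤ k) (t := range (k + 1))
    (g := fun s => s.card)]
  · symm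
    exact Finset.sum_subtype _ (by simp) _
  · intro s hs
    rw [Finset.mem_filter] at hs
    exact Finset.mem_range.mpr (by omega)

theorem L0_prod (a : ι → ℝ) (f : ι → Finset (Fin m) → ℝ) :
    L0 a (fun x : Pt ι m k => ∏ i, f i (x i).1) = ∏ i, lam m k (a i) (f i) := by
  rw [L0_apply]
  have h1 : ∀ i, lam m k (a i) (f i) = ∑ y ∈ (univ : Finset {s : Finset (Fin m) // s.card ≤ k}),
      lw k (a i) y.1.card / (m.choose y.1.card) * f i y.1 := fun i => (sum_sub_eq_lam _ _).symm
  simp only [h1]
  rw [Finset.prod_univ_sum, Fintype.piFinset_univ]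
  refine Finset.sum_congr rfl fun x _ => ?_
  rw [ptw, Finset.prod_mul_distrib]

/-- Base generators: `x_{i,j}`. -/
noncomputable def bgen (g : ι × Fin m) (x : Pt ι m k) : ℝ := if g.2 ∈ (x g.1).1 then 1 else 0

theorem bgen_idem (g : ι × Fin m) (x : Pt ι m k) : bgen g x * bgen g x = bgen g x := by
  unfold bgen
  split_ifs <;> simp

/-- The part of a set of generators at level `i`. -/
def fib (A : Finset (ι × Fin m)) (i : ι) : Finset (Fin m) := univ.filter fun j => (i, j) ∈ A

theorem card_fib_le (A : Finset (ι × Fin m)) (i : ι) : (fib A i).card ≤ A.card := by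
  refine Finset.card_le_card_of_injOn (fun j => (i, j)) ?_ ?_
  · intro j hj
    exact (Finset.mem_filter.mp hj).2
  · intro j _ j' _ h
    exact (Prod.mk.inj h).2

theorem fib_union (A B : Finset (ι × Fin m)) (i : ι) : fib (A ∪ B) i = fib A i ∪ fib B i := by
  ext j
  simp [fib]

theorem mon_bgen (A : Finset (ι × Fin m)) (x : Pt ι m k) :
    mon bgen A x = ∏ i, xJ (fib A i) (x i).1 := by
  unfold mon bgen xJ
  rw [Finset.prod_ite_zero, Finset.prod_ite_zero]
  simp only [Finset.prod_const_one]
  refine if_congr ?_ rfl rfl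
  constructor
  · intro h i _ j hj
    exact h (i, j) (Finset.mem_filter.mp hj).2
  · intro h g hg
    exact h g.1 (Finset.mem_univ _) (Finset.mem_filter.mpr ⟨Finset.mem_univ _, hg⟩)

theorem L0_mon (a : ι → ℝ) (A : Finset (ι × Fin m)) :
    L0 (k := k) a (mon bgen A) = ∏ i, lam m k (a i) (xJ (fib A i)) := by
  rw [← L0_prod]
  congr 1
  funext x
  exact mon_bgen A x

theorem L0_mon_abs_le {a : ι → ℝ} (hkm : k ≤ m) (hak : ∀ i, (k : ℝ) ≤ a i)
    (ham : ∀ i, a i ≤ m) (A : Finset (ι × Fin m)) (hA : A.card ≤ k) :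
    |L0 (k := k) a (mon bgen A)| ≤ 1 := by
  rw [L0_mon, Finset.abs_prod]
  refine Finset.prod_le_one (fun i _ => abs_nonneg _) fun i _ => ?_
  have := lam_xJ_bounds hkm (hak i) (ham i) (fib A i) ((card_fib_le A i).trans hA)
  rw [abs_of_nonneg this.1]
  exact this.2

theorem L0_one {a : ι → ℝ} (hkm : k ≤ m) : L0 (k := k) (m := m) a (fun _ => 1) = 1 := by
  have h1 := L0_prod (k := k) (m := m) a (fun _ => xJ ∅)
  have h2 : (fun x : Pt ι m k => ∏ i, xJ ∅ (x i).1) = fun _ => 1 := by
    funext x
    simp [xJ]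
  rw [h2] at h1
  rw [h1]
  refine Finset.prod_eq_one fun i _ => ?_
  rw [lam_xJ _ hkm ∅ (by simp)]
  simp [ff_zero]

theorem L0_mon_card_sub {a : ι → ℝ} (hkm : k ≤ m) (A : Finset (ι × Fin m)) (hA : A.card + 1 ≤ k)
    (i : ι) : L0 (k := k) a (fun x => mon bgen A x * (((x i).1.card : ℝ) - a i)) = 0 := by
  have h1 : (fun x : Pt ι m k => mon bgen A x * (((x i).1.card : ℝ) - a i)) =
      fun x => ∏ i', (fun s : Finset (Fin m) => xJ (fib A i') s *
        (if i' = i then ((s.card : ℝ) - a i) else 1)) (x i').1 := by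
    funext x
    rw [mon_bgen, Finset.prod_mul_distrib]
    congr 1
    rw [Finset.prod_ite_eq' Finset.univ i (fun i' => (((x i').1.card : ℝ) - a i))]
    simp
  rw [h1, L0_prod a (fun i' s => xJ (fib A i') s * (if i' = i then ((s.card : ℝ) - a i) else 1))]
  refine Finset.prod_eq_zero (Finset.mem_univ i) ?_
  simp only [if_true]
  exact lam_xJ_mul_card_sub (a i) hkm (fib A i) (by have := card_fib_le A i; omega)

/-- Multiplying by the size of level `i` multiplies the functional by `a i`. -/
theorem L0_mul_card {a : ι → ℝ} (hkm : k ≤ m) {d : ℕ} (hd : d + 1 ≤ k) {C : ℝ}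
    {h : Pt ι m k → ℝ} (hh : Rep bgen d C h) (i : ι) :
    L0 (k := k) a (fun x => h x * ((x i).1.card : ℝ)) = a i * L0 a h := by
  obtain ⟨c, h1, -, h3⟩ := hh
  have h4 : (fun x : Pt ι m k => h x * ((x i).1.card : ℝ)) =
      (∑ A, c A • fun x : Pt ι m k => mon bgen A x * (((x i).1.card : ℝ) - a i)) + a i • h := by
    funext x
    simp only [Pi.add_apply, Finset.sum_apply, Pi.smul_apply, smul_eq_mul]
    have h5 : ∑ A, c A * (mon bgen A x * (((x i).1.card : ℝ) - a i)) =
        h x * (((x i).1.card : ℝ) - a i) := by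
      rw [h3 x, Finset.sum_mul]
      exact Finset.sum_congr rfl fun A _ => by ring
    rw [h5]
    ring
  rw [h4, map_add, map_sum, map_smul, smul_eq_mul]
  have h6 : ∀ A : Finset (ι × Fin m), L0 (k := k) a
      (c A • fun x : Pt ι m k => mon bgen A x * (((x i).1.card : ℝ) - a i)) = 0 := by
    intro A
    by_cases hA : d < A.card
    · rw [h1 A hA, zero_smul, map_zero]
    · rw [map_smul, L0_mon_card_sub hkm A (by omega) i, smul_zero]
  rw [Finset.sum_eq_zero fun A _ => h6 A, zero_add]

/-- The size of level `i` is a degree one function. -/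
theorem rep_card (i : ι) : Rep (bgen (ι := ι) (m := m) (k := k)) 1 m
    (fun x : Pt ι m k => ((x i).1.card : ℝ)) := by
  have h1 := Rep.sum_const (gen := bgen (ι := ι) (m := m) (k := k)) (Finset.univ : Finset (Fin m))
    1 (fun j => bgen (i, j)) fun j _ => rep_gen (i, j)
  rw [Finset.card_univ, Fintype.card_fin, mul_one] at h1
  refine h1.congr fun x => ?_
  unfold bgen
  simp

/-- Positivity of the product functional. -/
theorem L0_psd_matrix {a : ι → ℝ} {d : ℕ} (hkm : 2 * k ≤ m) (hd : 3 * d ≤ k)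
    (hak : ∀ i, (k : ℝ) ≤ a i) (ham : ∀ i, a i ≤ k + 1) (S : Finset ι) :
    (Matrix.of fun A B : {A : Finset (ι × Fin m) // A.card ≤ d} =>
      ∏ i ∈ S, lam m k (a i) (xJ (fib A.1 i ∪ fib B.1 i))).PosSemidef := by
  classical
  induction S using Finset.induction_on with
  | empty =>
    refine Matrix.PosSemidef.of_dotProduct_mulVec_nonneg ?_ ?_
    · ext A B
      simp
    · intro c
      have : star c ⬝ᵥ (Matrix.of fun A B : {A : Finset (ι × Fin m) // A.card ≤ d} =>
        ∏ i ∈ (∅ : Finset ι), lam m k (a i) (xJ (fib A.1 i ∪ fib B.1 i))).mulVec c =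
          (∑ A, c A) ^ 2 := by
        simp [dotProduct, Matrix.mulVec, sq, Finset.sum_mul]
      rw [this]
      positivity
  | insert i S hi ih =>
    have h1 : (Matrix.of fun A B : {A : Finset (Fin m) // A.card ≤ d} =>
        lam m k (a i) (xJ (A.1 ∪ B.1))).PosSemidef := by
      refine Matrix.PosSemidef.of_dotProduct_mulVec_nonneg ?_ ?_
      · ext A B
        simp only [Matrix.conjTranspose_apply, Matrix.of_apply, star_trivial]
        rw [Finset.union_comm]
      · intro c
        have := lam_psd hkm hd (hak i) (ham i) c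
        refine this.trans_eq ?_
        simp only [dotProduct, Matrix.mulVec, Matrix.of_apply, star_trivial, Finset.mul_sum]
        exact Finset.sum_congr rfl fun A _ => Finset.sum_congr rfl fun B _ => by ring
    have h2 := h1.submatrix (fun A : {A : Finset (ι × Fin m) // A.card ≤ d} =>
      (⟨fib A.1 i, (card_fib_le A.1 i).trans A.2⟩ : {A : Finset (Fin m) // A.card ≤ d}))
    have h3 := Matrix.PosSemidef.hadamard (𝕜 := ℝ) h2 ih
    have h4 : (Matrix.of fun A B : {A : Finset (ι × Fin m) // A.card ≤ d} =>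
        ∏ i ∈ insert i S, lam m k (a i) (xJ (fib A.1 i ∪ fib B.1 i))) =
        Matrix.hadamard ((Matrix.of fun A B : {A : Finset (Fin m) // A.card ≤ d} =>
        lam m k (a i) (xJ (A.1 ∪ B.1))).submatrix (fun A : {A : Finset (ι × Fin m) // A.card ≤ d} =>
        (⟨fib A.1 i, (card_fib_le A.1 i).trans A.2⟩ : {A : Finset (Fin m) // A.card ≤ d}))
        (fun A : {A : Finset (ι × Fin m) // A.card ≤ d} =>
        (⟨fib A.1 i, (card_fib_le A.1 i).trans A.2⟩ : {A : Finset (Fin m) // A.card ≤ d})))
        (Matrix.of fun A B : {A : Finset (ι × Fin m) // A.card ≤ d} =>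
        ∏ i ∈ S, lam m k (a i) (xJ (fib A.1 i ∪ fib B.1 i))) := by
      ext A B
      simp [Matrix.hadamard, Finset.prod_insert hi]
    rw [h4]
    exact h3

theorem L0_sq_nonneg {a : ι → ℝ} {d : ℕ} (hkm : 2 * k ≤ m) (hd : 3 * d ≤ k)
    (hak : ∀ i, (k : ℝ) ≤ a i) (ham : ∀ i, a i ≤ k + 1) {C : ℝ}
    {h : Pt ι m k → ℝ} (hh : Rep bgen d C h) : 0 ≤ L0 a (fun x => h x ^ 2) := by
  classical
  obtain ⟨c, h1, -, h3⟩ := hh
  have hpsd := L0_psd_matrix (a := a) hkm hd hak ham Finset.univ
  have h4 := hpsd.dotProduct_mulVec_nonneg (fun A => c A.1)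
  refine h4.trans_eq ?_
  have h5 : ∀ x, h x = ∑ A : {A : Finset (ι × Fin m) // A.card ≤ d}, c A.1 * mon bgen A.1 x := by
    intro x
    rw [h3 x]
    rw [← Finset.sum_subtype (s := univ.filter fun A : Finset (ι × Fin m) => A.card ≤ d)
      (f := fun A => c A * mon bgen A x) (by simp), Finset.sum_filter]
    refine Finset.sum_congr rfl fun A _ => ?_
    split_ifs with hA
    · rfl
    · rw [h1 A (not_le.mp hA), zero_mul]
  have h6 : (fun x => h x ^ 2) = ∑ A : {A : Finset (ι × Fin m) // A.card ≤ d},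
      ∑ B : {A : Finset (ι × Fin m) // A.card ≤ d}, (c A.1 * c B.1) • mon bgen (A.1 ∪ B.1) := by
    funext x
    simp only [Finset.sum_apply, Pi.smul_apply, smul_eq_mul]
    rw [h5 x, sq, Finset.sum_mul_sum]
    refine Finset.sum_congr rfl fun A _ => Finset.sum_congr rfl fun B _ => ?_
    rw [← mon_mul_mon bgen_idem]
    ring
  rw [h6, map_sum]
  simp only [dotProduct, Matrix.mulVec, Matrix.of_apply, Pi.star_apply, star_trivial,
    Finset.mul_sum]
  refine Finset.sum_congr rfl fun A _ => ?_
  rw [map_sum]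
  refine Finset.sum_congr rfl fun B _ => ?_
  rw [map_smul, L0_mon, smul_eq_mul]
  simp only [fib_union]
  ring

end

end Pool.Agent.Helper81_Sos
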