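import Mathlib
import Pool.Agent.Helper81_Sos.Formula
import Pool.Agent.Helper81_Sos.Product
import Pool.Agent.Helper81_Sos.LabelPsd
import Pool.Agent.Helper81_Sos.LowerPcr

/-!
The approximate pseudo-expectation for the hard formulas.
-/

namespace Pool.Agent.Helper81_Sos

set_option linter.unusedSectionVars false

open MvPolynomial Finset

section

variable {k : ℕ}

/-- Base points for the hard formulas. -/
abbrev PP (k : ℕ) : Type := Pt (Fin k) (2 * k) k

/-- The set of level `i`, for `i = 0, ..., k + 1`. -/
def lev (x : PP k) (i : ℕ) : Finset (Fin (2 * k)) :=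
  if i = 0 then univ.filter (fun j => j.val < k + 1)
  else if h : i - 1 < k then (x ⟨i - 1, h⟩).1
  else univ.filter (fun j => j.val < k)

theorem card_filter_lt {n a : ℕ} (h : a ≤ n) : (univ.filter (fun j : Fin n => j.val < a)).card = a := by
  rw [Fin.card_filter_val_lt]
  exact min_eq_right h

theorem card_lev_zero (hk : 1 ≤ k) (x : PP k) : (lev x 0).card = k + 1 := by
  unfold lev
  rw [if_pos rfl]
  exact card_filter_lt (by omega)

theorem card_lev_last (x : PP k) : (lev x (k + 1)).card = k := by
  unfold lev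
  rw [if_neg (by omega), dif_neg (by omega)]
  exact card_filter_lt (by omega)

theorem card_lev_le (x : PP k) {i : ℕ} (hi : i ≠ 0) : (lev x i).card ≤ k := by
  unfold lev
  rw [if_neg hi]
  split_ifs with h
  · exact (x ⟨i - 1, h⟩).2
  · exact (card_filter_lt (by omega)).le

/-- Membership of an element, given the sets of two consecutive levels. -/
def memb (L L' : Finset (Fin (2 * k))) : El k → Prop
  | El.single j => j ∈ L'
  | El.pair j j' => j ∈ L ∧ j' ∉ L

instance (L L' : Finset (Fin (2 * k))) : DecidablePred (memb L L') := fun e => by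
  cases e <;> unfold memb <;> infer_instance

/-- The set of true elements. -/
def WW (x : PP k) (i : Fin (k + 1)) : Finset (Fin (NN k)) :=
  univ.filter fun u => memb (lev x i.val) (lev x (i.val + 1)) (el k u)

theorem card_WW (x : PP k) (i : Fin (k + 1)) :
    ((WW x i).card : ℝ) = (lev x i.val).card * (2 * k - (lev x i.val).card) +
      2 * (lev x (i.val + 1)).card := by
  classical
  set L := lev x i.val with hL
  set L' := lev x (i.val + 1) with hL'
  have h1 : ((WW x i).card : ℝ) = ∑ u, if memb L L' (el k u) then (1 : ℝ) else 0 := by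
    unfold WW
    rw [Finset.sum_boole]
  rw [h1]
  have h2 : ∑ u, (if memb L L' (el k u) then (1 : ℝ) else 0) =
      ∑ p, if memb L L' (elOf k p) then (1 : ℝ) else 0 := by
    rw [← Equiv.sum_comp (uEquiv k)]
    refine Finset.sum_congr rfl fun p _ => ?_
    rw [el, Equiv.symm_apply_apply]
  rw [h2, Fintype.sum_sum_type, Fintype.sum_prod_type]
  have h3 : ∀ j j' : Fin (2 * k), (if memb L L' (elOf k (Sum.inl (j, j'))) then (1 : ℝ) else 0) =
      (if j ∈ L then (1 : ℝ) else 0) * (1 - if j' ∈ L then (1 : ℝ) else 0) +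
        if j = j' then (if j ∈ L' then (1 : ℝ) else 0) else 0 := by
    intro j j'
    by_cases hj : j = j'
    · subst hj
      simp only [elOf, if_true, memb]
      by_cases h : j ∈ L <;> simp [h]
    · simp only [elOf, if_neg hj, memb]
      by_cases h : j ∈ L <;> by_cases h' : j' ∈ L <;> simp [h, h']
  have h4 : ∀ j : Fin (2 * k), (if memb L L' (elOf k (Sum.inr j)) then (1 : ℝ) else 0) =
      if j ∈ L' then (1 : ℝ) else 0 := fun j => rfl
  simp only [h3, h4, Finset.sum_add_distrib]
  have h5 : ∀ S : Finset (Fin (2 * k)), ∑ j : Fin (2 * k), (if j ∈ S then (1 : ℝ) else 0) =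
      S.card := by
    intro S
    rw [Finset.sum_boole]
    simp
  have h6 : ∑ j : Fin (2 * k), ∑ j' : Fin (2 * k), (if j ∈ L then (1 : ℝ) else 0) *
      (1 - if j' ∈ L then (1 : ℝ) else 0) = L.card * (2 * k - L.card) := by
    rw [← Finset.sum_mul_sum, h5, Finset.sum_sub_distrib, h5]
    simp
  rw [h6, h5]
  simp only [Finset.sum_ite_eq, Finset.mem_univ, if_true]
  rw [h5]
  ring

theorem card_WW_le (x : PP k) (i : Fin (k + 1)) : (WW x i).card ≤ KK k := by
  have h1 := card_WW x i
  have h2 : ((lev x (i.val + 1)).card : ℝ) ≤ k := by exact_mod_cast card_lev_le x (by omega)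
  have h3 : ((WW x i).card : ℝ) ≤ (KK k : ℕ) := by
    rw [h1]
    push_cast
    nlinarith [sq_nonneg (((lev x i.val).card : ℝ) - k)]
  exact_mod_cast h3

theorem exists_injOn {N K : ℕ} (hK : 0 < K) (S : Finset (Fin N)) (h : S.card ≤ K) :
    ∃ f : Fin N → Fin K, Set.InjOn f S := by
  classical
  have h1 : Fintype.card S ≤ Fintype.card (Fin K) := by simpa using h
  obtain ⟨f⟩ := Function.Embedding.nonempty_of_card_le h1
  refine ⟨fun u => if hu : u ∈ S then f ⟨u, hu⟩ else ⟨0, hK⟩, ?_⟩
  intro u hu v hv huv
  have hu' : u ∈ S := hu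
  have hv' : v ∈ S := hv
  simp only [hu', hv', dif_pos] at huv
  have := f.injective huv
  exact congrArg Subtype.val this

/-- The frame of the hard formulas. -/
noncomputable def frm (k : ℕ) (hk : 1 ≤ k) : Frame (PP k) (Fin (k + 1)) (Fin (NN k)) (KK k) where
  W := WW
  emb x i := (exists_injOn (by positivity) (WW x i) (card_WW_le x i)).choose
  inj x i := (exists_injOn (by positivity) (WW x i) (card_WW_le x i)).choose_spec

/-- The assignment of the base variables at a point. -/
noncomputable def asg (hk : 1 ≤ k) (ω : PP k × Lab (Fin (k + 1)) (KK k)) : BVar k → Bool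
  | BVar.x i j => decide (j ∈ lev ω.1 i.val)
  | BVar.g i u s => decide (u ∈ WW ω.1 i ∧ s.val ≤ (ω.2 i ((frm k hk).emb ω.1 i u)).val)
  | BVar.e i l t => decide (∃ u : Fin (NN k), u.val < t.val ∧ u ∈ WW ω.1 i ∧
      ω.2 i ((frm k hk).emb ω.1 i u) = l)

/-- Sum of incidence variables over a set of labels. -/
theorem sum_bv_row (hk : 1 ≤ k) (ω : PP k × Lab (Fin (k + 1)) (KK k)) (i : Fin (k + 1))
    (u : Fin (NN k)) (s : Fin (KK k + 1)) :
    (if asg hk ω (BVar.g i u s) = true then (1 : ℝ) else 0) =
      ∑ l ∈ univ.filter (fun l : Fin (KK k) => s.val ≤ l.val), bv (frm k hk) (i, u, l) ω := by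
  classical
  unfold bv
  dsimp only
  by_cases h : u ∈ (frm k hk).W ω.1 i
  · simp only [h, true_and]
    rw [Finset.sum_ite_eq]
    refine if_congr ?_ rfl rfl
    simp only [asg, decide_eq_true_eq, Finset.mem_filter, Finset.mem_univ, true_and]
    exact and_iff_right h
  · simp only [h, false_and, if_false, Finset.sum_const_zero]
    rw [if_neg]
    simp only [asg, decide_eq_true_eq]
    exact fun h' => h h'.1

theorem sum_bv_col (hk : 1 ≤ k) (ω : PP k × Lab (Fin (k + 1)) (KK k)) (i : Fin (k + 1))
    (l : Fin (KK k)) (t : Fin (NN k + 1)) :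
    (if asg hk ω (BVar.e i l t) = true then (1 : ℝ) else 0) =
      ∑ u ∈ univ.filter (fun u : Fin (NN k) => u.val < t.val), bv (frm k hk) (i, u, l) ω := by
  classical
  simp only [asg, decide_eq_true_eq]
  by_cases h : ∃ u : Fin (NN k), u.val < t.val ∧ u ∈ WW ω.1 i ∧
      ω.2 i ((frm k hk).emb ω.1 i u) = l
  · rw [if_pos h]
    obtain ⟨u, h1, h2, h3⟩ := h
    rw [Finset.sum_eq_single u]
    · unfold bv
      rw [if_pos ⟨h2, h3⟩]
    · intro u' _ hne
      unfold bv
      rw [if_neg]
      rintro ⟨h4, h5⟩
      dsimp only at h4 h5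
      rw [← h3] at h5
      exact hne ((frm k hk).inj _ _ h4 h2 ((ω.2 i).injective h5))
    · intro h4
      exact (h4 (Finset.mem_filter.mpr ⟨Finset.mem_univ u, h1⟩)).elim
  · rw [if_neg h]
    symm
    refine Finset.sum_eq_zero fun u hu => ?_
    unfold bv
    rw [if_neg]
    rintro ⟨h4, h5⟩
    exact h ⟨u, (Finset.mem_filter.mp hu).2, h4, h5⟩

/-- The literal functions are low-degree functions of the generators. -/
theorem rep_litg (hk : 1 ≤ k) (g : BVar k × Bool) :
    Rep (lgen (frm k hk) (bgen (ι := Fin k) (m := 2 * k) (k := k))) 1 (NN k + KK k + 2)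
      (litg (asg hk) g) := by
  obtain ⟨y, b⟩ := g
  -- it suffices to treat positive literals with norm `NN k + KK k + 1`
  have key : Rep (lgen (frm k hk) (bgen (ι := Fin k) (m := 2 * k) (k := k))) 1 (NN k + KK k + 1)
      (fun ω => if asg hk ω y = true then (1 : ℝ) else 0) := by
    have hN : (0 : ℝ) ≤ (NN k : ℝ) := Nat.cast_nonneg _
    have hK : (0 : ℝ) ≤ (KK k : ℝ) := Nat.cast_nonneg _
    rcases y with ⟨i, j⟩ | ⟨i, u, s⟩ | ⟨i, l, t⟩
    · by_cases hi : i.val = 0
      · by_cases hj : j.val < k + 1
        · refine ((rep_const 1).mono (Nat.zero_le 1) (by rw [abs_one]; linarith)).congr fun ω => ?_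
          have hj' : j.val ≤ k := by omega
          simp [asg, lev, hi, hj']
        · refine ((rep_zero 1).mono le_rfl (by linarith)).congr fun ω => ?_
          have hj' : k < j.val := by omega
          simp [asg, lev, hi, hj']
      · by_cases hi' : i.val - 1 < k
        · refine ((rep_gen (Sum.inl (⟨i.val - 1, hi'⟩, j))).mono le_rfl (by linarith)).congr
            fun ω => ?_
          simp [asg, lev, hi, hi', lgen, bgen]
        · by_cases hj : j.val < k
          · refine ((rep_const 1).mono (Nat.zero_le 1) (by rw [abs_one]; linarith)).congr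
              fun ω => ?_
            simp [asg, lev, hi, hi', hj]
          · refine ((rep_zero 1).mono le_rfl (by linarith)).congr fun ω => ?_
            simp [asg, lev, hi, hi', hj]
    · have h1 := Rep.sum_const (gen := lgen (frm k hk) (bgen (ι := Fin k) (m := 2 * k) (k := k)))
        (univ.filter (fun l : Fin (KK k) => s.val ≤ l.val)) 1
        (fun l => lgen (frm k hk) (bgen (ι := Fin k) (m := 2 * k) (k := k)) (Sum.inr (i, u, l)))
        fun l _ => rep_gen _
      refine (h1.mono le_rfl ?_).congr fun ω => (sum_bv_row hk ω i u s).symm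
      have h2 : (univ.filter (fun l : Fin (KK k) => s.val ≤ l.val)).card ≤ KK k := by
        simpa using Finset.card_filter_le univ (fun l : Fin (KK k) => s.val ≤ l.val)
      have h3 : ((univ.filter (fun l : Fin (KK k) => s.val ≤ l.val)).card : ℝ) ≤ (KK k : ℕ) := by
        exact_mod_cast h2
      linarith
    · have h1 := Rep.sum_const (gen := lgen (frm k hk) (bgen (ι := Fin k) (m := 2 * k) (k := k)))
        (univ.filter (fun u : Fin (NN k) => u.val < t.val)) 1
        (fun u => lgen (frm k hk) (bgen (ι := Fin k) (m := 2 * k) (k := k)) (Sum.inr (i, u, l)))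
        fun u _ => rep_gen _
      refine (h1.mono le_rfl ?_).congr fun ω => (sum_bv_col hk ω i l t).symm
      have h2 : (univ.filter (fun u : Fin (NN k) => u.val < t.val)).card ≤ NN k := by
        simpa using Finset.card_filter_le univ (fun u : Fin (NN k) => u.val < t.val)
      have h3 : ((univ.filter (fun u : Fin (NN k) => u.val < t.val)).card : ℝ) ≤ (NN k : ℕ) := by
        exact_mod_cast h2
      linarith
  cases b
  · refine (key.one_sub.mono le_rfl (by linarith)).congr fun ω => ?_
    unfold litg
    cases asg hk ω y <;> simp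
  · exact (key.mono le_rfl (by linarith))

end

end Pool.Agent.Helper81_Sos
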