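import Mathlib
import Pool.Agent.Helper81_Sos.Model

/-!
All constraints except the last outputs are satisfied pointwise by the assignments of the model.
-/

namespace Pool.Agent.Helper81_Sos

set_option linter.unusedSectionVars false

open MvPolynomial Finset

section

variable {k : ℕ}

theorem asg_gate (hk : 1 ≤ k) (ω : PP k × Lab (Fin (k + 1)) (KK k)) (i : Fin (k + 1))
    (u : Fin (NN k)) (l : Fin (KK k)) :
    (asg hk ω (BVar.g i u l.castSucc)).toNat + (asg hk ω (BVar.e i l u.castSucc)).toNat =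
      (asg hk ω (BVar.g i u l.succ)).toNat + (asg hk ω (BVar.e i l u.succ)).toNat := by
  simp only [asg, Fin.val_castSucc, Fin.val_succ]
  by_cases h : u ∈ WW ω.1 i ∧ ω.2 i ((frm k hk).emb ω.1 i u) = l
  · have h1 : u ∈ WW ω.1 i ∧ l.val ≤ (ω.2 i ((frm k hk).emb ω.1 i u)).val :=
      ⟨h.1, by rw [h.2]⟩
    have h2 : ¬ (u ∈ WW ω.1 i ∧ l.val + 1 ≤ (ω.2 i ((frm k hk).emb ω.1 i u)).val) := by
      rintro ⟨-, h3⟩
      rw [h.2] at h3
      omega
    have h3 : ¬ ∃ u' : Fin (NN k), u'.val < u.val ∧ u' ∈ WW ω.1 i ∧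
        ω.2 i ((frm k hk).emb ω.1 i u') = l := by
      rintro ⟨u', h4, h5, h6⟩
      rw [← h.2] at h6
      have h7 := (frm k hk).inj _ _ h5 h.1 ((ω.2 i).injective h6)
      rw [h7] at h4
      exact lt_irrefl _ h4
    have h4 : ∃ u' : Fin (NN k), u'.val < u.val + 1 ∧ u' ∈ WW ω.1 i ∧
        ω.2 i ((frm k hk).emb ω.1 i u') = l := ⟨u, Nat.lt_succ_self _, h.1, h.2⟩
    rw [decide_eq_true h1, decide_eq_false h2, decide_eq_false h3, decide_eq_true h4]
    rfl
  · have h1 : (u ∈ WW ω.1 i ∧ l.val ≤ (ω.2 i ((frm k hk).emb ω.1 i u)).val) ↔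
        (u ∈ WW ω.1 i ∧ l.val + 1 ≤ (ω.2 i ((frm k hk).emb ω.1 i u)).val) := by
      refine and_congr_right fun hu => ?_
      have h2 : (ω.2 i ((frm k hk).emb ω.1 i u)).val ≠ l.val := fun h3 =>
        h ⟨hu, Fin.ext h3⟩
      omega
    have h3 : (∃ u' : Fin (NN k), u'.val < u.val ∧ u' ∈ WW ω.1 i ∧
        ω.2 i ((frm k hk).emb ω.1 i u') = l) ↔
        (∃ u' : Fin (NN k), u'.val < u.val + 1 ∧ u' ∈ WW ω.1 i ∧
        ω.2 i ((frm k hk).emb ω.1 i u') = l) := by
      constructor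
      · rintro ⟨u', h4, h5⟩
        exact ⟨u', by omega, h5⟩
      · rintro ⟨u', h4, h5⟩
        refine ⟨u', ?_, h5⟩
        rcases Nat.lt_succ_iff_lt_or_eq.mp h4 with h6 | h6
        · exact h6
        · exfalso
          have h7 : u' = u := Fin.ext h6
          rw [h7] at h5
          exact h h5
    rw [decide_eq_decide.mpr h1, decide_eq_decide.mpr h3]

theorem asg_inp (hk : 1 ≤ k) (ω : PP k × Lab (Fin (k + 1)) (KK k)) (i : Fin (k + 1))
    (u : Fin (NN k)) :
    (inpCon i u (el k u)).ok (fun j => asg hk ω ((inpCon i u (el k u)).vars j)) = true := by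
  have h1 : u ∈ WW ω.1 i ↔ memb (lev ω.1 i.val) (lev ω.1 (i.val + 1)) (el k u) := by
    simp [WW]
  rcases h : el k u with j | ⟨j, j'⟩
  · rw [h] at h1
    simp [inpCon, h1, memb, asg]
  · rw [h] at h1
    simp [inpCon, h1, memb, asg]

theorem asg_ok (hk : 1 ≤ k) (ω : PP k × Lab (Fin (k + 1)) (KK k)) (c : CIdx k)
    (hc : ∀ i l, c ≠ CIdx.eN i l) :
    (con k c).ok (fun j => asg hk ω ((con k c).vars j)) = true := by
  rcases c with ⟨i, u, l⟩ | ⟨i, u⟩ | ⟨i, l⟩ | ⟨i, u⟩ | ⟨i, l⟩ | ⟨j⟩ | ⟨j⟩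
  · have := asg_gate hk ω i u l
    simpa [con] using this
  · exact asg_inp hk ω i u
  · simp [con, asg]
  · have : ∀ y : Fin (KK k), ¬ KK k ≤ y.val := fun y => by omega
    simp [con, asg, this]
  · exact absurd rfl (hc i l)
  · have h1 : (j.val < k + 1) ↔ (j.val ≤ k) := by omega
    simp [con, asg, lev, h1]
  · simp [con, asg, lev]

/-- The only violated constraint: the last column wire. -/
theorem asg_eN (hk : 1 ≤ k) (ω : PP k × Lab (Fin (k + 1)) (KK k)) (i : Fin (k + 1))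
    (l : Fin (KK k)) :
    (if asg hk ω (BVar.e i l (Fin.last _)) = false then (1 : ℝ) else 0) =
      unused (frm k hk) (i, l) ω := by
  have h1 := sum_bv_col hk ω i l (Fin.last _)
  have h2 : (univ.filter (fun u : Fin (NN k) => u.val < (Fin.last (NN k)).val)) = univ := by
    ext u
    simp
  rw [h2] at h1
  unfold unused
  rw [← h1]
  cases asg hk ω (BVar.e i l (Fin.last _)) <;> simp

end

end Pool.Agent.Helper81_Sos
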