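import Mathlib
import Pool.Agent.Helper81_Sos.Sat

/-!
The approximate pseudo-expectation for the hard formulas: assembling the pieces.
-/

namespace Pool.Agent.Helper81_Sos

set_option linter.unusedSectionVars false

open MvPolynomial Finset

/-- The real solution `c_i = 2 ^ (1 - 2 ^ i)` of `2 c_{i+1} = c_i ^ 2`, `c_0 = 1`. -/
noncomputable def cc (i : ℕ) : ℝ := 2 / 2 ^ (2 ^ i)

theorem cc_zero : cc 0 = 1 := by norm_num [cc]

theorem cc_succ (i : ℕ) : 2 * cc (i + 1) = cc i ^ 2 := by
  unfold cc
  rw [pow_succ, pow_mul, div_pow]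
  have h : (0 : ℝ) < 2 ^ 2 ^ i := by positivity
  field_simp

theorem cc_pos (i : ℕ) : 0 < cc i := by
  unfold cc
  positivity

theorem cc_le_one (i : ℕ) : cc i ≤ 1 := by
  unfold cc
  rw [div_le_one (by positivity)]
  calc (2 : ℝ) = 2 ^ 1 := by norm_num
    _ ≤ 2 ^ 2 ^ i := pow_le_pow_right₀ (by norm_num) (Nat.one_le_two_pow)

/-- The target sizes of the levels `1, ..., k`. -/
noncomputable def aa (k : ℕ) (i : Fin k) : ℝ := k + cc (i.val + 1)

/-- The target sizes of the levels `0, ..., k + 1`. -/
noncomputable def ah (k : ℕ) (i : ℕ) : ℝ := if i = k + 1 then (k : ℝ) else k + cc i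

section

variable {k : ℕ}

theorem rep_lev (hk : 1 ≤ k) (i : ℕ) :
    Rep (bgen (ι := Fin k) (m := 2 * k) (k := k)) 1 (2 * k + 1)
      (fun x => ((lev x i).card : ℝ)) := by
  by_cases hi : i = 0
  · subst hi
    refine ((rep_const ((k : ℝ) + 1)).mono (Nat.zero_le 1) ?_).congr fun x => ?_
    · rw [abs_of_nonneg (by positivity)]
      have : (0 : ℝ) ≤ k := Nat.cast_nonneg k
      linarith
    · rw [card_lev_zero hk]
      push_cast
      ring
  · by_cases hi' : i - 1 < k
    · refine ((rep_card (ι := Fin k) (m := 2 * k) (k := k) ⟨i - 1, hi'⟩).mono le_rfl ?_).congr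
        fun x => ?_
      · push_cast
        linarith
      · unfold lev
        rw [if_neg hi, dif_pos hi']
    · refine ((rep_const (k : ℝ)).mono (Nat.zero_le 1) ?_).congr fun x => ?_
      · rw [abs_of_nonneg (by positivity)]
        have : (0 : ℝ) ≤ k := Nat.cast_nonneg k
        linarith
      · unfold lev
        rw [if_neg hi, dif_neg hi', card_filter_lt (by omega)]

theorem L0_lev (hk : 1 ≤ k) {i : ℕ} (hik : i ≤ k + 1) {d : ℕ} (hd : d + 1 ≤ k) {C : ℝ}
    {h : PP k → ℝ} (hh : Rep bgen d C h) :
    L0 (aa k) (fun x => h x * ((lev x i).card : ℝ)) = ah k i * L0 (aa k) h := by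
  have hconst : ∀ c : ℝ, (∀ x : PP k, ((lev x i).card : ℝ) = c) →
      L0 (aa k) (fun x => h x * ((lev x i).card : ℝ)) = c * L0 (aa k) h := by
    intro c hc
    have h1 : (fun x => h x * ((lev x i).card : ℝ)) = c • h := by
      funext x
      rw [hc x, Pi.smul_apply, smul_eq_mul]
      ring
    rw [h1, map_smul, smul_eq_mul]
  by_cases hi : i = 0
  · subst hi
    rw [hconst (k + 1) fun x => by rw [card_lev_zero hk]; push_cast; ring]
    unfold ah
    rw [if_neg (by omega), cc_zero]
  · by_cases hi' : i - 1 < k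
    · have h1 := L0_mul_card (a := aa k) (m := 2 * k) (by omega) hd hh ⟨i - 1, hi'⟩
      have h2 : (fun x : PP k => h x * ((lev x i).card : ℝ)) =
          fun x => h x * ((x ⟨i - 1, hi'⟩).1.card : ℝ) := by
        funext x
        unfold lev
        rw [if_neg hi, dif_pos hi']
      rw [h2, h1]
      congr 1
      unfold ah aa
      rw [if_neg (by omega)]
      dsimp only
      rw [Nat.sub_add_cancel (by omega)]
    · have h3 : i = k + 1 := by omega
      subst h3
      rw [hconst k fun x => by rw [card_lev_last]]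
      unfold ah
      rw [if_pos rfl]

/-- The value of the `i`-th constraint at the target sizes. -/
theorem ah_identity (i : ℕ) (hi : i < k + 1) :
    (KK k : ℝ) - (ah k i * (2 * k - ah k i) + 2 * ah k (i + 1)) =
      if i = k then cc k ^ 2 else 0 := by
  unfold ah
  rw [if_neg (by omega)]
  push_cast
  by_cases h : i = k
  · subst h
    rw [if_pos rfl, if_pos rfl]
    ring
  · rw [if_neg h, if_neg (by omega)]
    have := cc_succ i
    linear_combination -this

theorem L0_constraint (hk : 1 ≤ k) (i : Fin (k + 1)) {d : ℕ} (hd : d + 2 ≤ k) {C : ℝ}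
    {h : PP k → ℝ} (hh : Rep bgen d C h) :
    L0 (aa k) (fun x => h x * ((KK k : ℕ) - ((WW x i).card : ℝ))) =
      (if i.val = k then cc k ^ 2 else 0) * L0 (aa k) h := by
  have h1 : (fun x : PP k => h x * ((KK k : ℕ) - ((WW x i).card : ℝ))) =
      ((KK k : ℕ) : ℝ) • h - (2 * k : ℝ) • (fun x => h x * ((lev x i.val).card : ℝ)) +
      (fun x => (h x * ((lev x i.val).card : ℝ)) * ((lev x i.val).card : ℝ)) -
      (2 : ℝ) • (fun x => h x * ((lev x (i.val + 1)).card : ℝ)) := by
    funext x
    simp only [Pi.sub_apply, Pi.add_apply, Pi.smul_apply, smul_eq_mul]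
    rw [card_WW]
    ring
  have h2 := hh.mul bgen_idem (rep_lev hk i.val)
  have hi := i.isLt
  rw [h1, map_sub, map_add, map_sub, map_smul, map_smul, map_smul,
    L0_lev hk (by omega) (by omega) h2, L0_lev hk (by omega) (by omega) hh,
    L0_lev hk (by omega) (by omega) hh]
  simp only [smul_eq_mul]
  rw [← ah_identity i.val i.isLt]
  ring

theorem rep_mu (hk : 1 ≤ k) (p : Fin (k + 1) × Fin (NN k)) :
    Rep (bgen (ι := Fin k) (m := 2 * k) (k := k)) 2 2 (mu (frm k hk) p) := by
  obtain ⟨i, u⟩ := p
  have key : ∀ (i : ℕ) (j : Fin (2 * k)), Rep (bgen (ι := Fin k) (m := 2 * k) (k := k)) 1 1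
      (fun x => if j ∈ lev x i then (1 : ℝ) else 0) := by
    intro i j
    by_cases hi : i = 0
    · by_cases hj : j.val < k + 1
      · refine ((rep_const 1).mono (Nat.zero_le 1) (by rw [abs_one])).congr fun ω => ?_
        have hj' : j.val ≤ k := by omega
        simp [lev, hi, hj']
      · refine ((rep_zero 1).mono le_rfl zero_le_one).congr fun ω => ?_
        have hj' : ¬ j.val ≤ k := by omega
        simp [lev, hi, hj']
    · by_cases hi' : i - 1 < k
      · refine (rep_gen ((⟨i - 1, hi'⟩, j) : Fin k × Fin (2 * k))).congr fun ω => ?_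
        simp [lev, hi, hi', bgen]
      · by_cases hj : j.val < k
        · refine ((rep_const 1).mono (Nat.zero_le 1) (by rw [abs_one])).congr fun ω => ?_
          simp [lev, hi, hi', hj]
        · refine ((rep_zero 1).mono le_rfl zero_le_one).congr fun ω => ?_
          simp [lev, hi, hi', hj]
  have h1 : ∀ x : PP k, mu (frm k hk) (i, u) x =
      if memb (lev x i.val) (lev x (i.val + 1)) (el k u) then 1 else 0 := by
    intro x
    unfold mu frm
    dsimp only
    refine if_congr ?_ rfl rfl
    simp [WW]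
  rcases h : el k u with j | ⟨j, j'⟩
  · refine ((key (i.val + 1) j).mono (by norm_num) (by norm_num)).congr fun x => ?_
    rw [h1 x, h]
    rfl
  · have h2 := (key i.val j).mul bgen_idem (key i.val j').one_sub
    refine (h2.mono (by norm_num) (by norm_num)).congr fun x => ?_
    rw [h1 x, h]
    simp only [memb]
    by_cases ha : j ∈ lev x i.val <;> by_cases hb : j' ∈ lev x i.val <;> simp [ha, hb]

/-- The base functional has all required properties. -/
theorem base_hard (hk : 1 ≤ k) {d1 D1 : ℕ} (h1 : 3 * d1 ≤ k) (h2 : D1 + 2 ≤ k) :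
    Base (frm k hk) (bgen (ι := Fin k) (m := 2 * k) (k := k)) (L0 (aa k)) (cc k ^ 2) d1 D1 where
  hid := bgen_idem
  hmu := rep_mu hk
  hδ := by positivity
  psd h C hh := by
    refine L0_sq_nonneg (by omega) h1 ?_ ?_ hh
    · intro i
      unfold aa
      linarith [cc_pos (i.val + 1)]
    · intro i
      unfold aa
      linarith [cc_le_one (i.val + 1)]
  con i h C hh := by
    have e1 := L0_constraint hk i h2 hh
    have e2 : |L0 (aa k) h| ≤ C * 1 := by
      refine Rep.abs_le _ hh (fun A hA => ?_) zero_le_one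
      refine L0_mon_abs_le (by omega) ?_ ?_ A (by omega)
      · intro i
        unfold aa
        linarith [cc_pos (i.val + 1)]
      · intro i
        unfold aa
        have e3 := cc_le_one (i.val + 1)
        have e4 : (1 : ℝ) ≤ k := by exact_mod_cast hk
        push_cast
        linarith
    rw [mul_one] at e2
    change |L0 (aa k) (fun x => h x * ((KK k : ℕ) - ((WW x i).card : ℝ)))| ≤ _
    rw [e1, abs_mul]
    have e3 : |if i.val = k then cc k ^ 2 else 0| ≤ cc k ^ 2 := by
      split_ifs
      · rw [abs_of_nonneg (by positivity)]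
      · rw [abs_zero]
        positivity
    exact mul_le_mul e3 e2 (abs_nonneg _) (by positivity)

/-- The loss factor. -/
noncomputable def gam (k d : ℕ) : ℝ :=
  d * (8 * NN k : ℝ) ^ d * 2 ^ (k * (2 * k) + (k + 1) * (NN k * KK k)) *
    ((NN k + KK k + 2 : ℝ) ^ d) ^ 2 + (NN k + KK k + 2 : ℝ) ^ d * 2 ^ d

theorem pe_hard (hk : 1 ≤ k) {d : ℕ} (hd : 12 * d ≤ k) (hd' : 6 * d + 2 ≤ k) :
    PE (con k) (asg hk) (LL (I := Fin (k + 1)) (K := KK k) (L0 (aa k))) d
      (cc k ^ 2 * gam k d) := by
  have hB := base_hard hk (d1 := 4 * d) (D1 := 6 * d) (by omega) (by omega)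
  have hC0 : (1 : ℝ) ≤ NN k + KK k + 2 := by
    have h1 : (0 : ℝ) ≤ (NN k : ℝ) := Nat.cast_nonneg _
    have h2 : (0 : ℝ) ≤ (KK k : ℝ) := Nat.cast_nonneg _
    linarith
  have hsub : ∀ (f : PP k × Lab (Fin (k + 1)) (KK k) → ℝ) (C : ℝ), Rep (litg (asg hk)) d C f →
      Rep (lgen (frm k hk) (bgen (ι := Fin k) (m := 2 * k) (k := k))) d
        (C * (NN k + KK k + 2 : ℝ) ^ d) f := by
    intro f C hf
    have h1 := hf.subst (lgen_idem (frm k hk) bgen bgen_idem) id hC0
      (fun g => rep_litg hk g)
    rwa [mul_one] at h1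
  have hN : 1 ≤ NN k := by
    have : 2 * k ≤ 2 * k * (2 * k) + 2 * k := Nat.le_add_left _ _
    change 1 ≤ 2 * k * (2 * k) + 2 * k
    omega
  have hcard : Fintype.card ((Fin k × Fin (2 * k)) ⊕ (Fin (k + 1) × Fin (NN k) × Fin (KK k))) =
      k * (2 * k) + (k + 1) * (NN k * KK k) := by
    simp
  set A : ℝ := (NN k + KK k + 2 : ℝ) ^ d with hA
  set E : ℝ := d * (8 * NN k : ℝ) ^ d * 2 ^ (k * (2 * k) + (k + 1) * (NN k * KK k)) with hE
  have hA0 : 0 ≤ A := by positivity
  have hE0 : 0 ≤ E := by positivity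
  have hgam : gam k d = E * A ^ 2 + A * 2 ^ d := rfl
  have hgam0 : 0 ≤ gam k d := by rw [hgam]; positivity
  refine ⟨?_, by positivity, ?_, ?_⟩
  · rw [LL_apply]
    have h1 : av (fun _ : PP k × Lab (Fin (k + 1)) (KK k) => 1) = fun _ => (1 : ℝ) := by
      funext x
      exact av_one x
    rw [h1]
    exact L0_one (by omega)
  · intro f C hf
    have h1 := LL_sq_ge hB (by rw [Fintype.card_fin]; exact hN) (d := d) le_rfl le_rfl (hsub f C hf)
    rw [hcard, Fintype.card_fin] at h1
    refine le_trans ?_ h1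
    have h2 : cc k ^ 2 * d * (8 * (NN k : ℝ)) ^ d *
        2 ^ (k * (2 * k) + (k + 1) * (NN k * KK k)) = cc k ^ 2 * E := by
      rw [hE]
      ring
    rw [h2, hgam]
    have h3 : 0 ≤ cc k ^ 2 * (A * 2 ^ d) * C ^ 2 := by positivity
    have h4 : (C * A) ^ 2 = C ^ 2 * A ^ 2 := by ring
    rw [h4]
    nlinarith
  · intro c val hval f C hf
    have hC := hf.nonneg
    by_cases hc : ∃ i l, c = CIdx.eN i l
    · obtain ⟨i, l, rfl⟩ := hc
      have hv : val (0 : Fin 1) = false := hval
      have h1 : (fun ω => f ω * (if ∀ j, asg hk ω ((con k (CIdx.eN i l)).vars j) = val j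
          then (1 : ℝ) else 0)) = fun ω => f ω * unused (frm k hk) (i, l) ω := by
        funext ω
        rw [← asg_eN hk ω i l]
        congr 1
        refine if_congr ?_ rfl rfl
        constructor
        · intro h
          have := h (0 : Fin 1)
          rw [hv] at this
          exact this
        · intro h j
          have hj : j = (0 : Fin 1) := Subsingleton.elim (α := Fin 1) j 0
          subst hj
          rw [hv]
          exact h
      rw [h1]
      have h2 := LL_unused hB (hsub f C hf) (by omega) (i, l)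
      refine h2.trans ?_
      rw [hgam]
      have h3 : 0 ≤ cc k ^ 2 * (E * A ^ 2) * C := by positivity
      nlinarith
    · push Not at hc
      have h1 : (fun ω => f ω * (if ∀ j, asg hk ω ((con k c).vars j) = val j
          then (1 : ℝ) else 0)) = 0 := by
        funext ω
        rw [if_neg, mul_zero]
        · rfl
        · intro h
          have h2 := asg_ok hk ω c hc
          have h3 : (fun j => asg hk ω ((con k c).vars j)) = val := funext h
          rw [h3, hval] at h2
          exact absurd h2 (by decide)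
      rw [h1, map_zero, abs_zero]
      positivity

end

end Pool.Agent.Helper81_Sos
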