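import Mathlib
import Pool.Agent.Helper81_Sos.Pseudo

/-!
The exponential lower bounds on the bit size of refutations of the hard formulas.
-/

namespace Pool.Agent.Helper81_Sos

set_option linter.unusedSectionVars false

open MvPolynomial Finset

theorem pow_six_le {k : ℕ} (hk : 64 ≤ k) : k ^ 6 ≤ 2 ^ k := by
  induction k, hk using Nat.le_induction with
  | base => norm_num
  | succ k hk ih =>
    have h1 : (k + 1) ^ 6 ≤ 2 * k ^ 6 := by
      have e1 : (k + 1) ^ 6 = k ^ 6 + (6 * k ^ 5 + 15 * k ^ 4 + 20 * k ^ 3 + 15 * k ^ 2 + 6 * k + 1)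
        := by ring
      have e2 : k ^ 4 ≤ k ^ 5 := Nat.pow_le_pow_right (by omega) (by norm_num)
      have e3 : k ^ 3 ≤ k ^ 5 := Nat.pow_le_pow_right (by omega) (by norm_num)
      have e4 : k ^ 2 ≤ k ^ 5 := Nat.pow_le_pow_right (by omega) (by norm_num)
      have e5 : k ^ 1 ≤ k ^ 5 := Nat.pow_le_pow_right (by omega) (by norm_num)
      have e6 : 1 ≤ k ^ 5 := Nat.one_le_pow _ _ (by omega)
      have e7 : k ^ 6 = k * k ^ 5 := by ring
      have e8 : 64 * k ^ 5 ≤ k * k ^ 5 := Nat.mul_le_mul_right _ hk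
      rw [pow_one] at e5
      omega
    have h2 : 2 ^ (k + 1) = 2 * 2 ^ k := by ring
    rw [h2]
    omega

theorem gam_le {k d : ℕ} (hk : 128 ≤ k) (hd : d ≤ k) : 4 * gam k d ≤ 2 ^ 2 ^ k := by
  have hlt : ∀ n : ℕ, (n : ℝ) ≤ 2 ^ n := fun n => by exact_mod_cast (Nat.lt_two_pow_self).le
  have h1 : (d : ℝ) ≤ 2 ^ d := hlt d
  have h2 : (8 * NN k : ℝ) ^ d ≤ 2 ^ (8 * NN k * d) := by
    rw [pow_mul]
    refine pow_le_pow_left₀ (by positivity) ?_ d
    have := hlt (8 * NN k)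
    push_cast at this ⊢
    exact this
  have h3 : (NN k + KK k + 2 : ℝ) ^ d ≤ 2 ^ ((NN k + KK k + 2) * d) := by
    rw [pow_mul]
    refine pow_le_pow_left₀ (by positivity) ?_ d
    have := hlt (NN k + KK k + 2)
    push_cast at this ⊢
    exact this
  set T := d + 8 * NN k * d + (k * (2 * k) + (k + 1) * (NN k * KK k)) +
    (NN k + KK k + 2) * d * 2 with hT
  have h4 : gam k d ≤ 2 * 2 ^ T := by
    unfold gam
    have e1 : (d : ℝ) * (8 * NN k : ℝ) ^ d * 2 ^ (k * (2 * k) + (k + 1) * (NN k * KK k)) *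
        ((NN k + KK k + 2 : ℝ) ^ d) ^ 2 ≤ 2 ^ T := by
      have e0 : (2 : ℝ) ^ T = 2 ^ d * 2 ^ (8 * NN k * d) *
          2 ^ (k * (2 * k) + (k + 1) * (NN k * KK k)) * (2 ^ ((NN k + KK k + 2) * d)) ^ 2 := by
        rw [← pow_mul, ← pow_add, ← pow_add, ← pow_add, hT]
      rw [e0]
      refine mul_le_mul (mul_le_mul (mul_le_mul h1 h2 (by positivity) (by positivity)) le_rfl
        (by positivity) (by positivity)) (pow_le_pow_left₀ (by positivity) h3 2)
        (by positivity) (by positivity)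
    have e2 : (NN k + KK k + 2 : ℝ) ^ d * 2 ^ d ≤ 2 ^ T := by
      calc (NN k + KK k + 2 : ℝ) ^ d * 2 ^ d ≤ 2 ^ ((NN k + KK k + 2) * d) * 2 ^ d := by gcongr
        _ = 2 ^ ((NN k + KK k + 2) * d + d) := (pow_add _ _ _).symm
        _ ≤ 2 ^ T := pow_le_pow_right₀ (by norm_num) (by omega)
    linarith
  have h5 : T + 3 ≤ 2 ^ k := by
    refine le_trans ?_ (pow_six_le (by omega))
    have hN : NN k ≤ 6 * k ^ 2 := by
      change 2 * k * (2 * k) + 2 * k ≤ _
      nlinarith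
    have hK : KK k ≤ 3 * k ^ 2 := by
      change k ^ 2 + 2 * k ≤ _
      nlinarith
    have g1 : 8 * NN k * d ≤ 48 * k ^ 3 := by
      calc 8 * NN k * d ≤ 8 * (6 * k ^ 2) * k := by gcongr
        _ = _ := by ring
    have g2 : (k + 1) * (NN k * KK k) ≤ 36 * k ^ 5 := by
      calc (k + 1) * (NN k * KK k) ≤ (2 * k) * ((6 * k ^ 2) * (3 * k ^ 2)) := by
            gcongr
            omega
        _ = _ := by ring
    have g3 : (NN k + KK k + 2) * d * 2 ≤ 20 * k ^ 3 := by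
      calc (NN k + KK k + 2) * d * 2 ≤ (6 * k ^ 2 + 3 * k ^ 2 + k ^ 2) * k * 2 := by
            gcongr
            nlinarith
        _ = _ := by ring
    have g4 : k ^ 3 ≤ k ^ 5 := Nat.pow_le_pow_right (by omega) (by norm_num)
    have g5 : k ^ 2 ≤ k ^ 5 := Nat.pow_le_pow_right (by omega) (by norm_num)
    have g6 : k ^ 1 ≤ k ^ 5 := Nat.pow_le_pow_right (by omega) (by norm_num)
    have g7 : 1 ≤ k ^ 5 := Nat.one_le_pow _ _ (by omega)
    have g8 : k ^ 6 = k * k ^ 5 := by ring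
    have g9 : 128 * k ^ 5 ≤ k * k ^ 5 := Nat.mul_le_mul_right _ hk
    have g10 : k * (2 * k) = 2 * k ^ 2 := by ring
    rw [pow_one] at g6
    omega
  calc 4 * gam k d ≤ 4 * (2 * 2 ^ T) := by linarith
    _ = 2 ^ (T + 3) := by rw [pow_add]; ring
    _ ≤ 2 ^ 2 ^ k := pow_le_pow_right₀ (by norm_num) h5

theorem eps_le {k d : ℕ} (hk : 128 ≤ k) (hd : d ≤ k) : cc k ^ 2 * gam k d * 2 ^ 2 ^ k ≤ 1 := by
  have h1 := gam_le hk hd
  have h2 : (0 : ℝ) < 2 ^ 2 ^ k := by positivity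
  have h3 : cc k ^ 2 * gam k d * 2 ^ 2 ^ k = 4 * gam k d / 2 ^ 2 ^ k := by
    unfold cc
    field_simp
    ring
  rw [h3, div_le_one h2]
  exact h1

theorem two_le_polyBits {V : Type} {p : Poly V} (hp : p ≠ 0) : 2 ≤ polyBits p := by
  obtain ⟨m, hm⟩ := MvPolynomial.support_nonempty.mpr hp
  have h1 : ratBits (p.coeff m) ≤ polyBits p :=
    Finset.single_le_sum (f := fun m => ratBits (p.coeff m)) (fun _ _ => Nat.zero_le _) hm
  refine le_trans ?_ h1
  unfold ratBits
  have h2 : 0 < Nat.size (p.coeff m).den := Nat.size_pos.mpr (p.coeff m).pos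
  have h3 : 0 < Nat.size (p.coeff m).num.natAbs := by
    rw [Nat.size_pos, Int.natAbs_pos, Rat.num_ne_zero]
    exact MvPolynomial.mem_support_iff.mp hm
  omega

theorem two_le_sos_bits {V : Type} [Fintype V] {F : CNF V} (π : SOSRefutation F) :
    2 ≤ π.bits := by
  by_contra hlt
  have hz : ∀ p : Poly V, polyBits p < 2 → p = 0 := fun p hp => by
    by_contra h
    exact absurd (two_le_polyBits h) (by omega)
  unfold SOSRefutation.bits at hlt
  have h1 : ∀ p ∈ π.squares, p = 0 := by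
    intro p hp
    apply hz
    have := List.single_le_sum (l := π.squares.map polyBits) (by simp) _ (List.mem_map_of_mem hp)
    omega
  have h2 : ∀ c ∈ F, π.t c = 0 := by
    intro c hc
    apply hz
    have := Finset.single_le_sum (f := fun c => polyBits (π.t c)) (fun _ _ => Nat.zero_le _) hc
    omega
  have h3 : ∀ v, π.u v = 0 ∧ π.w v = 0 := by
    intro v
    have := Finset.single_le_sum (f := fun v => polyBits (π.u v) + polyBits (π.w v))
      (fun _ _ => Nat.zero_le _) (Finset.mem_univ v)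
    exact ⟨hz _ (by omega), hz _ (by omega)⟩
  have h4 := π.identity
  rw [Finset.sum_eq_zero fun c hc => by rw [h2 c hc, zero_mul],
    Finset.sum_eq_zero fun v _ => by rw [(h3 v).1, (h3 v).2, zero_mul, zero_mul, add_zero]] at h4
  have h5 : (π.squares.map fun r => r ^ 2).sum = 0 := by
    apply List.sum_eq_zero
    intro x hx
    obtain ⟨p, hp, rfl⟩ := List.mem_map.mp hx
    rw [h1 p hp]
    simp
  rw [h5, add_zero, add_zero] at h4
  have h6 := congrArg (MvPolynomial.coeff 0) h4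
  simp at h6

theorem two_le_pcr_bits {V : Type} {F : CNF V} (π : PCRRefutation F) : 2 ≤ π.bits := by
  have h1 : (1 : Poly V) ∈ π.lines := List.mem_of_getLast? π.final
  have h2 := List.single_le_sum (l := π.lines.map polyBits) (by simp) _ (List.mem_map_of_mem h1)
  exact (two_le_polyBits one_ne_zero).trans h2

theorem wide_case {k D B : ℕ} (hD : k < 64 * (D + 1)) (hB : 2 ≤ B) (h : 4 ^ D ≤ B * 3 ^ D) :
    2 ^ k ≤ B ^ 256 := by
  have h1 : 2 ^ D ≤ B ^ 3 := by
    have e1 : (4 ^ D) ^ 3 ≤ (B * 3 ^ D) ^ 3 := Nat.pow_le_pow_left h 3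
    have e2 : 2 ^ D * 27 ^ D ≤ (4 ^ D) ^ 3 := by
      rw [← mul_pow, ← pow_mul, mul_comm D 3, pow_mul]
      exact Nat.pow_le_pow_left (by norm_num) D
    have e3 : (B * 3 ^ D) ^ 3 = B ^ 3 * 27 ^ D := by
      rw [mul_pow, ← pow_mul, mul_comm D 3, pow_mul]
      norm_num
    rw [e3] at e1
    exact Nat.le_of_mul_le_mul_right (e2.trans e1) (by positivity)
  calc 2 ^ k ≤ 2 ^ (64 * (D + 1)) := Nat.pow_le_pow_right (by norm_num) hD.le
    _ = (2 ^ D) ^ 64 * 2 ^ 64 := by ring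
    _ ≤ (B ^ 3) ^ 64 * B ^ 64 := Nat.mul_le_mul (Nat.pow_le_pow_left h1 64)
        (Nat.pow_le_pow_left hB 64)
    _ = B ^ 256 := by ring

theorem exp_of_eps {k E : ℕ} {ε : ℝ} (h1 : 1 ≤ ε * 2 ^ E) (h2 : ε * 2 ^ 2 ^ k ≤ 1) :
    2 ^ k ≤ E := by
  have h3 : (2 : ℝ) ^ 2 ^ k ≤ 2 ^ E := by
    calc (2 : ℝ) ^ 2 ^ k = 2 ^ 2 ^ k * 1 := (mul_one _).symm
      _ ≤ 2 ^ 2 ^ k * (ε * 2 ^ E) := mul_le_mul_of_nonneg_left h1 (by positivity)
      _ = (ε * 2 ^ 2 ^ k) * 2 ^ E := by ring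
      _ ≤ 1 * 2 ^ E := mul_le_mul_of_nonneg_right h2 (by positivity)
      _ = 2 ^ E := one_mul _
  exact (pow_le_pow_iff_right₀ (by norm_num : (1 : ℝ) < 2)).mp h3

theorem sos_lower_final (k : ℕ) (π : SOSRefutation (hardCNF k)) : 2 ^ k ≤ π.bits ^ 256 := by
  have hB := two_le_sos_bits π
  by_cases hk : 128 ≤ k
  · set D := k / 64 with hD
    have hDk : k < 64 * (D + 1) := by omega
    by_cases hw : π.bits * 3 ^ D < 4 ^ D
    · have hpe := pe_hard (k := k) (by omega) (d := 4 * D + 1) (by omega) (by omega)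
      have h1 := sos_lower hpe (con_inj k) (D := D) (by omega) π hw
      have h2 := exp_of_eps h1 (eps_le hk (by omega))
      refine h2.trans ?_
      calc 2 * π.bits + 1 ≤ π.bits ^ 3 := by
            have e1 : 4 ≤ π.bits ^ 2 := Nat.pow_le_pow_left hB 2
            calc 2 * π.bits + 1 ≤ 4 * π.bits := by omega
              _ ≤ π.bits ^ 2 * π.bits := Nat.mul_le_mul_right _ e1
              _ = π.bits ^ 3 := by ring
        _ ≤ π.bits ^ 256 := Nat.pow_le_pow_right (by omega) (by norm_num)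
    · exact wide_case hDk hB (not_lt.mp hw)
  · calc 2 ^ k ≤ 2 ^ 256 := Nat.pow_le_pow_right (by norm_num) (by omega)
      _ ≤ π.bits ^ 256 := Nat.pow_le_pow_left hB _

theorem pcr_lower_final (k : ℕ) (π : PCRRefutation (hardCNF k)) : 2 ^ k ≤ π.bits ^ 256 := by
  have hB := two_le_pcr_bits π
  by_cases hk : 128 ≤ k
  · set D := k / 64 with hD
    have hDk : k < 64 * (D + 1) := by omega
    by_cases hw : π.bits * 3 ^ D < 4 ^ D
    · have hpe := pe_hard (k := k) (by omega) (d := 4 * D + 1) (by omega) (by omega)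
      have h1 := pcr_lower hpe (con_inj k) (D := D) (by omega) π hw
      have h2 := exp_of_eps h1 (eps_le hk (by omega))
      refine h2.trans ?_
      calc (14 * π.bits + 5) * π.bits ≤ π.bits ^ 7 := by
            have e1 : (14 * π.bits + 5) * π.bits ≤ 32 * π.bits ^ 2 := by nlinarith
            have e2 : 32 ≤ π.bits ^ 5 := Nat.pow_le_pow_left hB 5
            calc (14 * π.bits + 5) * π.bits ≤ 32 * π.bits ^ 2 := e1
              _ ≤ π.bits ^ 5 * π.bits ^ 2 := Nat.mul_le_mul_right _ e2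
              _ = π.bits ^ 7 := by ring
        _ ≤ π.bits ^ 256 := Nat.pow_le_pow_right (by omega) (by norm_num)
    · exact wide_case hDk hB (not_lt.mp hw)
  · calc 2 ^ k ≤ 2 ^ 256 := Nat.pow_le_pow_right (by norm_num) (by omega)
      _ ≤ π.bits ^ 256 := Nat.pow_le_pow_left hB _

end Pool.Agent.Helper81_Sos
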