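import Mathlib
import Pool.Agent.Helper81_Sos.Derive
import Pool.Agent.Helper81_Sos.Lift
import Pool.Agent.Helper81_Sos.Formula

/-!
Local completeness: a polynomial in the variables of one constraint that vanishes on all allowed
tuples is derivable from the lifted clauses of the constraint, with a cost that does not depend on
the constraint but only on its shape.
-/

namespace Pool.Agent.Helper81_Sos

set_option linter.unusedSectionVars false

open MvPolynomial Finset

section

variable {A : Type} [Fintype A] [DecidableEq A]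

/-- Evaluation at a Boolean point. -/
noncomputable def ev (b : A → Bool) (Q : Poly A) : ℚ :=
  MvPolynomial.eval (fun w : A × Bool => if b w.1 = w.2 then (1 : ℚ) else 0) Q

/-- The Boolean interpolation formula in a quotient where the logical axioms hold. -/
theorem interpolation {R : Type} [CommRing R] [Algebra ℚ R] (φ : Poly A →ₐ[ℚ] R)
    (h1 : ∀ a, φ (X (a, true)) + φ (X (a, false)) = 1)
    (h2 : ∀ a, φ (X (a, true)) * φ (X (a, true)) = φ (X (a, true))) (Q : Poly A) :
    φ Q = ∑ b : A → Bool, algebraMap ℚ R (ev b Q) * ∏ a, φ (X (a, b a)) := by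
  have hff : ∀ a, φ (X (a, false)) = 1 - φ (X (a, true)) := by
    intro a
    rw [← h1 a]
    ring
  have hself : ∀ (w : A × Bool), φ (X w) * φ (X w) = φ (X w) := by
    rintro ⟨a, b⟩
    cases b
    · rw [hff]
      linear_combination h2 a
    · exact h2 a
  have hcross : ∀ (a : A) (b : Bool), φ (X (a, b)) * φ (X (a, !b)) = 0 := by
    intro a b
    cases b
    · change φ (X (a, false)) * φ (X (a, true)) = 0
      rw [hff]
      linear_combination -h2 a
    · change φ (X (a, true)) * φ (X (a, false)) = 0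
      rw [hff]
      linear_combination -h2 a
  induction Q using MvPolynomial.induction_on with
  | C c =>
    have e1 : ∀ b : A → Bool, ev b (C c : Poly A) = c := fun b => by simp [ev]
    simp only [e1]
    rw [← Finset.mul_sum]
    have e2 : ∑ b : A → Bool, ∏ a, φ (X (a, b a)) = ∏ a : A, ∑ β : Bool, φ (X (a, β)) := by
      rw [Finset.prod_univ_sum, Fintype.piFinset_univ]
    rw [e2, Finset.prod_eq_one, mul_one]
    · exact AlgHom.commutes φ c
    · intro a _
      rw [Fintype.sum_bool]
      exact h1 a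
  | add p q hp hq =>
    have e1 : ∀ b : A → Bool, ev b (p + q) = ev b p + ev b q := fun b => by simp [ev]
    simp only [e1]
    rw [map_add, hp, hq, ← Finset.sum_add_distrib]
    refine Finset.sum_congr rfl fun b _ => ?_
    rw [map_add]
    ring
  | mul_X p w hp =>
    rw [map_mul, hp, Finset.sum_mul]
    refine Finset.sum_congr rfl fun b _ => ?_
    have e1 : ev b (p * X w) = ev b p * (if b w.1 = w.2 then (1 : ℚ) else 0) := by
      simp [ev]
    rw [e1, map_mul, ← Finset.mul_prod_erase _ _ (Finset.mem_univ w.1)]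
    obtain ⟨a, β⟩ := w
    dsimp only
    by_cases hb : b a = β
    · rw [if_pos hb, hb, map_one]
      calc _ = algebraMap ℚ R (ev b p) * ((φ (X (a, β)) * φ (X (a, β))) *
            ∏ x ∈ univ.erase a, φ (X (x, b x))) := by ring
        _ = _ := by rw [hself (a, β)]; ring
    · rw [if_neg hb, map_zero]
      have hb' : b a = !β := by
        cases h : b a <;> cases h' : β <;> simp_all
      rw [hb']
      calc _ = algebraMap ℚ R (ev b p) * ((φ (X (a, β)) * φ (X (a, !β))) *
            ∏ x ∈ univ.erase a, φ (X (x, b x))) := by ring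
        _ = _ := by rw [hcross]; ring

end

section

variable {r : ℕ}

/-- The renaming of the abstract variables. -/
def rmap {V : Type} (vars : Fin r → V) (w : (Fin r × Bool) × Bool) : (V × Bool) × Bool :=
  ((vars w.1.1, w.1.2), w.2)

/-- The tuple of exclusive ors. -/
def xors (b : Fin r × Bool → Bool) (j : Fin r) : Bool := xor (b (j, false)) (b (j, true))

/-- `Q` is derivable, with a uniform cost, from every instance of the constraint `ok`. -/
def UG (ok : (Fin r → Bool) → Bool) (Q : Poly (Fin r × Bool)) : Prop :=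
  ∃ s : ℕ, ∀ (V : Type) [Fintype V] [DecidableEq V] [Nonempty V] (F : CNF (V × Bool))
    (vars : Fin r → V), Function.Injective vars →
    (∀ b : Fin r → Bool → Bool, ok (fun j => xor (b j false) (b j true)) = false →
      exclClause vars b ∈ F) → Good F s (rename (rmap vars) Q)

theorem ug_add {ok : (Fin r → Bool) → Bool} {P Q : Poly (Fin r × Bool)} (hP : UG ok P)
    (hQ : UG ok Q) : UG ok (P + Q) := by
  obtain ⟨s, hs⟩ := hP
  obtain ⟨s', hs'⟩ := hQ
  refine ⟨2 * (s + s'), fun V _ _ _ F vars hv hF => ?_⟩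
  rw [map_add]
  exact (hs V F vars hv hF).add (hs' V F vars hv hF)

theorem ug_mul {ok : (Fin r → Bool) → Bool} {Q : Poly (Fin r × Bool)} (hQ : UG ok Q)
    (c : Poly (Fin r × Bool)) : UG ok (c * Q) := by
  induction c using MvPolynomial.induction_on with
  | C a =>
    obtain ⟨s, hs⟩ := hQ
    refine ⟨2 * s, fun V _ _ _ F vars hv hF => ?_⟩
    rw [map_mul, rename_C]
    exact (hs V F vars hv hF).C_mul a
  | add p q hp hq =>
    rw [add_mul]
    exact ug_add hp hq
  | mul_X p w hp =>
    obtain ⟨s, hs⟩ := hp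
    refine ⟨2 * s, fun V _ _ _ F vars hv hF => ?_⟩
    have e1 : p * X w * Q = X w * (p * Q) := by ring
    rw [e1, map_mul, rename_X]
    exact (hs V F vars hv hF).X_mul _

/-- The uniformly derivable polynomials form an ideal. -/
def ugIdeal (ok : (Fin r → Bool) → Bool) : Ideal (Poly (Fin r × Bool)) where
  carrier := {Q | UG ok Q}
  add_mem' := fun hP hQ => ug_add hP hQ
  zero_mem' := ⟨4, fun V _ _ _ F vars hv hF => by rw [map_zero]; exact good_zero⟩
  smul_mem' := fun c _ hQ => ug_mul hQ c

theorem ug_bool (ok : (Fin r → Bool) → Bool) (a : Fin r × Bool) : UG ok (boolAx a) := by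
  refine ⟨2, fun V _ _ _ F vars hv hF => ?_⟩
  have : rename (rmap vars) (boolAx a) = boolAx (vars a.1, a.2) := by
    simp [boolAx, rmap]
  rw [this]
  exact good_bool _

theorem ug_twin (ok : (Fin r → Bool) → Bool) (a : Fin r × Bool) : UG ok (twinAx a) := by
  refine ⟨3, fun V _ _ _ F vars hv hF => ?_⟩
  have : rename (rmap vars) (twinAx a) = twinAx (vars a.1, a.2) := by
    simp [twinAx, rmap]
  rw [this]
  exact good_twin _

theorem ug_clause (ok : (Fin r → Bool) → Bool) (b : Fin r × Bool → Bool)
    (hb : ok (xors b) = false) : UG ok (∏ a, X (a, b a)) := by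
  refine ⟨1, fun V _ _ _ F vars hv hF => ?_⟩
  have h1 := hF (fun j c => b (j, c)) hb
  have h2 := exclClause_poly hv (fun j c => b (j, c))
  have h3 : rename (rmap vars) (∏ a, X (a, b a)) =
      (exclClause vars (fun j c => b (j, c))).poly := by
    rw [h2, map_prod]
    refine Finset.prod_congr rfl fun a _ => ?_
    rw [rename_X]
    rfl
  rw [h3]
  exact good_clause h1

/-- Local completeness. -/
theorem ug_of_vanish (ok : (Fin r → Bool) → Bool) (Q : Poly (Fin r × Bool))
    (h : ∀ b : Fin r × Bool → Bool, ok (xors b) = true → ev b Q = 0) : UG ok Q := by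
  change Q ∈ ugIdeal ok
  rw [← Ideal.Quotient.eq_zero_iff_mem]
  have h1 := interpolation (Ideal.Quotient.mkₐ ℚ (ugIdeal ok)) ?_ ?_ Q
  · change Ideal.Quotient.mkₐ ℚ (ugIdeal ok) Q = 0
    rw [h1]
    refine Finset.sum_eq_zero fun b _ => ?_
    cases hb : ok (xors b)
    · have h2 : Ideal.Quotient.mkₐ ℚ (ugIdeal ok) (∏ a, X (a, b a)) = 0 :=
        Ideal.Quotient.eq_zero_iff_mem.mpr (ug_clause ok b hb)
      rw [map_prod] at h2
      rw [h2, mul_zero]
    · rw [h b hb, map_zero, zero_mul]
  · intro a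
    have h2 : Ideal.Quotient.mkₐ ℚ (ugIdeal ok) (twinAx a) = 0 :=
      Ideal.Quotient.eq_zero_iff_mem.mpr (ug_twin ok a)
    unfold twinAx at h2
    rw [map_sub, map_add, map_one] at h2
    exact sub_eq_zero.mp h2
  · intro a
    have h2 : Ideal.Quotient.mkₐ ℚ (ugIdeal ok) (boolAx a) = 0 :=
      Ideal.Quotient.eq_zero_iff_mem.mpr (ug_bool ok a)
    unfold boolAx at h2
    rw [map_sub, map_pow, sq] at h2
    exact sub_eq_zero.mp h2

end

/-- The exclusive or of the two copies of `v`, as a polynomial. -/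
noncomputable def Lp {V : Type} (v : V) : Poly (V × Bool) :=
  X ((v, false), true) + X ((v, true), true) -
    2 * (X ((v, false), true) * X ((v, true), true))

theorem rename_Lp {r : ℕ} {V : Type} (vars : Fin r → V) (j : Fin r) :
    rename (rmap vars) (Lp j) = Lp (vars j) := by
  simp only [Lp, map_sub, map_add, map_mul, rename_X, rmap, map_ofNat]

theorem ev_Lp {r : ℕ} (b : Fin r × Bool → Bool) (j : Fin r) :
    ev b (Lp j) = if xors b j = true then 1 else 0 := by
  unfold ev Lp xors
  simp only [map_sub, map_add, map_mul, eval_X, map_ofNat]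
  cases b (j, false) <;> cases b (j, true) <;> norm_num

theorem ug_zero_iff : UG (r := 1) (fun b => !b 0) (Lp 0) := by
  refine ug_of_vanish _ _ fun b hb => ?_
  rw [ev_Lp]
  simpa using hb

theorem ug_one_iff : UG (r := 1) (fun b => b 0) (Lp 0 - 1) := by
  refine ug_of_vanish _ _ fun b hb => ?_
  have h1 : ev b (Lp (0 : Fin 1) - 1) = ev b (Lp 0) - 1 := by simp [ev]
  rw [h1, ev_Lp, if_pos hb, sub_self]

theorem ug_const (v : Bool) :
    UG (r := 1) (fun b => b 0 == v) (Lp 0 - C (if v = true then 1 else 0)) := by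
  refine ug_of_vanish _ _ fun b hb => ?_
  have h1 : ev b (Lp (0 : Fin 1) - C (if v = true then 1 else 0)) =
      ev b (Lp 0) - (if v = true then 1 else 0) := by
    simp [ev]
  have h2 : xors b 0 = v := by simpa using hb
  rw [h1, ev_Lp, h2, sub_self]

theorem ug_idem : UG (r := 1) (fun _ => true) (Lp 0 * Lp 0 - Lp 0) := by
  refine ug_of_vanish _ _ fun b hb => ?_
  have h1 : ev b (Lp (0 : Fin 1) * Lp 0 - Lp 0) = ev b (Lp 0) * ev b (Lp 0) - ev b (Lp 0) := by
    simp [ev]
  rw [h1, ev_Lp]
  split_ifs <;> norm_num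

theorem ug_eq : UG (r := 2) (fun b => b 0 == b 1) (Lp 0 - Lp 1) := by
  refine ug_of_vanish _ _ fun b hb => ?_
  have h1 : ev b (Lp (0 : Fin 2) - Lp 1) = ev b (Lp 0) - ev b (Lp 1) := by simp [ev]
  have h2 : xors b 0 = xors b 1 := by simpa using hb
  rw [h1, ev_Lp, ev_Lp, h2, sub_self]

theorem ug_pair : UG (r := 3) (fun b => b 0 == (b 1 && !b 2)) (Lp 0 - Lp 1 * (1 - Lp 2)) := by
  refine ug_of_vanish _ _ fun b hb => ?_
  have h1 : ev b (Lp (0 : Fin 3) - Lp 1 * (1 - Lp 2)) =
      ev b (Lp 0) - ev b (Lp 1) * (1 - ev b (Lp 2)) := by simp [ev]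
  have h2 : xors b 0 = (xors b 1 && !xors b 2) := by simpa using hb
  rw [h1, ev_Lp, ev_Lp, ev_Lp, h2]
  cases xors b 1 <;> cases xors b 2 <;> norm_num

theorem ug_gate : UG (r := 4) (fun b => (b 0).toNat + (b 1).toNat == (b 2).toNat + (b 3).toNat)
    (Lp 2 + Lp 3 - Lp 0 - Lp 1) := by
  refine ug_of_vanish _ _ fun b hb => ?_
  have h1 : ev b (Lp (2 : Fin 4) + Lp 3 - Lp 0 - Lp 1) =
      ev b (Lp 2) + ev b (Lp 3) - ev b (Lp 0) - ev b (Lp 1) := by simp [ev]
  have h2 : (xors b 0).toNat + (xors b 1).toNat = (xors b 2).toNat + (xors b 3).toNat := by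
    simpa using hb
  rw [h1, ev_Lp, ev_Lp, ev_Lp, ev_Lp]
  revert h2
  cases xors b 0 <;> cases xors b 1 <;> cases xors b 2 <;> cases xors b 3 <;> norm_num

/-- The polynomial of an element. -/
noncomputable def elPoly {k : ℕ} (i : Fin (k + 1)) : El k → Poly (BVar k × Bool)
  | El.single j => Lp (BVar.x i.succ j)
  | El.pair j j' => Lp (BVar.x i.castSucc j) * (1 - Lp (BVar.x i.castSucc j'))

/-- All local polynomials are derivable with cost `s`. -/
structure LocalGood (k s : ℕ) : Prop where
  gate : ∀ (i : Fin (k + 1)) (u : Fin (NN k)) (l : Fin (KK k)), Good (hardCNF k) s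
    (Lp (BVar.g i u l.succ) + Lp (BVar.e i l u.succ) - Lp (BVar.g i u l.castSucc) -
      Lp (BVar.e i l u.castSucc))
  inp : ∀ (i : Fin (k + 1)) (u : Fin (NN k)), Good (hardCNF k) s
    (Lp (BVar.g i u 0) - elPoly i (el k u))
  e0 : ∀ (i : Fin (k + 1)) (l : Fin (KK k)), Good (hardCNF k) s (Lp (BVar.e i l 0))
  gK : ∀ (i : Fin (k + 1)) (u : Fin (NN k)), Good (hardCNF k) s (Lp (BVar.g i u (Fin.last _)))
  eN : ∀ (i : Fin (k + 1)) (l : Fin (KK k)), Good (hardCNF k) s
    (Lp (BVar.e i l (Fin.last _)) - 1)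
  x0 : ∀ j : Fin (2 * k), Good (hardCNF k) s
    (Lp (BVar.x 0 j) - C (if decide (j.val < k + 1) = true then 1 else 0))
  x1 : ∀ j : Fin (2 * k), Good (hardCNF k) s
    (Lp (BVar.x (Fin.last _) j) - C (if decide (j.val < k) = true then 1 else 0))
  idem : ∀ v : BVar k, Good (hardCNF k) s (Lp v * Lp v - Lp v)

theorem mem_hard {k : ℕ} (c : CIdx k) (b : Fin (con k c).r → Bool → Bool)
    (hb : (con k c).ok (fun j => xor (b j false) (b j true)) = false) :
    exclClause (con k c).vars b ∈ hardCNF k :=
  mem_liftCNF.mpr ⟨c, b, hb, rfl⟩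

theorem exists_localGood : ∃ s : ℕ, 4 ≤ s ∧ ∀ k : ℕ, 1 ≤ k → LocalGood k s := by
  obtain ⟨s1, h1⟩ := ug_gate
  obtain ⟨s2, h2⟩ := ug_eq
  obtain ⟨s3, h3⟩ := ug_pair
  obtain ⟨s4, h4⟩ := ug_zero_iff
  obtain ⟨s5, h5⟩ := ug_one_iff
  obtain ⟨s6, h6⟩ := ug_const true
  obtain ⟨s7, h7⟩ := ug_const false
  obtain ⟨s8, h8⟩ := ug_idem
  refine ⟨4 + s1 + s2 + s3 + s4 + s5 + s6 + s7 + s8, by omega, fun k hk => ?_⟩
  have hne : Nonempty (BVar k) := ⟨BVar.x 0 ⟨0, by omega⟩⟩
  refine ⟨?_, ?_, ?_, ?_, ?_, ?_, ?_, ?_⟩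
  · intro i u l
    have := h1 (BVar k) (hardCNF k) ![BVar.g i u l.castSucc, BVar.e i l u.castSucc,
      BVar.g i u l.succ, BVar.e i l u.succ]
      (con_inj k (CIdx.gate i u l)) (mem_hard (CIdx.gate i u l))
    simp only [map_sub, map_add, rename_Lp] at this
    exact this.mono (by omega)
  · intro i u
    have hinj := con_inj k (CIdx.inp i u)
    have hmem := mem_hard (CIdx.inp i u)
    simp only [con] at hinj hmem
    rcases h : el k u with j | ⟨j, j'⟩
    · rw [h] at hinj hmem
      have := h2 (BVar k) (hardCNF k) ![BVar.g i u 0, BVar.x i.succ j] hinj hmem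
      simp only [map_sub, rename_Lp] at this
      exact this.mono (by omega)
    · rw [h] at hinj hmem
      have := h3 (BVar k) (hardCNF k)
        ![BVar.g i u 0, BVar.x i.castSucc j, BVar.x i.castSucc j'] hinj hmem
      simp only [map_sub, map_mul, map_one, rename_Lp] at this
      exact this.mono (by omega)
  · intro i l
    have := h4 (BVar k) (hardCNF k) ![BVar.e i l 0]
      (con_inj k (CIdx.e0 i l)) (mem_hard (CIdx.e0 i l))
    simp only [rename_Lp] at this
    exact this.mono (by omega)
  · intro i u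
    have := h4 (BVar k) (hardCNF k) ![BVar.g i u (Fin.last _)]
      (con_inj k (CIdx.gK i u)) (mem_hard (CIdx.gK i u))
    simp only [rename_Lp] at this
    exact this.mono (by omega)
  · intro i l
    have := h5 (BVar k) (hardCNF k) ![BVar.e i l (Fin.last _)]
      (con_inj k (CIdx.eN i l)) (mem_hard (CIdx.eN i l))
    simp only [map_sub, map_one, rename_Lp] at this
    exact this.mono (by omega)
  · intro j
    have hinj := con_inj k (CIdx.x0 j)
    have hmem := mem_hard (CIdx.x0 j)
    simp only [con] at hinj hmem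
    cases hd : decide (j.val < k + 1)
    · rw [hd] at hmem
      have := h7 (BVar k) (hardCNF k) _ hinj hmem
      simp only [map_sub, rename_Lp, rename_C] at this
      exact this.mono (by omega)
    · rw [hd] at hmem
      have := h6 (BVar k) (hardCNF k) _ hinj hmem
      simp only [map_sub, rename_Lp, rename_C] at this
      exact this.mono (by omega)
  · intro j
    have hinj := con_inj k (CIdx.x1 j)
    have hmem := mem_hard (CIdx.x1 j)
    simp only [con] at hinj hmem
    cases hd : decide (j.val < k)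
    · rw [hd] at hmem
      have := h7 (BVar k) (hardCNF k) _ hinj hmem
      simp only [map_sub, rename_Lp, rename_C] at this
      exact this.mono (by omega)
    · rw [hd] at hmem
      have := h6 (BVar k) (hardCNF k) _ hinj hmem
      simp only [map_sub, rename_Lp, rename_C] at this
      exact this.mono (by omega)
  · intro v
    have := h8 (BVar k) (hardCNF k) ![v] (inj_one v) (fun b hb => absurd hb (by simp))
    simp only [map_sub, map_mul, rename_Lp] at this
    exact this.mono (by omega)

end Pool.Agent.Helper81_Sos
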