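import Mathlib
import Pool.Agent.Helper81_Sos.Local

/-!
Short derivations of the level relations `2 Y_{i+1} = Y_i ^ 2` from the hard formulas.
-/

namespace Pool.Agent.Helper81_Sos

set_option linter.unusedSectionVars false

open MvPolynomial Finset

theorem sum_telescope {M : Type*} [AddCommGroup M] {n : ℕ} (f : Fin (n + 1) → M) :
    ∑ l : Fin n, (f l.succ - f l.castSucc) = f (Fin.last n) - f 0 := by
  have h1 := Fin.sum_univ_succ f
  have h2 := Fin.sum_univ_castSucc f
  rw [Finset.sum_sub_distrib]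
  have h3 : f 0 + ∑ i : Fin n, f i.succ = ∑ i : Fin n, f i.castSucc + f (Fin.last n) := by
    rw [← h1, ← h2]
  have h4 : ∑ i : Fin n, f i.succ = ∑ i : Fin n, f i.castSucc + f (Fin.last n) - f 0 := by
    rw [← h3]
    abel
  rw [h4]
  abel

section

variable {k : ℕ}

/-- The size of level `i`. -/
noncomputable def Xp (i : Fin (k + 2)) : Poly (BVar k × Bool) := ∑ j, Lp (BVar.x i j)

/-- The size of level `i`, shifted by `k`. -/
noncomputable def Yp (i : Fin (k + 2)) : Poly (BVar k × Bool) := Xp i - C (k : ℚ)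

theorem sum_elPoly (i : Fin (k + 1)) :
    ∑ u, elPoly i (el k u) = 2 * Xp i.succ + (C (2 * k : ℚ) * Xp i.castSucc -
      Xp i.castSucc * Xp i.castSucc) +
      ∑ j, (Lp (BVar.x i.castSucc j) * Lp (BVar.x i.castSucc j) - Lp (BVar.x i.castSucc j)) := by
  have h1 : ∑ u, elPoly i (el k u) = ∑ p, elPoly i (elOf k p) := by
    rw [← Equiv.sum_comp (uEquiv k)]
    refine Finset.sum_congr rfl fun p _ => ?_
    rw [el, Equiv.symm_apply_apply]
  rw [h1, Fintype.sum_sum_type, Fintype.sum_prod_type]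
  have h2 : ∀ j j' : Fin (2 * k), elPoly i (elOf k (Sum.inl (j, j'))) =
      Lp (BVar.x i.castSucc j) * (1 - Lp (BVar.x i.castSucc j')) +
        if j = j' then (Lp (BVar.x i.succ j) + (Lp (BVar.x i.castSucc j) *
          Lp (BVar.x i.castSucc j) - Lp (BVar.x i.castSucc j))) else 0 := by
    intro j j'
    by_cases hj : j = j'
    · subst hj
      simp only [elOf, if_true, elPoly]
      ring
    · simp only [elOf, if_neg hj, elPoly]
      ring
  have h3 : ∀ j : Fin (2 * k), elPoly i (elOf k (Sum.inr j)) = Lp (BVar.x i.succ j) :=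
    fun j => rfl
  simp only [h2, h3, Finset.sum_add_distrib, Finset.sum_ite_eq, Finset.mem_univ, if_true]
  have h4 : ∑ j : Fin (2 * k), ∑ j' : Fin (2 * k), Lp (BVar.x i.castSucc j) *
      (1 - Lp (BVar.x i.castSucc j')) =
      C (2 * k : ℚ) * Xp i.castSucc - Xp i.castSucc * Xp i.castSucc := by
    rw [← Finset.sum_mul_sum, Finset.sum_sub_distrib]
    simp only [Finset.sum_const, Finset.card_univ, Fintype.card_fin, Xp]
    rw [nsmul_one]
    push_cast
    rw [C_mul, map_natCast, map_ofNat]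
    ring
  rw [h4]
  simp only [Xp]
  ring

/-- The polynomial of the level relation. -/
noncomputable def Pp (i : Fin (k + 1)) : Poly (BVar k × Bool) :=
  2 * Yp i.succ - Yp i.castSucc * Yp i.castSucc

theorem Pp_eq (i : Fin (k + 1)) :
    Pp i = -(∑ p : Fin (NN k) × Fin (KK k), (Lp (BVar.g i p.1 p.2.succ) +
        Lp (BVar.e i p.2 p.1.succ) - Lp (BVar.g i p.1 p.2.castSucc) -
        Lp (BVar.e i p.2 p.1.castSucc))) +
      ∑ u : Fin (NN k), Lp (BVar.g i u (Fin.last _)) +
      ∑ l : Fin (KK k), (Lp (BVar.e i l (Fin.last _)) - 1) +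
      -(∑ l : Fin (KK k), Lp (BVar.e i l 0)) +
      -(∑ u : Fin (NN k), (Lp (BVar.g i u 0) - elPoly i (el k u))) +
      -(∑ j : Fin (2 * k), (Lp (BVar.x i.castSucc j) * Lp (BVar.x i.castSucc j) -
        Lp (BVar.x i.castSucc j))) := by
  have h1 : ∑ p : Fin (NN k) × Fin (KK k), (Lp (BVar.g i p.1 p.2.succ) +
        Lp (BVar.e i p.2 p.1.succ) - Lp (BVar.g i p.1 p.2.castSucc) -
        Lp (BVar.e i p.2 p.1.castSucc)) =
      (∑ u : Fin (NN k), Lp (BVar.g i u (Fin.last _)) - ∑ u : Fin (NN k), Lp (BVar.g i u 0)) +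
      (∑ l : Fin (KK k), Lp (BVar.e i l (Fin.last _)) - ∑ l : Fin (KK k), Lp (BVar.e i l 0)) := by
    have e1 : ∀ p : Fin (NN k) × Fin (KK k), (Lp (BVar.g i p.1 p.2.succ) +
        Lp (BVar.e i p.2 p.1.succ) - Lp (BVar.g i p.1 p.2.castSucc) -
        Lp (BVar.e i p.2 p.1.castSucc)) =
        (Lp (BVar.g i p.1 p.2.succ) - Lp (BVar.g i p.1 p.2.castSucc)) +
        (Lp (BVar.e i p.2 p.1.succ) - Lp (BVar.e i p.2 p.1.castSucc)) := fun p => by ring
    rw [Finset.sum_congr rfl fun p _ => e1 p, Finset.sum_add_distrib]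
    congr 1
    · rw [Fintype.sum_prod_type, ← Finset.sum_sub_distrib]
      refine Finset.sum_congr rfl fun u _ => ?_
      exact sum_telescope fun s => Lp (BVar.g i u s)
    · rw [Fintype.sum_prod_type, Finset.sum_comm, ← Finset.sum_sub_distrib]
      refine Finset.sum_congr rfl fun l _ => ?_
      exact sum_telescope fun t => Lp (BVar.e i l t)
  rw [h1, Finset.sum_sub_distrib (f := fun l : Fin (KK k) => Lp (BVar.e i l (Fin.last _))),
    Finset.sum_sub_distrib (f := fun u : Fin (NN k) => Lp (BVar.g i u 0)), sum_elPoly]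
  simp only [Finset.sum_const, Finset.card_univ, Fintype.card_fin, nsmul_one]
  unfold Pp Yp
  have hC : (C (2 * k : ℚ) : Poly (BVar k × Bool)) = 2 * C (k : ℚ) := by
    rw [C_mul, map_ofNat]
  have hK : ((KK k : ℕ) : Poly (BVar k × Bool)) = C (k : ℚ) * C (k : ℚ) + 2 * C (k : ℚ) := by
    have : (C (k : ℚ) : Poly (BVar k × Bool)) = (k : Poly (BVar k × Bool)) := map_natCast C k
    rw [this]
    push_cast
    ring
  rw [hC, hK]
  ring

theorem NN_le (hk : 1 ≤ k) : NN k ≤ 6 * k ^ 2 := by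
  change 2 * k * (2 * k) + 2 * k ≤ _
  nlinarith

theorem KK_le (hk : 1 ≤ k) : KK k ≤ 3 * k ^ 2 := by
  change k ^ 2 + 2 * k ≤ _
  nlinarith

theorem good_Pp (hk : 1 ≤ k) {s : ℕ} (hs : 4 ≤ s) (hL : LocalGood k s) (i : Fin (k + 1)) :
    Good (hardCNF k) (140 * (361 * k ^ 8 * s)) (Pp i) := by
  have hne : Nonempty (BVar k × Bool) := ⟨(BVar.x 0 ⟨0, by omega⟩, true)⟩
  have hN := NN_le hk
  have hK := KK_le hk
  have hk4 : k ^ 2 ≤ k ^ 4 := Nat.pow_le_pow_right (by omega) (by norm_num)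
  have hk1 : k ^ 1 ≤ k ^ 4 := Nat.pow_le_pow_right (by omega) (by norm_num)
  have hk0 : 1 ≤ k ^ 4 := Nat.one_le_pow _ _ (by omega)
  rw [pow_one] at hk1
  have key : ∀ {ι : Type} [Fintype ι] (p : ι → Poly (BVar k × Bool)), Fintype.card ι ≤ 18 * k ^ 4 →
      (∀ j, Good (hardCNF k) s (p j)) → Good (hardCNF k) (361 * k ^ 8 * s) (∑ j, p j) := by
    intro ι _ p hc hp
    refine (good_sum Finset.univ p hs fun j _ => hp j).mono ?_
    refine Nat.mul_le_mul_right _ ?_
    rw [Finset.card_univ]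
    calc (Fintype.card ι + 1) ^ 2 ≤ (19 * k ^ 4) ^ 2 := Nat.pow_le_pow_left (by omega) 2
      _ = 361 * k ^ 8 := by ring
  have g1 := key (fun p : Fin (NN k) × Fin (KK k) => (Lp (BVar.g i p.1 p.2.succ) +
        Lp (BVar.e i p.2 p.1.succ) - Lp (BVar.g i p.1 p.2.castSucc) -
        Lp (BVar.e i p.2 p.1.castSucc))) (by
      rw [Fintype.card_prod, Fintype.card_fin, Fintype.card_fin]
      calc NN k * KK k ≤ (6 * k ^ 2) * (3 * k ^ 2) := Nat.mul_le_mul hN hK
        _ = 18 * k ^ 4 := by ring) fun p => hL.gate i p.1 p.2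
  have g2 := key (fun u : Fin (NN k) => Lp (BVar.g i u (Fin.last _)))
    (by rw [Fintype.card_fin]; omega) fun u => hL.gK i u
  have g3 := key (fun l : Fin (KK k) => Lp (BVar.e i l (Fin.last _)) - 1)
    (by rw [Fintype.card_fin]; omega) fun l => hL.eN i l
  have g4 := key (fun l : Fin (KK k) => Lp (BVar.e i l 0))
    (by rw [Fintype.card_fin]; omega) fun l => hL.e0 i l
  have g5 := key (fun u : Fin (NN k) => Lp (BVar.g i u 0) - elPoly i (el k u))
    (by rw [Fintype.card_fin]; omega) fun u => hL.inp i u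
  have g6 := key (fun j : Fin (2 * k) => Lp (BVar.x i.castSucc j) * Lp (BVar.x i.castSucc j) -
    Lp (BVar.x i.castSucc j)) (by rw [Fintype.card_fin]; omega) fun j => hL.idem _
  rw [Pp_eq]
  exact (((((g1.neg.add g2).add g3).add g4.neg).add g5.neg).add g6.neg).mono (by omega)

theorem good_Y0 (hk : 1 ≤ k) {s : ℕ} (hs : 4 ≤ s) (hL : LocalGood k s) :
    Good (hardCNF k) ((2 * k + 1) ^ 2 * s) (Yp (0 : Fin (k + 2)) - 1) := by
  have hne : Nonempty (BVar k × Bool) := ⟨(BVar.x 0 ⟨0, by omega⟩, true)⟩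
  have h1 := good_sum Finset.univ (fun j : Fin (2 * k) => Lp (BVar.x 0 j) -
    C (if decide (j.val < k + 1) = true then 1 else 0)) hs fun j _ => hL.x0 j
  rw [Finset.card_univ, Fintype.card_fin] at h1
  have h2 : ∑ j : Fin (2 * k), (Lp (BVar.x 0 j) -
    C (if decide (j.val < k + 1) = true then (1 : ℚ) else 0)) = Yp (0 : Fin (k + 2)) - 1 := by
    rw [Finset.sum_sub_distrib, ← map_sum]
    have h3 : ∑ j : Fin (2 * k), (if decide (j.val < k + 1) = true then (1 : ℚ) else 0) =
        k + 1 := by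
      simp only [decide_eq_true_eq]
      rw [Finset.sum_boole, Fin.card_filter_val_lt, min_eq_right (by omega)]
      push_cast
      ring
    rw [h3, Yp, Xp, C_add, C_1]
    ring
  rw [← h2]
  exact h1

theorem good_Ylast (hk : 1 ≤ k) {s : ℕ} (hs : 4 ≤ s) (hL : LocalGood k s) :
    Good (hardCNF k) ((2 * k + 1) ^ 2 * s) (Yp (Fin.last (k + 1))) := by
  have hne : Nonempty (BVar k × Bool) := ⟨(BVar.x 0 ⟨0, by omega⟩, true)⟩
  have h1 := good_sum Finset.univ (fun j : Fin (2 * k) => Lp (BVar.x (Fin.last _) j) -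
    C (if decide (j.val < k) = true then 1 else 0)) hs fun j _ => hL.x1 j
  rw [Finset.card_univ, Fintype.card_fin] at h1
  have h2 : ∑ j : Fin (2 * k), (Lp (BVar.x (Fin.last _) j) -
    C (if decide (j.val < k) = true then (1 : ℚ) else 0)) = Yp (Fin.last (k + 1)) := by
    rw [Finset.sum_sub_distrib, ← map_sum]
    have h3 : ∑ j : Fin (2 * k), (if decide (j.val < k) = true then (1 : ℚ) else 0) = k := by
      simp only [decide_eq_true_eq]
      rw [Finset.sum_boole, Fin.card_filter_val_lt, min_eq_right (by omega)]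
    rw [h3, Yp, Xp]
  rw [← h2]
  exact h1

theorem monos_Lp_le {V : Type} (v : V) : monos (Lp v) ≤ 3 := by
  unfold Lp
  rw [sub_eq_add_neg]
  refine (monos_add_le _ _).trans ?_
  have h1 := monos_add_le (X ((v, false), true) : Poly (V × Bool)) (X ((v, true), true))
  rw [monos_X, monos_X] at h1
  rw [monos_neg]
  have h2 : monos ((2 : Poly (V × Bool)) * (X ((v, false), true) * X ((v, true), true))) ≤ 1 := by
    have e1 : (2 : Poly (V × Bool)) = C 2 := (map_ofNat C 2).symm
    rw [e1]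
    refine (monos_C_mul_le _ _).trans ?_
    have := monos_X_mul_le ((v, false), true) (X ((v, true), true) : Poly (V × Bool))
    rwa [monos_X] at this
  omega

theorem monos_Xp_le (i : Fin (k + 2)) : monos (Xp i) ≤ 6 * k := by
  unfold Xp
  refine (monos_sum_le _ _).trans ?_
  refine (Finset.sum_le_sum fun j _ => monos_Lp_le _).trans ?_
  rw [Finset.sum_const, Finset.card_univ, Fintype.card_fin, smul_eq_mul]
  omega

theorem monos_Yp_add_le (i : Fin (k + 2)) (c : ℚ) : monos (Yp i + C c) ≤ 6 * k + 1 := by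
  unfold Yp
  have h1 : Xp i - C (k : ℚ) + C c = Xp i + C (c - k) := by
    rw [C_sub]
    ring
  rw [h1]
  refine (monos_add_le _ _).trans ?_
  have h2 := monos_Xp_le i
  have h3 := monos_C_le (V := BVar k × Bool) (c - k)
  omega

end

end Pool.Agent.Helper81_Sos
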