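import Mathlib
import Pool.Agent.Helper81_Sos.Upper

/-!
Small sum-of-squares refutations of the hard formulas.
-/

namespace Pool.Agent.Helper81_Sos

set_option linter.unusedSectionVars false

open MvPolynomial Finset

/-- The rational solution of `2 c_{i+1} = c_i ^ 2`, `c_0 = 1`. -/
def cq (i : ℕ) : ℚ := 2 / 2 ^ (2 ^ i)

theorem cq_zero : cq 0 = 1 := by norm_num [cq]

theorem cq_succ (i : ℕ) : 2 * cq (i + 1) = cq i ^ 2 := by
  unfold cq
  rw [pow_succ, pow_mul, div_pow]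
  have h : (0 : ℚ) < 2 ^ 2 ^ i := by positivity
  field_simp

theorem cq_pos (i : ℕ) : 0 < cq i := by
  unfold cq
  positivity

/-- The multipliers of the squares. -/
def al : ℕ → ℚ
  | 0 => 1
  | n + 1 => al n / cq (n + 1)

theorem al_pos (n : ℕ) : 0 < al n := by
  induction n with
  | zero => norm_num [al]
  | succ n ih =>
    rw [al]
    exact div_pos ih (cq_pos _)

theorem al_succ_mul (n : ℕ) : al (n + 1) * cq (n + 1) = al n := by
  rw [al, div_mul_cancel₀ _ (cq_pos _).ne']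

theorem al_mul_sq (n : ℕ) : al n * cq n ^ 2 = 1 / 2 ^ n := by
  induction n with
  | zero => norm_num [al, cq_zero]
  | succ n ih =>
    have h1 := al_succ_mul n
    have h2 := cq_succ n
    calc al (n + 1) * cq (n + 1) ^ 2 = (al (n + 1) * cq (n + 1)) * cq (n + 1) := by ring
      _ = al n * cq (n + 1) := by rw [h1]
      _ = (al n * (2 * cq (n + 1))) / 2 := by ring
      _ = (1 / 2 ^ n) / 2 := by rw [h2, ih]
      _ = 1 / 2 ^ (n + 1) := by rw [pow_succ]; field_simp

/-- The telescoping identity. -/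
theorem tele_identity {σ : Type} (Y : ℕ → MvPolynomial σ ℚ) (n : ℕ) :
    ∑ i ∈ range n, C (al i) * ((Y i - C (cq i)) ^ 2 + (2 * Y (i + 1) - Y i * Y i)) =
      C (2 - 2 / 2 ^ n) - 2 * Y 0 + 2 * (C (al n * cq n) * Y n) := by
  induction n with
  | zero =>
    rw [Finset.sum_range_zero, pow_zero, cq_zero, al]
    norm_num
  | succ n ih =>
    rw [Finset.sum_range_succ, ih, al_succ_mul]
    have h1 : (C (2 - 2 / 2 ^ (n + 1)) : MvPolynomial σ ℚ) =
        C (2 - 2 / 2 ^ n) + C (al n * cq n ^ 2) := by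
      rw [← C_add, al_mul_sq]
      congr 1
      rw [pow_succ]
      field_simp
      ring
    rw [h1, C_mul, C_mul, C_pow]
    ring

theorem exists_four_squares (a : ℚ) (ha : 0 ≤ a) :
    ∃ w x y z : ℚ, a = w ^ 2 + x ^ 2 + y ^ 2 + z ^ 2 := by
  obtain ⟨w, x, y, z, h⟩ := Nat.sum_four_squares (a.num.toNat * a.den)
  have hd : (0 : ℚ) < a.den := by exact_mod_cast a.pos
  refine ⟨w / a.den, x / a.den, y / a.den, z / a.den, ?_⟩
  have h1 : ((w ^ 2 + x ^ 2 + y ^ 2 + z ^ 2 : ℕ) : ℚ) = ((a.num.toNat * a.den : ℕ) : ℚ) := by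
    rw [h]
  push_cast at h1
  have h2 : ((a.num.toNat : ℕ) : ℚ) = (a.num : ℚ) := by
    have : ((a.num.toNat : ℕ) : ℤ) = a.num := Int.toNat_of_nonneg (Rat.num_nonneg.mpr ha)
    exact_mod_cast this
  rw [h2] at h1
  have h3 : a = (a.num : ℚ) / a.den := (Rat.num_div_den a).symm
  have h4 : (w / a.den : ℚ) ^ 2 + (x / a.den) ^ 2 + (y / a.den) ^ 2 + (z / a.den) ^ 2 =
      ((w : ℚ) ^ 2 + x ^ 2 + y ^ 2 + z ^ 2) / (a.den : ℚ) ^ 2 := by
    field_simp
  rw [h4, h1]
  conv_lhs => rw [h3]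
  field_simp

theorem exists_squares {V : Type} (a : ℕ → ℚ) (ha : ∀ i, 0 ≤ a i) (z : ℕ → Poly V) {M : ℕ}
    (n : ℕ) (hz : ∀ i, i < n → monos (z i) ≤ M) :
    ∃ l : List (Poly V), (l.map fun r => r ^ 2).sum = ∑ i ∈ range n, C (a i) * z i ^ 2 ∧
      (l.map monos).sum ≤ n * (4 * M) := by
  induction n with
  | zero => exact ⟨[], by simp, by simp⟩
  | succ n ih =>
    obtain ⟨l, h1, h2⟩ := ih fun i hi => hz i (by omega)
    obtain ⟨q1, q2, q3, q4, hq⟩ := exists_four_squares (a n) (ha n)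
    refine ⟨(C q1 * z n) :: (C q2 * z n) :: (C q3 * z n) :: (C q4 * z n) :: l, ?_, ?_⟩
    · simp only [List.map_cons, List.sum_cons]
      rw [h1, Finset.sum_range_succ, hq]
      simp only [C_add, C_pow]
      ring
    · simp only [List.map_cons, List.sum_cons]
      have e : ∀ q : ℚ, monos (C q * z n) ≤ M := fun q =>
        (monos_C_mul_le q (z n)).trans (hz n (Nat.lt_succ_self n))
      have e1 := e q1
      have e2 := e q2
      have e3 := e q3
      have e4 := e q4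
      have e5 : (n + 1) * (4 * M) = n * (4 * M) + 4 * M := by ring
      omega

section

variable {k : ℕ}

/-- The shifted sizes as a sequence. -/
noncomputable def Yn (k : ℕ) (i : ℕ) : Poly (BVar k × Bool) :=
  if h : i < k + 2 then Yp ⟨i, h⟩ else 0

theorem Yn_eq {i : ℕ} (h : i < k + 2) : Yn k i = Yp ⟨i, h⟩ := by
  unfold Yn
  rw [dif_pos h]

theorem Yn_rel {i : ℕ} (h : i < k + 1) : 2 * Yn k (i + 1) - Yn k i * Yn k i = Pp ⟨i, h⟩ := by
  rw [Yn_eq (by omega), Yn_eq (by omega)]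
  rfl

/-- The remainder of the sum-of-squares identity. -/
noncomputable def Rem (k : ℕ) : Poly (BVar k × Bool) :=
  ∑ i : Fin (k + 1), C (2 ^ k * al i.val) * Pp i +
    C (2 ^ (k + 1)) * (Yp (0 : Fin (k + 2)) - 1) +
    C (-(2 ^ (k + 1) * (al (k + 1) * cq (k + 1)))) * Yp (Fin.last (k + 1))

theorem sos_identity (k : ℕ) :
    (-1 : Poly (BVar k × Bool)) =
      ∑ i ∈ range (k + 1), C (2 ^ k * al i) * (Yn k i - C (cq i)) ^ 2 + Rem k := by
  have h1 := tele_identity (Yn k) (k + 1)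
  have h2 : ∑ i ∈ range (k + 1), C (2 ^ k * al i) * (Yn k i - C (cq i)) ^ 2 +
      ∑ i : Fin (k + 1), C (2 ^ k * al i.val) * Pp i =
      C (2 ^ k) * ∑ i ∈ range (k + 1), C (al i) * ((Yn k i - C (cq i)) ^ 2 +
        (2 * Yn k (i + 1) - Yn k i * Yn k i)) := by
    have e1 : ∑ i : Fin (k + 1), C (2 ^ k * al i.val) * Pp i =
        ∑ i ∈ range (k + 1), C (2 ^ k * al i) * (2 * Yn k (i + 1) - Yn k i * Yn k i) := by
      rw [Finset.sum_range]
      refine Finset.sum_congr rfl fun i _ => ?_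
      rw [Yn_rel i.isLt]
    rw [e1, ← Finset.sum_add_distrib, Finset.mul_sum]
    refine Finset.sum_congr rfl fun i _ => ?_
    rw [C_mul]
    ring
  have h3 : Yn k 0 = Yp (0 : Fin (k + 2)) := by
    rw [Yn_eq (by omega)]
    rfl
  have h4 : Yn k (k + 1) = Yp (Fin.last (k + 1)) := by
    rw [Yn_eq (by omega)]
    rfl
  unfold Rem
  calc (-1 : Poly (BVar k × Bool)) = C (2 ^ k) * (C (2 - 2 / 2 ^ (k + 1)) - 2 * Yn k 0 +
        2 * (C (al (k + 1) * cq (k + 1)) * Yn k (k + 1))) +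
        C (2 ^ (k + 1)) * (Yn k 0 - 1) +
        C (-(2 ^ (k + 1) * (al (k + 1) * cq (k + 1)))) * Yn k (k + 1) := by
        have e1 : (C (2 ^ (k + 1)) : Poly (BVar k × Bool)) = 2 * C (2 ^ k) := by
          rw [pow_succ, mul_comm, C_mul]
          congr 1
        have e2 : (C (2 ^ k) : Poly (BVar k × Bool)) * C (2 - 2 / 2 ^ (k + 1)) =
            2 * C (2 ^ k) - 1 := by
          rw [← C_mul]
          have : (2 : ℚ) ^ k * (2 - 2 / 2 ^ (k + 1)) = 2 * 2 ^ k - 1 := by
            rw [pow_succ]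
            field_simp
          rw [this, C_sub, C_mul, C_1]
          congr 1
        have e3 : (C (-(2 ^ (k + 1) * (al (k + 1) * cq (k + 1)))) : Poly (BVar k × Bool)) =
            -(2 * C (2 ^ k) * C (al (k + 1) * cq (k + 1))) := by
          rw [C_neg, C_mul, e1]
        rw [mul_add, mul_sub, e2, e1, e3]
        ring
    _ = _ := by
        rw [← h1, ← h2, h3, h4]
        ring

theorem good_Rem (hk : 1 ≤ k) {s : ℕ} (hs : 4 ≤ s) (hL : LocalGood k s) :
    Good (hardCNF k) (4000000 * (k ^ 10 * s)) (Rem k) := by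
  have hne : Nonempty (BVar k × Bool) := ⟨(BVar.x 0 ⟨0, by omega⟩, true)⟩
  have g1 := good_sum (Finset.univ : Finset (Fin (k + 1)))
    (fun i : Fin (k + 1) => C (2 ^ k * al i.val) * Pp i)
    (s := 2 * (140 * (361 * k ^ 8 * s))) (by
      have : 1 ≤ k ^ 8 := Nat.one_le_pow _ _ (by omega)
      nlinarith) fun i _ => (good_Pp hk hs hL i).C_mul _
  rw [Finset.card_univ, Fintype.card_fin] at g1
  have g2 := (good_Y0 hk hs hL).C_mul (2 ^ (k + 1))
  have g3 := (good_Ylast hk hs hL).C_mul (-(2 ^ (k + 1) * (al (k + 1) * cq (k + 1))))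
  have g4 := (g1.add g2).add g3
  refine g4.mono ?_
  have e1 : (k + 1 + 1) ^ 2 ≤ 9 * k ^ 2 := by nlinarith
  have e2 : (2 * k + 1) ^ 2 ≤ 9 * k ^ 2 := by nlinarith
  have e3 : (k + 1 + 1) ^ 2 * (2 * (140 * (361 * k ^ 8 * s))) ≤ 909720 * (k ^ 10 * s) := by
    calc (k + 1 + 1) ^ 2 * (2 * (140 * (361 * k ^ 8 * s)))
        ≤ (9 * k ^ 2) * (2 * (140 * (361 * k ^ 8 * s))) := Nat.mul_le_mul_right _ e1
      _ = 909720 * (k ^ 10 * s) := by ring
  have e4 : (2 * k + 1) ^ 2 * s ≤ 9 * (k ^ 10 * s) := by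
    calc (2 * k + 1) ^ 2 * s ≤ (9 * k ^ 2) * s := Nat.mul_le_mul_right _ e2
      _ ≤ (9 * k ^ 10) * s := by
          refine Nat.mul_le_mul_right _ (Nat.mul_le_mul_left _ ?_)
          exact Nat.pow_le_pow_right (by omega) (by norm_num)
      _ = _ := by ring
  omega

/-- Number of variables. -/
theorem card_BVar_le (hk : 1 ≤ k) : Fintype.card (BVar k) ≤ 200 * k ^ 5 := by
  have h1 : Fintype.card (BVar k) ≤ Fintype.card ((Fin (k + 2) × Fin (2 * k)) ⊕
      ((Fin (k + 1) × Fin (NN k) × Fin (KK k + 1)) ⊕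
        (Fin (k + 1) × Fin (KK k) × Fin (NN k + 1)))) := by
    refine Fintype.card_le_of_injective (fun v => match v with
      | BVar.x i j => Sum.inl (i, j)
      | BVar.g i u s => Sum.inr (Sum.inl (i, u, s))
      | BVar.e i l t => Sum.inr (Sum.inr (i, l, t))) ?_
    intro v w h
    cases v <;> cases w <;> simp_all
  refine h1.trans ?_
  simp only [Fintype.card_sum, Fintype.card_prod, Fintype.card_fin]
  have hN := NN_le hk
  have hK := KK_le hk
  have p0 : 1 ≤ k ^ 2 := Nat.one_le_pow _ _ (by omega)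
  have a1 : (k + 2) * (2 * k) ≤ 6 * k ^ 2 := by nlinarith
  have a2 : (k + 1) * (NN k * (KK k + 1)) ≤ 48 * k ^ 5 := by
    calc (k + 1) * (NN k * (KK k + 1)) ≤ (2 * k) * ((6 * k ^ 2) * (4 * k ^ 2)) := by
          gcongr <;> omega
      _ = _ := by ring
  have a3 : (k + 1) * (KK k * (NN k + 1)) ≤ 42 * k ^ 5 := by
    calc (k + 1) * (KK k * (NN k + 1)) ≤ (2 * k) * ((3 * k ^ 2) * (7 * k ^ 2)) := by
          gcongr <;> omega
      _ = _ := by ring
  have a4 : k ^ 2 ≤ k ^ 5 := Nat.pow_le_pow_right (by omega) (by norm_num)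
  omega

theorem card_CIdx_le (hk : 1 ≤ k) : Fintype.card (CIdx k) ≤ 200 * k ^ 5 := by
  have h1 : Fintype.card (CIdx k) ≤ Fintype.card ((Fin (k + 1) × Fin (NN k) × Fin (KK k)) ⊕
      ((Fin (k + 1) × Fin (NN k)) ⊕ ((Fin (k + 1) × Fin (KK k)) ⊕ ((Fin (k + 1) × Fin (NN k)) ⊕
      ((Fin (k + 1) × Fin (KK k)) ⊕ (Fin (2 * k) ⊕ Fin (2 * k))))))) := by
    refine Fintype.card_le_of_injective (fun v => match v with
      | CIdx.gate i u l => Sum.inl (i, u, l)
      | CIdx.inp i u => Sum.inr (Sum.inl (i, u))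
      | CIdx.e0 i l => Sum.inr (Sum.inr (Sum.inl (i, l)))
      | CIdx.gK i u => Sum.inr (Sum.inr (Sum.inr (Sum.inl (i, u))))
      | CIdx.eN i l => Sum.inr (Sum.inr (Sum.inr (Sum.inr (Sum.inl (i, l)))))
      | CIdx.x0 j => Sum.inr (Sum.inr (Sum.inr (Sum.inr (Sum.inr (Sum.inl j)))))
      | CIdx.x1 j => Sum.inr (Sum.inr (Sum.inr (Sum.inr (Sum.inr (Sum.inr j)))))) ?_
    intro v w h
    cases v <;> cases w <;> simp_all
  refine h1.trans ?_
  simp only [Fintype.card_sum, Fintype.card_prod, Fintype.card_fin]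
  have hN := NN_le hk
  have hK := KK_le hk
  have a1 : (k + 1) * (NN k * KK k) ≤ 36 * k ^ 5 := by
    calc (k + 1) * (NN k * KK k) ≤ (2 * k) * ((6 * k ^ 2) * (3 * k ^ 2)) := by
          gcongr
          omega
      _ = _ := by ring
  have a2 : (k + 1) * NN k ≤ 12 * k ^ 3 := by
    calc (k + 1) * NN k ≤ (2 * k) * (6 * k ^ 2) := by
          gcongr
          omega
      _ = _ := by ring
  have a3 : (k + 1) * KK k ≤ 6 * k ^ 3 := by
    calc (k + 1) * KK k ≤ (2 * k) * (3 * k ^ 2) := by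
          gcongr
          omega
      _ = _ := by ring
  have a4 : k ^ 3 ≤ k ^ 5 := Nat.pow_le_pow_right (by omega) (by norm_num)
  have a5 : k ^ 1 ≤ k ^ 5 := Nat.pow_le_pow_right (by omega) (by norm_num)
  rw [pow_one] at a5
  omega

theorem con_r_le (c : CIdx k) : (con k c).r ≤ 4 := by
  rcases c with ⟨i, u, l⟩ | ⟨i, u⟩ | ⟨i, l⟩ | ⟨i, u⟩ | ⟨i, l⟩ | ⟨j⟩ | ⟨j⟩
  · exact le_rfl
  · change (inpCon i u (el k u)).r ≤ 4
    rcases el k u with j | ⟨j, j'⟩
    · simp [inpCon]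
    · simp [inpCon]
  all_goals simp [con]

/-- Number of clauses. -/
theorem card_hard_le (hk : 1 ≤ k) : (hardCNF k).card ≤ 51200 * k ^ 5 := by
  unfold hardCNF liftCNF
  refine Finset.card_biUnion_le.trans ?_
  have h1 : ∀ c ∈ (univ : Finset (CIdx k)), (con k c).clauses.card ≤ 256 := by
    intro c _
    unfold Con.clauses
    refine Finset.card_image_le.trans ((Finset.card_filter_le _ _).trans ?_)
    rw [Finset.card_univ, Fintype.card_fun, Fintype.card_fun, Fintype.card_bool, Fintype.card_fin]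
    calc (2 ^ 2) ^ (con k c).r ≤ (2 ^ 2) ^ 4 := Nat.pow_le_pow_right (by norm_num) (con_r_le c)
      _ = 256 := by norm_num
  refine (Finset.sum_le_sum h1).trans ?_
  rw [Finset.sum_const, Finset.card_univ, smul_eq_mul]
  have := card_CIdx_le hk
  omega

theorem exists_sos (hk : 1 ≤ k) {s : ℕ} (hs : 4 ≤ s) (hL : LocalGood k s) :
    ∃ π : SOSRefutation (hardCNF k), π.monomialSize ≤ 5000000 * (k ^ 10 * s) := by
  obtain ⟨l, hl1, hl2⟩ := exists_squares (fun i => 2 ^ k * al i)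
    (fun i => mul_nonneg (by positivity) (al_pos i).le) (fun i => Yn k i - C (cq i))
    (M := 6 * k + 1) (k + 1) (by
      intro i hi
      rw [Yn_eq (by omega)]
      have := monos_Yp_add_le (k := k) ⟨i, by omega⟩ (-cq i)
      rwa [C_neg, ← sub_eq_add_neg] at this)
  obtain ⟨t, u, w, h1, h2⟩ := (good_Rem hk hs hL).1
  refine ⟨⟨l, t, u, w, ?_⟩, ?_⟩
  · rw [hl1, add_assoc, ← h1]
    exact sos_identity k
  · unfold SOSRefutation.monomialSize
    simp only [Finset.sum_add_distrib]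
    have e1 : ∑ c ∈ hardCNF k, monos c.poly ≤ 51200 * k ^ 5 := by
      refine (Finset.sum_le_sum fun c _ => monos_clause_le c).trans ?_
      rw [Finset.sum_const, smul_eq_mul, mul_one]
      exact card_hard_le hk
    have e2 : ∑ v : BVar k × Bool, monos (boolAx v) ≤ 800 * k ^ 5 := by
      refine (Finset.sum_le_sum fun v _ => monos_boolAx_le v).trans ?_
      rw [Finset.sum_const, smul_eq_mul, Finset.card_univ, Fintype.card_prod, Fintype.card_bool]
      have := card_BVar_le hk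
      omega
    have e3 : ∑ v : BVar k × Bool, monos (twinAx v) ≤ 1200 * k ^ 5 := by
      refine (Finset.sum_le_sum fun v _ => monos_twinAx_le v).trans ?_
      rw [Finset.sum_const, smul_eq_mul, Finset.card_univ, Fintype.card_prod, Fintype.card_bool]
      have := card_BVar_le hk
      omega
    rw [Finset.sum_add_distrib] at h2
    have e4 : (k + 1) * (4 * (6 * k + 1)) ≤ 56 * k ^ 2 := by nlinarith
    have e5 : k ^ 2 ≤ k ^ 10 := Nat.pow_le_pow_right (by omega) (by norm_num)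
    have e6 : k ^ 5 ≤ k ^ 10 := Nat.pow_le_pow_right (by omega) (by norm_num)
    have e7 : 4 * k ^ 10 ≤ k ^ 10 * s := by
      rw [mul_comm]
      exact Nat.mul_le_mul_left _ hs
    omega

end

end Pool.Agent.Helper81_Sos
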