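import Mathlib
import Pool.Agent.Helper81_Sos.UpperSos

/-!
Small PCR refutations of the hard formulas.
-/

namespace Pool.Agent.Helper81_Sos

set_option linter.unusedSectionVars false

open MvPolynomial Finset

section

variable {V : Type} [Fintype V] [DecidableEq V] {F : CNF V}

/-- Sums in a context. -/
theorem ext_sum [Nonempty V] {ι : Type} {H : List (Poly V)} (S : Finset ι) (p : ι → Poly V)
    {s : ℕ} (hs : 4 ≤ s) (h : ∀ i ∈ S, Ext F H (p i) s) (hm : ∀ i ∈ S, monos (p i) ≤ s) :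
    Ext F H (∑ i ∈ S, p i) ((S.card + 1) ^ 2 * s) ∧ monos (∑ i ∈ S, p i) ≤ S.card * s := by
  classical
  induction S using Finset.induction_on with
  | empty =>
    refine ⟨?_, by simp [monos_zero]⟩
    simp only [Finset.sum_empty, Finset.card_empty]
    exact (good_zero (F := F)).2.1.mono (by simp) (by omega)
  | insert a S ha ih =>
    obtain ⟨h1, h2⟩ := ih (fun i hi => h i (Finset.mem_insert_of_mem hi))
      fun i hi => hm i (Finset.mem_insert_of_mem hi)
    have g1 := h a (Finset.mem_insert_self a S)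
    have g2 := hm a (Finset.mem_insert_self a S)
    rw [Finset.sum_insert ha, Finset.card_insert_of_notMem ha]
    have h4 := monos_add_le (p a) (∑ i ∈ S, p i)
    refine ⟨(g1.add h1).mono (fun _ h => h) ?_, ?_⟩
    · nlinarith
    · nlinarith

end

section

variable {V : Type} [Fintype V] [DecidableEq V] {F : CNF (V × Bool)}

/-- Multiplication of an available line by `Lp v`. -/
theorem ext_Lp_mul {H : List (Poly (V × Bool))} {q : Poly (V × Bool)} (hq : q ∈ H) (v : V) :
    Ext F H (Lp v * q) (12 * monos q) ∧ monos (Lp v * q) ≤ 3 * monos q := by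
  have h0 := Ext.mem (F := F) hq
  have h1 := h0.X_mul ((v, false), true)
  have h2 := h0.X_mul ((v, true), true)
  have h3 := h2.X_mul ((v, false), true)
  have m1 := monos_X_mul_le ((v, false), true) q
  have m2 := monos_X_mul_le ((v, true), true) q
  have m3 := monos_X_mul_le ((v, false), true) (X ((v, true), true) * q)
  have h4 := h1.add h2
  have h5 := h4.lin h3 1 (-2)
  have e1 : C 1 * (X ((v, false), true) * q + X ((v, true), true) * q) +
      C (-2) * (X ((v, false), true) * (X ((v, true), true) * q)) = Lp v * q := by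
    have e2 : (C (-2) : Poly (V × Bool)) = -2 := by
      rw [C_neg, map_ofNat]
    rw [C_1, e2, Lp]
    ring
  rw [e1] at h5
  have m4 := monos_add_le (X ((v, false), true) * q) (X ((v, true), true) * q)
  have m5 : monos (Lp v * q) ≤ 3 * monos q :=
    (monos_mul_le _ _).trans (Nat.mul_le_mul_right _ (monos_Lp_le v))
  exact ⟨h5.mono (fun _ h => h) (by omega), m5⟩

end

section

variable {k : ℕ}

/-- Multiplication of an available line by `Yp i + C c`. -/
theorem ext_Y_mul (hk : 1 ≤ k) {F : CNF (BVar k × Bool)} {H : List (Poly (BVar k × Bool))}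
    {q : Poly (BVar k × Bool)} (hq : q ∈ H) (i : Fin (k + 2)) (c : ℚ) :
    Ext F H ((Yp i + C c) * q) (200 * (k ^ 2 * (4 + monos q))) := by
  have hne : Nonempty (BVar k × Bool) := ⟨(BVar.x 0 ⟨0, by omega⟩, true)⟩
  have h1 := ext_sum (F := F) (H := H) (Finset.univ : Finset (Fin (2 * k)))
    (fun j => Lp (BVar.x i j) * q) (s := 12 * (4 + monos q)) (by omega)
    (fun j _ => (ext_Lp_mul hq _).1.mono (fun _ h => h) (by omega))
    fun j _ => (ext_Lp_mul (F := F) hq _).2.trans (by omega)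
  obtain ⟨h1, m1⟩ := h1
  rw [Finset.card_univ, Fintype.card_fin] at h1 m1
  have h2 := (Ext.mem (F := F) hq).C_mul (c - k)
  have h3 := h1.add h2
  have e1 : ∑ j : Fin (2 * k), Lp (BVar.x i j) * q + C (c - (k : ℚ)) * q =
      (Yp i + C c) * q := by
    rw [← Finset.sum_mul, C_sub, Yp, Xp]
    ring
  rw [e1] at h3
  have m2 : monos ((Yp i + C c) * q) ≤ (6 * k + 1) * monos q :=
    (monos_mul_le _ _).trans (Nat.mul_le_mul_right _ (monos_Yp_add_le i c))
  refine h3.mono (fun _ h => h) ?_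
  have e2 : (2 * k + 1) ^ 2 ≤ 9 * k ^ 2 := by nlinarith
  have e3 : (2 * k + 1) ^ 2 * (12 * (4 + monos q)) ≤ 108 * (k ^ 2 * (4 + monos q)) := by
    calc (2 * k + 1) ^ 2 * (12 * (4 + monos q)) ≤ (9 * k ^ 2) * (12 * (4 + monos q)) :=
          Nat.mul_le_mul_right _ e2
      _ = _ := by ring
  have e4 : (6 * k + 1) * monos q ≤ 7 * (k ^ 2 * (4 + monos q)) := by
    calc (6 * k + 1) * monos q ≤ (7 * k ^ 2) * (4 + monos q) := by
          refine Nat.mul_le_mul (by nlinarith) (by omega)
      _ = _ := by ring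
  have e5 : monos q ≤ k ^ 2 * (4 + monos q) := by
    calc monos q ≤ 1 * (4 + monos q) := by omega
      _ ≤ k ^ 2 * (4 + monos q) := Nat.mul_le_mul_right _ (Nat.one_le_pow _ _ (by omega))
  omega

/-- The lines `z_i = Y_i - c_i`. -/
noncomputable def zz (k : ℕ) (i : ℕ) : Poly (BVar k × Bool) := Yn k i - C (cq i)

theorem monos_zz_le {i : ℕ} (hi : i < k + 2) : monos (zz k i) ≤ 6 * k + 1 := by
  unfold zz
  rw [Yn_eq hi]
  have := monos_Yp_add_le (k := k) ⟨i, hi⟩ (-cq i)
  rwa [C_neg, ← sub_eq_add_neg] at this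

theorem zz_rel {i : ℕ} (hi : i < k + 1) :
    C (1 / 2) * ((Yp (⟨i, by omega⟩ : Fin (k + 2)) + C (cq i)) * zz k i) +
      C (1 / 2) * Pp ⟨i, hi⟩ = zz k (i + 1) := by
  rw [← Yn_rel hi]
  unfold zz
  rw [← Yn_eq (by omega : i < k + 2)]
  have h1 := cq_succ i
  have h2 : (C (cq (i + 1)) : Poly (BVar k × Bool)) = C (1 / 2) * (C (cq i) * C (cq i)) := by
    rw [← C_mul, ← C_mul]
    congr 1
    linarith
  have h3 : (C (1 / 2) : Poly (BVar k × Bool)) * 2 = 1 := by
    have : (2 : Poly (BVar k × Bool)) = C 2 := (map_ofNat C 2).symm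
    rw [this, ← C_mul]
    norm_num
  rw [h2]
  linear_combination (Yn k (i + 1)) * h3

theorem ext_zz (hk : 1 ≤ k) {s : ℕ} (hs : 4 ≤ s) (hL : LocalGood k s) (i : ℕ) (hi : i < k + 2) :
    Ext (hardCNF k) [] (zz k i) (100000 * (k ^ 8 * s) * (i + 1)) := by
  have hk8 : 1 ≤ k ^ 8 := Nat.one_le_pow _ _ (by omega)
  induction i with
  | zero =>
    have h1 := (good_Y0 hk hs hL).2.1
    have h2 : zz k 0 = Yp (0 : Fin (k + 2)) - 1 := by
      unfold zz
      rw [Yn_eq (by omega), cq_zero, C_1]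
      rfl
    rw [h2]
    refine h1.mono (fun _ h => h) ?_
    have e2 : (2 * k + 1) ^ 2 ≤ 9 * k ^ 8 := by
      have : k ^ 2 ≤ k ^ 8 := Nat.pow_le_pow_right (by omega) (by norm_num)
      nlinarith
    calc (2 * k + 1) ^ 2 * s ≤ (9 * k ^ 8) * s := Nat.mul_le_mul_right _ e2
      _ = 9 * (k ^ 8 * s) := by ring
      _ ≤ _ := by omega
  | succ i ih =>
    have h1 := ih (by omega)
    have h2 := ext_Y_mul (F := hardCNF k) hk (List.mem_singleton.mpr rfl : zz k i ∈ [zz k i])
      ⟨i, by omega⟩ (cq i)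
    have h3 := ((good_Pp hk hs hL ⟨i, by omega⟩).2.1).mono (H' := [zz k i]) (by simp) le_rfl
    have h4 := h2.lin h3 (1 / 2) (1 / 2)
    rw [zz_rel (by omega)] at h4
    have h5 := h1.cut h4
    refine h5.mono (fun _ h => h) ?_
    have m1 := monos_zz_le (k := k) (i := i) (by omega)
    have m2 := monos_zz_le (k := k) (i := i + 1) (by omega)
    have e1 : 200 * (k ^ 2 * (4 + monos (zz k i))) ≤ 2200 * (k ^ 8 * s) := by
      calc 200 * (k ^ 2 * (4 + monos (zz k i))) ≤ 200 * (k ^ 2 * (11 * k)) := by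
            gcongr
            omega
        _ = 2200 * k ^ 3 := by ring
        _ ≤ 2200 * (k ^ 8 * s) := by
            refine Nat.mul_le_mul_left _ ?_
            calc k ^ 3 ≤ k ^ 8 := Nat.pow_le_pow_right (by omega) (by norm_num)
              _ ≤ k ^ 8 * s := Nat.le_mul_of_pos_right _ (by omega)
    have e2 : 6 * k + 1 ≤ 7 * (k ^ 8 * s) := by
      have : k ^ 1 ≤ k ^ 8 := Nat.pow_le_pow_right (by omega) (by norm_num)
      rw [pow_one] at this
      have h6 : k ^ 8 ≤ k ^ 8 * s := Nat.le_mul_of_pos_right _ (by omega)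
      omega
    have e3 : 140 * (361 * k ^ 8 * s) = 50540 * (k ^ 8 * s) := by ring
    rw [e3]
    have e4 : 100000 * (k ^ 8 * s) * (i + 1 + 1) =
        100000 * (k ^ 8 * s) * (i + 1) + 100000 * (k ^ 8 * s) := by ring
    rw [e4]
    omega

theorem ext_one (hk : 1 ≤ k) {s : ℕ} (hs : 4 ≤ s) (hL : LocalGood k s) :
    Ext (hardCNF k) [] 1 (400000 * (k ^ 9 * s)) := by
  have h1 := ext_zz hk hs hL (k + 1) (by omega)
  have h2 := (good_Ylast hk hs hL).2.1
  have h3 := h1.lin h2 (-(1 / cq (k + 1))) (1 / cq (k + 1))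
  have h4 : C (-(1 / cq (k + 1))) * zz k (k + 1) + C (1 / cq (k + 1)) * Yp (Fin.last (k + 1)) =
      (1 : Poly (BVar k × Bool)) := by
    have e1 : Yn k (k + 1) = Yp (Fin.last (k + 1)) := by
      rw [Yn_eq (by omega)]
      rfl
    have e2 : (C (1 / cq (k + 1)) : Poly (BVar k × Bool)) * C (cq (k + 1)) = 1 := by
      rw [← C_mul, one_div, inv_mul_cancel₀ (cq_pos _).ne', C_1]
    unfold zz
    rw [e1, C_neg]
    linear_combination e2
  rw [h4] at h3
  refine h3.mono (fun _ h => h) ?_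
  have m1 := monos_one_le (V := BVar k × Bool)
  have e1 : 100000 * (k ^ 8 * s) * (k + 1 + 1) ≤ 300000 * (k ^ 9 * s) := by
    calc 100000 * (k ^ 8 * s) * (k + 1 + 1) ≤ 100000 * (k ^ 8 * s) * (3 * k) :=
          Nat.mul_le_mul_left _ (by omega)
      _ = _ := by ring
  have e2 : (2 * k + 1) ^ 2 * s ≤ 9 * (k ^ 9 * s) := by
    have : k ^ 2 ≤ k ^ 9 := Nat.pow_le_pow_right (by omega) (by norm_num)
    calc (2 * k + 1) ^ 2 * s ≤ (9 * k ^ 9) * s := by
          refine Nat.mul_le_mul_right _ ?_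
          nlinarith
      _ = _ := by ring
  have e3 : 1 ≤ k ^ 9 * s := Nat.mul_pos (by positivity) (by omega)
  omega

end

theorem Valid.step {V : Type} [Fintype V] [DecidableEq V] {F : CNF V} {L : List (Poly V)}
    (h : Valid F L) :
    ∀ (i : ℕ) (hi : i < L.length), PCRStep F (L.take i) L[i] := by
  induction h with
  | nil =>
    intro i hi
    simp at hi
  | @snoc L p hL hp ih =>
    intro i hi
    rw [List.length_append, List.length_singleton] at hi
    rcases Nat.lt_succ_iff_lt_or_eq.mp hi with h1 | h1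
    · rw [List.take_append_of_le_length h1.le, List.getElem_append_left h1]
      exact ih i h1
    · subst h1
      rw [List.take_left', List.getElem_append_right le_rfl]
      · simpa using hp
      · rfl

theorem exists_pcr {k : ℕ} (hk : 1 ≤ k) {s : ℕ} (hs : 4 ≤ s) (hL : LocalGood k s) :
    ∃ π : PCRRefutation (hardCNF k), π.monomialSize ≤ 5000000 * (k ^ 10 * s) := by
  obtain ⟨M, h1, h2, h3⟩ := ext_one hk hs hL [] Valid.nil (by simp)
  rw [List.nil_append] at h1 h2
  have h4 : Valid (hardCNF k) (M ++ [1]) := Valid.snoc h1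
    (Or.inr (Or.inr (Or.inr (Or.inr ⟨1, h2, 1, h2, 1, 0, by simp⟩))))
  refine ⟨⟨M ++ [1], h4.step, by simp⟩, ?_⟩
  unfold PCRRefutation.monomialSize
  simp only [List.map_append, List.sum_append, List.map_cons, List.map_nil, List.sum_cons,
    List.sum_nil]
  have m1 := monos_one_le (V := BVar k × Bool)
  have e1 : k ^ 9 * s ≤ k ^ 10 * s :=
    Nat.mul_le_mul_right _ (Nat.pow_le_pow_right (by omega) (by norm_num))
  have e3 : 1 ≤ k ^ 9 * s := Nat.mul_pos (by positivity) (by omega)
  omega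

end Pool.Agent.Helper81_Sos
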