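import Mathlib
import Pool.Agent.Helper81_Sos.UpperPcr
import Pool.Agent.Helper81_Sos.LowerFinal

/-!
Monomial size and bit size are exponentially far apart on CNF formulas.
-/

namespace Pool.Agent.Helper81_Sos

set_option linter.unusedSectionVars false

open MvPolynomial Finset

/-- Soundness: a formula with a sum-of-squares refutation is unsatisfiable. -/
theorem unsat_of_sos {V : Type} [Fintype V] {F : CNF V} (π : SOSRefutation F) : F.Unsat := by
  intro a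
  by_contra hcon
  push Not at hcon
  have h1 := congrArg (aeval (pt a) : Poly V → ℝ) π.identity
  rw [map_neg, map_one, map_add, map_add, map_list_sum, map_sum, map_sum] at h1
  have h2 : ∑ c ∈ F, (aeval (pt a) (π.t c * c.poly) : ℝ) = 0 := by
    refine Finset.sum_eq_zero fun c hc => ?_
    rw [map_mul]
    have h3 : (aeval (pt a) c.poly : ℝ) = 0 := by
      unfold Clause.poly
      rw [map_mul, map_prod, map_prod]
      rcases hcon c hc with ⟨v, hv, hva⟩ | ⟨v, hv, hva⟩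
      · rw [Finset.prod_eq_zero hv, zero_mul]
        rw [aeval_X]
        simp [pt, hva]
      · rw [Finset.prod_eq_zero (s := c.neg) hv, mul_zero]
        rw [aeval_X]
        simp [pt, hva]
    rw [h3, mul_zero]
  have h4 : ∑ v, (aeval (pt a) (π.u v * boolAx v + π.w v * twinAx v) : ℝ) = 0 := by
    refine Finset.sum_eq_zero fun v _ => ?_
    rw [map_add, map_mul, map_mul, aeval_boolAx, aeval_twinAx]
    ring
  rw [h2, h4, add_zero, add_zero] at h1
  have h5 : 0 ≤ ((π.squares.map fun r => r ^ 2).map (aeval (pt a) : Poly V → ℝ)).sum := by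
    apply List.sum_nonneg
    intro x hx
    obtain ⟨p, hp, rfl⟩ := List.mem_map.mp hx
    obtain ⟨q, hq, rfl⟩ := List.mem_map.mp hp
    rw [map_pow]
    positivity
  have h6 : (-1 : ℝ) = ((π.squares.map fun r => r ^ 2).map (aeval (pt a) : Poly V → ℝ)).sum := h1
  linarith

theorem exists_lt_two_pow (A d : ℕ) : ∃ k : ℕ, 1 ≤ k ∧ A * k ^ d < 2 ^ k := by
  have h1 := tendsto_pow_const_div_const_pow_of_one_lt d (r := (2 : ℝ)) (by norm_num)
  have h2 : ∀ᶠ n : ℕ in Filter.atTop, (n : ℝ) ^ d / 2 ^ n < 1 / (A + 1) :=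
    h1.eventually (gt_mem_nhds (by positivity))
  obtain ⟨k, hk, hk1⟩ := (h2.and (Filter.eventually_ge_atTop 1)).exists
  refine ⟨k, hk1, ?_⟩
  have h3 : (0 : ℝ) < 2 ^ k := by positivity
  have h4 : (0 : ℝ) < (A : ℝ) + 1 := by positivity
  rw [div_lt_div_iff₀ h3 h4] at hk
  have h5 : (0 : ℝ) ≤ (k : ℝ) ^ d := by positivity
  have h6 : (A : ℝ) * (k : ℝ) ^ d < 2 ^ k := by nlinarith
  exact_mod_cast h6

theorem eval_le_pow (f : Polynomial ℕ) {x : ℕ} (hx : 1 ≤ x) :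
    f.eval x ≤ f.eval 1 * x ^ f.natDegree := by
  rw [Polynomial.eval_eq_sum_range, Polynomial.eval_eq_sum_range, Finset.sum_mul]
  refine Finset.sum_le_sum fun i hi => ?_
  rw [one_pow, mul_one]
  refine Nat.mul_le_mul_left _ (Nat.pow_le_pow_right hx ?_)
  exact Nat.lt_succ_iff.mp (Finset.mem_range.mp hi)

theorem eval_mono (f : Polynomial ℕ) {x y : ℕ} (h : x ≤ y) : f.eval x ≤ f.eval y := by
  rw [Polynomial.eval_eq_sum_range, Polynomial.eval_eq_sum_range]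
  exact Finset.sum_le_sum fun i _ => Nat.mul_le_mul_left _ (Nat.pow_le_pow_left h i)

/-- No polynomial bounds a quantity whose 256th power is exponential by one that is polynomial. -/
theorem no_poly {c : ℕ} {m b : ℕ → ℕ} (f : Polynomial ℕ) (hm : ∀ k, 1 ≤ k → m k ≤ c * k ^ 10)
    (hb : ∀ k, 1 ≤ k → 2 ^ k ≤ b k ^ 256) (h : ∀ k, 1 ≤ k → b k ≤ f.eval (m k)) : False := by
  obtain ⟨k, hk, hlt⟩ := exists_lt_two_pow ((f.eval 1 * (c + 1) ^ f.natDegree) ^ 256)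
    (10 * f.natDegree * 256)
  have h1 : f.eval (m k) ≤ f.eval 1 * (c + 1) ^ f.natDegree * k ^ (10 * f.natDegree) := by
    have e1 : m k ≤ (c + 1) * k ^ 10 := (hm k hk).trans (Nat.mul_le_mul_right _ (by omega))
    have e2 : 1 ≤ (c + 1) * k ^ 10 := Nat.mul_pos (by omega) (by positivity)
    calc f.eval (m k) ≤ f.eval ((c + 1) * k ^ 10) := eval_mono f e1
      _ ≤ f.eval 1 * ((c + 1) * k ^ 10) ^ f.natDegree := eval_le_pow f e2
      _ = _ := by rw [mul_pow, ← pow_mul]; ring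
  have h2 : 2 ^ k ≤ (f.eval 1 * (c + 1) ^ f.natDegree * k ^ (10 * f.natDegree)) ^ 256 :=
    (hb k hk).trans (Nat.pow_le_pow_left ((h k hk).trans h1) 256)
  rw [mul_pow, ← pow_mul] at h2
  omega

theorem separation : ∃ c : ℕ, ∀ k : ℕ, 1 ≤ k → (hardCNF k).Unsat ∧
    (∃ π : SOSRefutation (hardCNF k), π.monomialSize ≤ c * k ^ 10) ∧
    (∃ π : PCRRefutation (hardCNF k), π.monomialSize ≤ c * k ^ 10) ∧
    (∀ π : SOSRefutation (hardCNF k), 2 ^ k ≤ π.bits ^ 256) ∧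
    (∀ π : PCRRefutation (hardCNF k), 2 ^ k ≤ π.bits ^ 256) := by
  obtain ⟨s, hs, hL⟩ := exists_localGood
  refine ⟨5000000 * s, fun k hk => ?_⟩
  obtain ⟨π1, h1⟩ := exists_sos hk hs (hL k hk)
  obtain ⟨π2, h2⟩ := exists_pcr hk hs (hL k hk)
  have e : 5000000 * (k ^ 10 * s) = 5000000 * s * k ^ 10 := by ring
  rw [e] at h1 h2
  exact ⟨unsat_of_sos π1, ⟨π1, h1⟩, ⟨π2, h2⟩, sos_lower_final k, pcr_lower_final k⟩

theorem no_poly_sos : ¬ ∃ f : Polynomial ℕ, ∀ (V : Type) [Fintype V] (F : CNF V), F.Unsat →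
    ∀ π : SOSRefutation F, ∃ π' : SOSRefutation F, π'.bits ≤ f.eval π.monomialSize := by
  rintro ⟨f, hf⟩
  obtain ⟨c, hc⟩ := separation
  have key : ∀ k : ℕ, ∃ mb : ℕ × ℕ, 1 ≤ k →
      mb.1 ≤ c * k ^ 10 ∧ 2 ^ k ≤ mb.2 ^ 256 ∧ mb.2 ≤ f.eval mb.1 := by
    intro k
    by_cases hk : 1 ≤ k
    · obtain ⟨h1, ⟨π, hπ⟩, -, h4, -⟩ := hc k hk
      obtain ⟨π', hπ'⟩ := hf _ (hardCNF k) h1 π
      exact ⟨(π.monomialSize, π'.bits), fun _ => ⟨hπ, h4 π', hπ'⟩⟩
    · exact ⟨(0, 0), fun h => absurd h hk⟩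
  choose mb hmb using key
  exact no_poly (m := fun k => (mb k).1) (b := fun k => (mb k).2) f (fun k hk => (hmb k hk).1)
    (fun k hk => (hmb k hk).2.1) fun k hk => (hmb k hk).2.2

theorem no_poly_pcr : ¬ ∃ f : Polynomial ℕ, ∀ (V : Type) [Fintype V] (F : CNF V), F.Unsat →
    ∀ π : PCRRefutation F, ∃ π' : PCRRefutation F, π'.bits ≤ f.eval π.monomialSize := by
  rintro ⟨f, hf⟩
  obtain ⟨c, hc⟩ := separation
  have key : ∀ k : ℕ, ∃ mb : ℕ × ℕ, 1 ≤ k →
      mb.1 ≤ c * k ^ 10 ∧ 2 ^ k ≤ mb.2 ^ 256 ∧ mb.2 ≤ f.eval mb.1 := by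
    intro k
    by_cases hk : 1 ≤ k
    · obtain ⟨h1, -, ⟨π, hπ⟩, -, h4⟩ := hc k hk
      obtain ⟨π', hπ'⟩ := hf _ (hardCNF k) h1 π
      exact ⟨(π.monomialSize, π'.bits), fun _ => ⟨hπ, h4 π', hπ'⟩⟩
    · exact ⟨(0, 0), fun h => absurd h hk⟩
  choose mb hmb using key
  exact no_poly (m := fun k => (mb k).1) (b := fun k => (mb k).2) f (fun k hk => (hmb k hk).1)
    (fun k hk => (hmb k hk).2.1) fun k hk => (hmb k hk).2.2

end Pool.Agent.Helper81_Sos
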